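import Mathlib

/-! A countable algebraically closed base field. -/

set_option autoImplicit false
set_option linter.all false

namespace Pool.Agent.Helper897.BS

/-- The image under a field automorphism fixing `k₁` pointwise of an element algebraic over `k₁`
is algebraic over `k₁`. -/
theorem isAlgebraic_map_of_fix {W : Type} [Field W] (k₁ : Subfield W) (φ : W ≃+* W)
    (hφ : ∀ x ∈ k₁, φ x = x) {x : W} (hx : IsAlgebraic k₁ x) : IsAlgebraic k₁ (φ x) := by
  let f : W →ₐ[k₁] W :=
    { (φ : W →+* W) with
      commutes' := fun r => hφ _ r.2 }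
  exact hx.algHom f

/-- main result of the file -/
theorem exists_base {W : Type} [Field W] [IsAlgClosed W] [CharZero W] (φ : W ≃+* W) (c : Finset W)
    (hc : ∀ x ∈ c, φ x = x) :
    ∃ k : Subfield W, IsAlgClosed k ∧ (k : Set W).Countable ∧ (∀ x ∈ c, x ∈ k) ∧
      ∀ x, x ∈ k ↔ φ x ∈ k := by
  classical
  set k₁ : Subfield W := Subfield.closure (c : Set W) with hk₁
  have hfix : ∀ x ∈ k₁, φ x = x := by
    intro x hx
    refine Subfield.closure_induction (p := fun x _ => φ x = x) ?_ ?_ ?_ ?_ ?_ ?_ hx
    · intro x hx
      exact hc x (by simpa using hx)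
    · simp
    · intro x y _ _ h1 h2
      simp [h1, h2]
    · intro x _ h1
      simp [h1]
    · intro x _ h1
      simp [h1]
    · intro x y _ _ h1 h2
      simp [h1, h2]
  have hfix' : ∀ x ∈ k₁, φ.symm x = x := by
    intro x hx
    rw [RingEquiv.symm_apply_eq]
    exact (hfix x hx).symm
  have hcount1 : Countable k₁ := by
    have h := Subfield.cardinalMk_closure_le_max (c : Set W)
    rw [← Cardinal.mk_le_aleph0_iff]
    refine h.trans (max_le ?_ le_rfl)
    exact Cardinal.mk_le_aleph0_iff.mpr (by infer_instance)
  have hcount : Countable (algebraicClosure k₁ W) := by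
    have h := Algebra.IsAlgebraic.cardinalMk_le_max k₁ (algebraicClosure k₁ W)
    rw [← Cardinal.mk_le_aleph0_iff]
    refine h.trans (max_le ?_ le_rfl)
    exact Cardinal.mk_le_aleph0_iff.mpr hcount1
  refine ⟨(algebraicClosure k₁ W).toSubfield, ?_, ?_, ?_, ?_⟩
  · have : IsAlgClosed (algebraicClosure k₁ W) :=
      (inferInstance : IsAlgClosure k₁ (algebraicClosure k₁ W)).isAlgClosed
    exact this
  · have : Countable ((algebraicClosure k₁ W).toSubfield) := hcount
    exact Set.countable_coe_iff.mp this
  · intro x hx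
    have hx1 : x ∈ k₁ := Subfield.subset_closure (by simpa using hx)
    show x ∈ algebraicClosure k₁ W
    rw [mem_algebraicClosure_iff]
    exact isAlgebraic_algebraMap (⟨x, hx1⟩ : k₁)
  · intro x
    show x ∈ algebraicClosure k₁ W ↔ φ x ∈ algebraicClosure k₁ W
    rw [mem_algebraicClosure_iff, mem_algebraicClosure_iff]
    constructor
    · exact isAlgebraic_map_of_fix k₁ φ hfix
    · intro h
      have := isAlgebraic_map_of_fix k₁ φ.symm hfix' h
      simpa using this

end Pool.Agent.Helper897.BS
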