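import Pool.Agent.Helper897_BS.UDefs

/-! The number of bad points. -/

set_option autoImplicit false
set_option linter.all false

namespace Pool.Agent.Helper897.BS

open Polynomial

theorem bdc_count {K : Type*} [Field K] (Q : K[X][X]) (hQ : Q.Monic) (T : Finset K)
    (Z : Finset (K × K)) (hZ : ∀ z ∈ Z, z.1 ∈ T ∧ evalEval z.1 z.2 Q = 0) :
    Z.card ≤ Q.natDegree * T.card := by
  classical
  apply Finset.card_le_mul_card_image_of_maps_to (f := Prod.fst) (fun z hz => (hZ z hz).1)
  intro b _
  have hm : (Q.map (evalRingHom b)).Monic := hQ.map _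
  have hsub : (Z.filter (fun z => z.1 = b)).image Prod.snd ⊆
      (Q.map (evalRingHom b)).roots.toFinset := by
    intro y hy
    rw [Finset.mem_image] at hy
    obtain ⟨z, hz, rfl⟩ := hy
    rw [Finset.mem_filter] at hz
    rw [Multiset.mem_toFinset, mem_roots hm.ne_zero, IsRoot.def, map_evalRingHom_eval, ← hz.2]
    exact (hZ z hz.1).2
  have hinj : Set.InjOn (Prod.snd : K × K → K) ↑(Z.filter (fun z => z.1 = b)) := by
    intro x hx y hy hxy
    rw [Finset.mem_coe, Finset.mem_filter] at hx hy
    exact Prod.ext (hx.2.trans hy.2.symm) hxy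
  rw [← Finset.card_image_of_injOn hinj]
  calc _ ≤ (Q.map (evalRingHom b)).roots.toFinset.card := Finset.card_le_card hsub
    _ ≤ Multiset.card (Q.map (evalRingHom b)).roots := Multiset.toFinset_card_le _
    _ ≤ (Q.map (evalRingHom b)).natDegree := card_roots' _
    _ = Q.natDegree := hQ.natDegree_map _

variable (p : ℕ → ℕ) [hp : ∀ n, Fact (p n).Prime]

/-- main result of the file -/
theorem bad_count (P : (∀ n, Fp p n)[X][X]) (hP : P.Monic) (R : ∀ n, Set (ZMod (p n)))
    (D : (WW p)[X]) (hD : D ≠ 0)
    (h : ∀ β t : ∀ n, ZMod (p n),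
      (∀ᶠ n in (UF : Filter ℕ), evalEval (β n) (t n) (P.map (mapRingHom (ev (Fp p) n))) = 0) →
      D.eval (inc p (st UF (Fp p) β)) ≠ 0 → ∀ᶠ n in (UF : Filter ℕ), β n ∈ R n) :
    ∃ C : ℕ, ∀ᶠ n in (UF : Filter ℕ),
      {z : ZMod (p n) × ZMod (p n) |
        evalEval z.1 z.2 (P.map (mapRingHom (ev (Fp p) n))) = 0}.ncard ≤
      P.natDegree * (R n).ncard + C := by
  classical
  set N := P.natDegree with hN
  set C := N * D.natDegree with hC
  -- the bad points
  set B : ∀ n, Set (ZMod (p n) × ZMod (p n)) := fun n =>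
    {z | evalEval z.1 z.2 (P.map (mapRingHom (ev (Fp p) n))) = 0 ∧ z.1 ∉ R n} with hB
  have key : ∀ᶠ n in (UF : Filter ℕ), (B n).ncard ≤ C := by
    by_contra hcon
    rw [← Ultrafilter.eventually_not] at hcon
    have hz : ∀ n, ∃ z : Fin (C + 1) → ZMod (p n) × ZMod (p n), ¬ (B n).ncard ≤ C →
        Function.Injective z ∧ ∀ i, z i ∈ B n := by
      intro n
      by_cases hn : (B n).ncard ≤ C
      · exact ⟨fun _ => 0, fun h => absurd hn h⟩
      · have hfin : (B n).Finite := Set.toFinite _
        have hcard : Fintype.card (Fin (C + 1)) ≤ Fintype.card hfin.toFinset := by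
          rw [Fintype.card_fin, Fintype.card_coe, ← Set.ncard_eq_toFinset_card _ hfin]
          omega
        obtain ⟨e⟩ := Function.Embedding.nonempty_of_card_le hcard
        refine ⟨fun i => (e i).1, fun _ => ⟨?_, fun i => ?_⟩⟩
        · intro i j hij
          exact e.injective (Subtype.ext hij)
        · exact hfin.mem_toFinset.1 (e i).2
    choose z hz using hz
    have hz' : ∀ᶠ n in (UF : Filter ℕ), Function.Injective (z n) ∧ ∀ i, z n i ∈ B n := by
      filter_upwards [hcon] with n hn
      exact hz n hn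
    set ι : (∀ n, Fp p n) →+* WW p := (inc p).comp (st UF (Fp p)) with hι
    set Q := P.map (mapRingHom ι) with hQ
    have hQm : Q.Monic := hP.map _
    have hQd : Q.natDegree = N := hP.natDegree_map _
    set w : Fin (C + 1) → WW p × WW p := fun i =>
      (ι (fun n => (z n i).1), ι (fun n => (z n i).2)) with hw
    have hwinj : Function.Injective w := by
      intro i j hij
      have h1 : st UF (Fp p) (fun n => (z n i).1) = st UF (Fp p) (fun n => (z n j).1) :=
        (inc p).injective (congrArg Prod.fst hij)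
      have h2 : st UF (Fp p) (fun n => (z n i).2) = st UF (Fp p) (fun n => (z n j).2) :=
        (inc p).injective (congrArg Prod.snd hij)
      rw [st_eq_iff] at h1 h2
      obtain ⟨n, hn1, hn2, hn3⟩ := (h1.and (h2.and hz')).exists
      exact hn3.1 (Prod.ext hn1 hn2)
    have hroot : ∀ i, ∀ᶠ n in (UF : Filter ℕ),
        evalEval (z n i).1 (z n i).2 (P.map (mapRingHom (ev (Fp p) n))) = 0 := by
      intro i
      filter_upwards [hz'] with n hn
      exact (hn.2 i).1
    have hwroot : ∀ i, evalEval (w i).1 (w i).2 Q = 0 := by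
      intro i
      rw [hQ, hw]
      simp only
      rw [map_mapRingHom_evalEval]
      rw [hι, RingHom.comp_apply]
      have : st UF (Fp p) (evalEval (fun n => (z n i).1) (fun n => (z n i).2) P) = 0 := by
        rw [st_eq_zero_iff]
        filter_upwards [hroot i] with n hn
        have e := map_mapRingHom_evalEval (ev (Fp p) n) P (fun n => (z n i).1) (fun n => (z n i).2)
        rw [← hn]
        exact e.symm
      rw [this, map_zero]
    have hex : ∃ i, D.eval (w i).1 ≠ 0 := by
      by_contra hall
      push Not at hall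
      have hcnt := bdc_count Q hQm D.roots.toFinset (Finset.univ.image w) (by
        intro y hy
        rw [Finset.mem_image] at hy
        obtain ⟨i, _, rfl⟩ := hy
        refine ⟨?_, hwroot i⟩
        rw [Multiset.mem_toFinset, mem_roots hD]
        exact hall i)
      rw [Finset.card_image_of_injective _ hwinj, Finset.card_univ, Fintype.card_fin, hQd] at hcnt
      have h3 : D.roots.toFinset.card ≤ D.natDegree :=
        (Multiset.toFinset_card_le _).trans (card_roots' _)
      have h4 : N * D.roots.toFinset.card ≤ N * D.natDegree := Nat.mul_le_mul_left _ h3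
      omega
    obtain ⟨i, hi⟩ := hex
    have h5 := h (fun n => (z n i).1) (fun n => (z n i).2) (hroot i) hi
    obtain ⟨n, hn1, hn2⟩ := (h5.and hz').exists
    exact (hn2.2 i).2 hn1
  refine ⟨C, ?_⟩
  filter_upwards [key] with n hn
  have hPm : (P.map (mapRingHom (ev (Fp p) n))).Monic := hP.map _
  have hPd : (P.map (mapRingHom (ev (Fp p) n))).natDegree = N := hP.natDegree_map _
  set G : Set (ZMod (p n) × ZMod (p n)) :=
    {z | evalEval z.1 z.2 (P.map (mapRingHom (ev (Fp p) n))) = 0 ∧ z.1 ∈ R n} with hG
  have hRfin : (R n).Finite := Set.toFinite _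
  have hGfin : G.Finite := Set.toFinite _
  have hGc : G.ncard ≤ N * (R n).ncard := by
    have := bdc_count _ hPm hRfin.toFinset hGfin.toFinset (by
      intro z hz
      rw [Set.Finite.mem_toFinset] at hz
      exact ⟨hRfin.mem_toFinset.2 hz.2, hz.1⟩)
    rw [hPd] at this
    rwa [← Set.ncard_eq_toFinset_card _ hGfin, ← Set.ncard_eq_toFinset_card _ hRfin] at this
  have hun : {z : ZMod (p n) × ZMod (p n) |
      evalEval z.1 z.2 (P.map (mapRingHom (ev (Fp p) n))) = 0} ⊆ G ∪ B n := by
    intro z hz
    by_cases hzR : z.1 ∈ R n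
    · exact Or.inl ⟨hz, hzR⟩
    · exact Or.inr ⟨hz, hzR⟩
  calc _ ≤ (G ∪ B n).ncard := Set.ncard_le_ncard hun (Set.toFinite _)
    _ ≤ G.ncard + (B n).ncard := Set.ncard_union_le _ _
    _ ≤ N * (R n).ncard + C := Nat.add_le_add hGc hn

end Pool.Agent.Helper897.BS
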