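import Mathlib

/-! Davis: weights annihilating polynomials of low degree and complete intersections. -/

set_option autoImplicit false
set_option linter.all false

namespace Pool.Agent.Helper897.BS

open MvPolynomial

section elimination

open Polynomial in
theorem cil_elim_irr {L : Type} [Field L] {p q : Polynomial (Polynomial L)} (hirr : Irreducible p)
    (hq : ¬ p ∣ q) : ∃ A B : Polynomial (Polynomial L), ∃ R : Polynomial L, R ≠ 0 ∧
      A * p + B * q = Polynomial.C R := by
  classical
  by_cases hdeg : p.natDegree = 0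
  · refine ⟨1, 0, p.coeff 0, ?_, ?_⟩
    · intro h
      have := Polynomial.eq_C_of_natDegree_eq_zero hdeg
      rw [h, map_zero] at this
      exact hirr.ne_zero this
    · rw [one_mul, zero_mul, add_zero]
      exact Polynomial.eq_C_of_natDegree_eq_zero hdeg
  · have hprim : p.IsPrimitive := hirr.isPrimitive hdeg
    have hirr2 := (hprim.irreducible_iff_irreducible_map_fraction_map
      (K := FractionRing (Polynomial L))).mp hirr
    have hnd : ¬ p.map (algebraMap (Polynomial L) (FractionRing (Polynomial L)))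
        ∣ q.map (algebraMap (Polynomial L) (FractionRing (Polynomial L))) := by
      intro h
      exact hq (hprim.dvd_of_fraction_map_dvd_fraction_map h)
    have hcop := (hirr2.coprime_iff_not_dvd).mpr hnd
    obtain ⟨a, b, hab⟩ := hcop
    obtain ⟨c, c0, hc⟩ := IsLocalization.integerNormalization_spec (nonZeroDivisors (Polynomial L)) a
    obtain ⟨d, d0, hd⟩ := IsLocalization.integerNormalization_spec (nonZeroDivisors (Polynomial L)) b
    rw [mem_nonZeroDivisors_iff_ne_zero] at c0 d0
    refine ⟨Polynomial.C d * IsLocalization.integerNormalization (nonZeroDivisors (Polynomial L)) a,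
      Polynomial.C c * IsLocalization.integerNormalization (nonZeroDivisors (Polynomial L)) b, c * d,
      mul_ne_zero c0 d0, ?_⟩
    apply Polynomial.map_injective (algebraMap (Polynomial L) (FractionRing (Polynomial L)))
      (IsFractionRing.injective _ _)
    rw [Polynomial.map_add, Polynomial.map_mul, Polynomial.map_mul, Polynomial.map_mul,
      Polynomial.map_mul, hc, hd, Polynomial.map_C, Polynomial.map_C, Polynomial.map_C,
      Algebra.smul_def, Algebra.smul_def,
      Polynomial.algebraMap_apply, Polynomial.algebraMap_apply, map_mul, map_mul]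
    linear_combination (Polynomial.C (algebraMap (Polynomial L) (FractionRing (Polynomial L)) c)
      * Polynomial.C (algebraMap (Polynomial L) (FractionRing (Polynomial L)) d)) * hab

theorem cil_elim {L : Type} [Field L] (p q : Polynomial (Polynomial L)) (h : IsRelPrime p q) :
    ∃ A B : Polynomial (Polynomial L), ∃ R : Polynomial L, R ≠ 0 ∧
      A * p + B * q = Polynomial.C R := by
  revert h
  refine UniqueFactorizationMonoid.induction_on_prime p ?_ ?_ ?_
  · intro h
    have hu : IsUnit q := h (dvd_zero q) dvd_rfl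
    obtain ⟨v, hv⟩ := hu.exists_left_inv
    exact ⟨0, v, 1, one_ne_zero, by rw [zero_mul, zero_add, hv, map_one]⟩
  · intro x hx _
    obtain ⟨v, hv⟩ := hx.exists_left_inv
    exact ⟨v, 0, 1, one_ne_zero, by rw [zero_mul, add_zero, hv, map_one]⟩
  · intro a p _ hp ih h
    have h1 : IsRelPrime a q := fun d hd hd' => h (hd.mul_left p) hd'
    have h2 : ¬ p ∣ q := fun hpq => hp.not_isUnit (h (dvd_mul_right p a) hpq)
    obtain ⟨A, B, R, hR, hAB⟩ := ih h1
    obtain ⟨A', B', R', hR', hAB'⟩ := cil_elim_irr hp.irreducible h2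
    refine ⟨A * A', A' * p * B + B' * (A * a + B * q), R' * R, mul_ne_zero hR' hR, ?_⟩
    rw [map_mul, ← hAB, ← hAB']
    ring

end elimination

section maps

variable {L : Type} [Field L]

/-- coordinates `s = X 0`, `t = X 1 - μ X 0` -/
noncomputable def cilPhi (μ : L) : MvPolynomial (Fin 2) L →ₐ[L] Polynomial (Polynomial L) :=
  aeval ![Polynomial.X, Polynomial.C Polynomial.X + Polynomial.C (Polynomial.C μ) * Polynomial.X]

/-- the inverse map -/
noncomputable def cilPsi (μ : L) : Polynomial (Polynomial L) →+* MvPolynomial (Fin 2) L :=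
  Polynomial.eval₂RingHom (Polynomial.eval₂RingHom C (X 1 - C μ * X 0)) (X 0)

/-- restriction to the line `X 1 = c + μ X 0` -/
noncomputable def cilr (μ c : L) : MvPolynomial (Fin 2) L →ₐ[L] Polynomial L :=
  aeval ![Polynomial.X, Polynomial.C c + Polynomial.C μ * Polynomial.X]

theorem cilPsi_Phi (μ : L) (f : MvPolynomial (Fin 2) L) : cilPsi μ (cilPhi μ f) = f := by
  have h : (cilPsi μ).comp (cilPhi μ : MvPolynomial (Fin 2) L →+* Polynomial (Polynomial L)) =
      RingHom.id _ := by
    refine MvPolynomial.ringHom_ext ?_ ?_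
    · intro a
      simp [cilPsi, cilPhi, Polynomial.algebraMap_apply]
    · intro i
      fin_cases i
      · simp [cilPsi, cilPhi]
      · simp [cilPsi, cilPhi]
  exact congrArg (fun F : MvPolynomial (Fin 2) L →+* MvPolynomial (Fin 2) L => F f) h

theorem cilPhi_Psi (μ : L) (f : Polynomial (Polynomial L)) : cilPhi μ (cilPsi μ f) = f := by
  have h : (cilPhi μ : MvPolynomial (Fin 2) L →+* Polynomial (Polynomial L)).comp (cilPsi μ) =
      RingHom.id _ := by
    refine Polynomial.ringHom_ext' (Polynomial.ringHom_ext' ?_ ?_) ?_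
    · ext a
      simp [cilPsi, cilPhi, Polynomial.algebraMap_apply]
    · simp [cilPsi, cilPhi, Polynomial.algebraMap_apply]
    · simp [cilPsi, cilPhi]
  exact congrArg (fun F : Polynomial (Polynomial L) →+* Polynomial (Polynomial L) => F f) h

theorem cilPhi_relPrime (μ : L) {f g : MvPolynomial (Fin 2) L} (h : IsRelPrime f g) :
    IsRelPrime (cilPhi μ f) (cilPhi μ g) := by
  intro d hf hg
  have h1 : cilPsi μ d ∣ f := by
    have := map_dvd (cilPsi μ) hf
    rwa [cilPsi_Phi] at this
  have h2 : cilPsi μ d ∣ g := by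
    have := map_dvd (cilPsi μ) hg
    rwa [cilPsi_Phi] at this
  have h3 := (h h1 h2).map (cilPhi μ)
  rwa [cilPhi_Psi] at h3

theorem cilr_eq (μ c : L) (f : MvPolynomial (Fin 2) L) :
    cilr μ c f = (cilPhi μ f).map (Polynomial.evalRingHom c) := by
  have h : (cilr μ c : MvPolynomial (Fin 2) L →+* Polynomial L) =
      (Polynomial.mapRingHom (Polynomial.evalRingHom c)).comp
        (cilPhi μ : MvPolynomial (Fin 2) L →+* Polynomial (Polynomial L)) := by
    refine MvPolynomial.ringHom_ext ?_ ?_
    · intro a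
      simp [cilr, cilPhi, Polynomial.algebraMap_apply]
    · intro i
      fin_cases i
      · simp [cilr, cilPhi]
      · simp [cilr, cilPhi]
  exact congrArg (fun F : MvPolynomial (Fin 2) L →+* Polynomial L => F f) h

/-- for almost all lines the restrictions are coprime -/
theorem cil_coprime (μ : L) {f g : MvPolynomial (Fin 2) L} (h : IsRelPrime f g) :
    ∃ R : Polynomial L, R ≠ 0 ∧ ∀ c, R.eval c ≠ 0 → IsCoprime (cilr μ c f) (cilr μ c g) := by
  obtain ⟨A, B, R, hR, hAB⟩ := cil_elim _ _ (cilPhi_relPrime μ h)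
  refine ⟨R, hR, fun c hc => ?_⟩
  have h1 := congrArg (Polynomial.map (Polynomial.evalRingHom c)) hAB
  rw [Polynomial.map_add, Polynomial.map_mul, Polynomial.map_mul, ← cilr_eq, ← cilr_eq,
    Polynomial.map_C, Polynomial.coe_evalRingHom] at h1
  refine ⟨Polynomial.C (R.eval c)⁻¹ * A.map (Polynomial.evalRingHom c),
    Polynomial.C (R.eval c)⁻¹ * B.map (Polynomial.evalRingHom c), ?_⟩
  rw [mul_assoc, mul_assoc, ← mul_add, h1, ← map_mul, inv_mul_cancel₀ hc, map_one]

theorem cilr_natDegree_le (μ c : L) (h : MvPolynomial (Fin 2) L) :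
    (cilr μ c h).natDegree ≤ h.totalDegree := by
  have := MvPolynomial.aeval_natDegree_le (m := h.totalDegree) (n := 1) h le_rfl
    ![Polynomial.X, Polynomial.C c + Polynomial.C μ * Polynomial.X] (by
      intro i
      fin_cases i
      · simp
      · show (Polynomial.C c + Polynomial.C μ * Polynomial.X).natDegree ≤ 1
        compute_degree)
  rwa [mul_one] at this

/-- the equation of the line -/
noncomputable def cill (μ c : L) : MvPolynomial (Fin 2) L := X 1 - C μ * X 0 - C c

theorem cilr_cill (μ c : L) : cilr μ c (cill μ c) = 0 := by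
  simp [cilr, cill, Polynomial.algebraMap_eq]
  try ring

theorem cilr_X0 (μ c : L) (u : Polynomial L) :
    cilr μ c (Polynomial.aeval (X 0 : MvPolynomial (Fin 2) L) u) = u := by
  rw [← Polynomial.aeval_algHom_apply]
  simp [cilr]

theorem cill_ne (μ c : L) : cill μ c ≠ 0 := by
  intro h
  have h1 := congrArg (fun p => eval ![0, c + 1] p) h
  simp [cill] at h1

theorem cill_deg (μ c : L) : 1 ≤ (cill μ c).totalDegree := by
  by_contra h
  have h0 : (cill μ c).totalDegree = 0 := by omega
  rw [totalDegree_eq_zero_iff_eq_C] at h0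
  have h1 := congrArg (fun p => eval ![0, c + 1] p) h0
  have h2 := congrArg (fun p => eval ![0, c] p) h0
  simp only [eval_C] at h1 h2
  rw [← h2] at h1
  simp [cill] at h1

/-- division by the equation of the line -/
theorem cil_div (μ c : L) (h : MvPolynomial (Fin 2) L) :
    ∃ (h' : MvPolynomial (Fin 2) L) (u : Polynomial L),
      h = cill μ c * h' + Polynomial.aeval (X 0 : MvPolynomial (Fin 2) L) u := by
  induction h using MvPolynomial.induction_on with
  | C a => exact ⟨0, Polynomial.C a, by simp [MvPolynomial.algebraMap_eq]⟩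
  | add p q hp hq =>
    obtain ⟨p', u, hp⟩ := hp
    obtain ⟨q', v, hq⟩ := hq
    refine ⟨p' + q', u + v, ?_⟩
    rw [map_add]
    conv_lhs => rw [hp, hq]
    ring
  | mul_X p i hp =>
    obtain ⟨p', u, hp⟩ := hp
    fin_cases i
    · refine ⟨p' * X 0, u * Polynomial.X, ?_⟩
      rw [map_mul, Polynomial.aeval_X]
      conv_lhs => rw [hp]
      show (cill μ c * p' + _) * X 0 = _
      ring
    · refine ⟨p' * X 1 + Polynomial.aeval (X 0 : MvPolynomial (Fin 2) L) u,
        u * (Polynomial.C μ * Polynomial.X + Polynomial.C c), ?_⟩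
      rw [map_mul, map_add, map_mul, Polynomial.aeval_X, Polynomial.aeval_C, Polynomial.aeval_C,
        MvPolynomial.algebraMap_eq]
      conv_lhs => rw [hp]
      show (cill μ c * p' + _) * X 1 = _
      unfold cill
      ring

/-- a polynomial that vanishes on the line is divisible by its equation -/
theorem cil_dvd (μ c : L) {h : MvPolynomial (Fin 2) L} (h0 : cilr μ c h = 0) {i : ℕ}
    (hi : h.totalDegree ≤ i + 1) :
    ∃ h' : MvPolynomial (Fin 2) L, h = cill μ c * h' ∧ h'.totalDegree ≤ i := by
  obtain ⟨h', u, hu⟩ := cil_div μ c h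
  have hu0 : u = 0 := by
    have h1 := congrArg (cilr μ c) hu
    rw [h0, map_add, map_mul, cilr_cill, zero_mul, zero_add, cilr_X0] at h1
    exact h1.symm
  rw [hu0, map_zero, add_zero] at hu
  refine ⟨h', hu, ?_⟩
  by_cases hh : h' = 0
  · rw [hh]; simp
  · have h1 := totalDegree_mul_of_isDomain (cill_ne μ c) hh
    rw [← hu] at h1
    have := cill_deg μ c
    omega

/-- the polynomial of the top form -/
noncomputable def cilq (g : MvPolynomial (Fin 2) L) (b : ℕ) : Polynomial L :=
  ∑ m ∈ g.support with m 0 + m 1 = b, Polynomial.C (coeff m g) * Polynomial.X ^ (m 1)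

theorem cilq_ne {g : MvPolynomial (Fin 2) L} (hg : g ≠ 0) : cilq g g.totalDegree ≠ 0 := by
  classical
  obtain ⟨m, hm, hmd⟩ := Finset.exists_mem_eq_sup g.support (support_nonempty.2 hg)
    (fun s => s.sum fun _ e => e)
  have hmd' : m 0 + m 1 = g.totalDegree := by
    have h1 : g.totalDegree = m.sum fun _ e => e := hmd
    rw [h1, Finsupp.sum_fintype _ _ (fun _ => rfl), Fin.sum_univ_two]
  intro h
  have h1 := congrArg (fun p => Polynomial.coeff p (m 1)) h
  simp only [cilq, Polynomial.finsetSum_coeff, Polynomial.coeff_C_mul, Polynomial.coeff_X_pow,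
    Polynomial.coeff_zero, mul_ite, mul_one, mul_zero] at h1
  rw [Finset.sum_eq_single m] at h1
  · rw [if_pos rfl] at h1
    exact (mem_support_iff.1 hm) h1
  · intro m' hm' hne
    rw [Finset.mem_filter] at hm'
    rw [if_neg]
    intro he
    apply hne
    ext i
    fin_cases i
    · show m' 0 = m 0
      omega
    · show m' 1 = m 1
      exact he.symm
  · intro hnot
    exact absurd (Finset.mem_filter.2 ⟨hm, hmd'⟩) hnot

theorem cilr_coeff (μ c : L) (g : MvPolynomial (Fin 2) L) :
    (cilr μ c g).coeff g.totalDegree = (cilq g g.totalDegree).eval μ := by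
  classical
  have h0 : ∀ p q : ℕ, (Polynomial.X ^ p * (Polynomial.C c + Polynomial.C μ * Polynomial.X) ^ q :
      Polynomial L).coeff (p + q) = μ ^ q := by
    intro p q
    rw [add_comm p q, Polynomial.coeff_X_pow_mul]
    have h1 : (Polynomial.C c + Polynomial.C μ * Polynomial.X : Polynomial L).natDegree ≤ 1 := by
      compute_degree
    have h2 := Polynomial.coeff_pow_of_natDegree_le (m := q) h1
    rw [mul_one] at h2
    rw [h2]
    simp
  have h0' : ∀ p q b : ℕ, p + q < b → (Polynomial.X ^ p *
      (Polynomial.C c + Polynomial.C μ * Polynomial.X) ^ q : Polynomial L).coeff b = 0 := by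
    intro p q b hb
    apply Polynomial.coeff_eq_zero_of_natDegree_lt
    refine lt_of_le_of_lt ?_ hb
    have h1 : (Polynomial.C c + Polynomial.C μ * Polynomial.X : Polynomial L).natDegree ≤ 1 := by
      compute_degree
    refine Polynomial.natDegree_mul_le.trans ?_
    have h2 : (Polynomial.X ^ p : Polynomial L).natDegree ≤ p := Polynomial.natDegree_X_pow_le p
    have h3 := Polynomial.natDegree_pow_le_of_le q h1
    omega
  have h2 : cilr μ c g = ∑ m ∈ g.support, Polynomial.C (coeff m g) *
      (Polynomial.X ^ (m 0) * (Polynomial.C c + Polynomial.C μ * Polynomial.X) ^ (m 1)) := by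
    unfold cilr
    rw [aeval_def, eval₂_eq']
    refine Finset.sum_congr rfl fun m _ => ?_
    rw [Fin.prod_univ_two]
    rfl
  rw [h2, Polynomial.finsetSum_coeff, cilq, Polynomial.eval_finsetSum, Finset.sum_filter]
  refine Finset.sum_congr rfl fun m hm => ?_
  rw [Polynomial.coeff_C_mul]
  have hle : m 0 + m 1 ≤ g.totalDegree := by
    have := le_totalDegree hm
    rwa [Finsupp.sum_fintype _ _ (fun _ => rfl), Fin.sum_univ_two] at this
  split_ifs with h
  · rw [← h, h0, Polynomial.eval_mul, Polynomial.eval_C, Polynomial.eval_pow, Polynomial.eval_X]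
  · rw [h0' _ _ _ (by omega), mul_zero]

/-- for a good slope the degree of the restriction is the total degree -/
theorem cil_slope [Infinite L] {g : MvPolynomial (Fin 2) L} (hg : g ≠ 0) :
    ∃ μ : L, ∀ c, (cilr μ c g).natDegree = g.totalDegree := by
  obtain ⟨μ, hμ⟩ : ∃ μ, (cilq g g.totalDegree).eval μ ≠ 0 := by
    by_contra h
    push Not at h
    exact cilq_ne hg (Polynomial.funext fun x => by rw [h x, Polynomial.eval_zero])
  refine ⟨μ, fun c => le_antisymm (cilr_natDegree_le μ c g) ?_⟩
  apply Polynomial.le_natDegree_of_ne_zero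
  rw [cilr_coeff]
  exact hμ

/-- the step -/
theorem cil_step (μ c : L) {f g : MvPolynomial (Fin 2) L} (hb : 1 ≤ g.totalDegree)
    (hgd : (cilr μ c g).natDegree = g.totalDegree) (hcop : IsCoprime (cilr μ c f) (cilr μ c g))
    {i : ℕ} (hi : f.totalDegree + g.totalDegree ≤ i + 2) (h : MvPolynomial (Fin 2) L)
    (hh : h.totalDegree ≤ i + 1) :
    ∃ (A B h' : MvPolynomial (Fin 2) L), h = A * f + B * g + cill μ c * h' ∧
      h'.totalDegree ≤ i := by
  classical
  obtain ⟨A₀, B₀, hAB⟩ := hcop
  set F := cilr μ c f with hF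
  set G := cilr μ c g with hG
  set A := (A₀ * cilr μ c h) % G with hA
  set B := B₀ * cilr μ c h + (A₀ * cilr μ c h) / G * F with hB
  have hsum : A * F + B * G = cilr μ c h := by
    have h1 := EuclideanDomain.div_add_mod (A₀ * cilr μ c h) G
    have h2 : A * F + B * G = (G * ((A₀ * cilr μ c h) / G) + A) * F + B₀ * cilr μ c h * G := by
      rw [hB]; ring
    rw [h2, hA, h1]
    calc A₀ * cilr μ c h * F + B₀ * cilr μ c h * G = (A₀ * F + B₀ * G) * cilr μ c h := by ring
      _ = _ := by rw [hAB, one_mul]
  have hAd : A.natDegree + 1 ≤ g.totalDegree := by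
    have : A.natDegree < G.natDegree :=
      Polynomial.natDegree_mod_lt (A₀ * cilr μ c h) (q := G) (by omega)
    omega
  have hFd : F.natDegree ≤ f.totalDegree := cilr_natDegree_le μ c f
  have hhd : (cilr μ c h).natDegree ≤ i + 1 := (cilr_natDegree_le μ c h).trans hh
  have hBd : B = 0 ∨ B.natDegree + g.totalDegree ≤ i + 1 := by
    by_cases hB0 : B = 0
    · exact Or.inl hB0
    · right
      have hG0 : G ≠ 0 := by
        intro h0
        rw [h0, Polynomial.natDegree_zero] at hgd
        omega
      rw [← hgd, ← Polynomial.natDegree_mul hB0 hG0]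
      have h1 : B * G = cilr μ c h - A * F := by rw [← hsum]; ring
      rw [h1]
      refine (Polynomial.natDegree_sub_le _ _).trans (max_le hhd ?_)
      have := Polynomial.natDegree_mul_le (p := A) (q := F)
      omega
  have hdeg : ∀ u : Polynomial L,
      (Polynomial.aeval (X 0 : MvPolynomial (Fin 2) L) u).totalDegree ≤ u.natDegree := by
    intro u
    rw [Polynomial.aeval_eq_sum_range]
    refine (totalDegree_finsetSum _ _).trans (Finset.sup_le fun j hj => ?_)
    rw [Finset.mem_range] at hj
    refine (totalDegree_smul_le _ _).trans ?_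
    rw [totalDegree_X_pow]
    omega
  set A' := Polynomial.aeval (X 0 : MvPolynomial (Fin 2) L) A with hA'
  set B' := Polynomial.aeval (X 0 : MvPolynomial (Fin 2) L) B with hB'
  have hzero : cilr μ c (h - (A' * f + B' * g)) = 0 := by
    rw [map_sub, map_add, map_mul, map_mul, hA', hB', cilr_X0, cilr_X0, ← hF, ← hG, hsum, sub_self]
  have hle : (h - (A' * f + B' * g)).totalDegree ≤ i + 1 := by
    refine (totalDegree_sub _ _).trans (max_le hh ?_)
    refine (totalDegree_add _ _).trans (max_le ?_ ?_)
    · have h1 := totalDegree_mul A' f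
      have h2 := hdeg A
      rw [← hA'] at h2
      omega
    · rcases hBd with h0 | h0
      · rw [hB', h0, map_zero, zero_mul, totalDegree_zero]; omega
      · have h1 := totalDegree_mul B' g
        have h2 := hdeg B
        rw [← hB'] at h2
        omega
  obtain ⟨h', e, he⟩ := cil_dvd μ c hzero hle
  refine ⟨A', B', h', ?_, he⟩
  rw [← e]; ring

end maps

/-- main result of the file -/
theorem ci_lemma {L : Type} [Field L] [IsAlgClosed L] (Γ : Finset (L × L)) (hΓ : Γ.Nonempty)
    (w : L × L → L) (hw : ∀ P ∈ Γ, w P ≠ 0) (r : ℕ)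
    (hr : ∀ g : MvPolynomial (Fin 2) L, g.totalDegree ≤ r →
      ∑ P ∈ Γ, w P * eval ![P.1, P.2] g = 0)
    (f g : MvPolynomial (Fin 2) L) (hf0 : ∀ P ∈ Γ, eval ![P.1, P.2] f = 0)
    (hg0 : ∀ P ∈ Γ, eval ![P.1, P.2] g = 0) (hcop : IsRelPrime f g) :
    r + 3 ≤ f.totalDegree + g.totalDegree := by
  classical
  have hinf : Infinite L := IsAlgClosed.instInfinite
  by_contra hcon
  have hab : f.totalDegree + g.totalDegree ≤ r + 2 := by omega
  obtain ⟨P₀, hP₀⟩ := hΓ
  have hg : g ≠ 0 := by
    rintro rfl
    have hu : IsUnit f := hcop dvd_rfl (dvd_zero f)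
    have := hu.map (eval ![P₀.1, P₀.2])
    rw [hf0 P₀ hP₀] at this
    exact not_isUnit_zero this
  have hb : 1 ≤ g.totalDegree := by
    by_contra h
    have h0 : g.totalDegree = 0 := by omega
    rw [totalDegree_eq_zero_iff_eq_C] at h0
    have h1 := hg0 P₀ hP₀
    rw [h0, eval_C] at h1
    rw [h1, map_zero] at h0
    exact hg h0
  obtain ⟨μ, hμ⟩ := cil_slope hg
  obtain ⟨R, hR, hRc⟩ := cil_coprime μ hcop
  -- the choice of the line
  obtain ⟨c, hc1, hc2⟩ : ∃ c : L, R.eval c ≠ 0 ∧ ∀ P ∈ Γ, P.2 - μ * P.1 - c ≠ 0 := by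
    by_contra h
    push Not at h
    have hsub : (Set.univ : Set L) ⊆ (R.roots.toFinset ∪ Γ.image fun P => P.2 - μ * P.1 :
        Finset L) := by
      intro c _
      rw [Finset.mem_coe, Finset.mem_union, Multiset.mem_toFinset, Polynomial.mem_roots hR,
        Finset.mem_image]
      by_cases hc : R.eval c = 0
      · exact Or.inl hc
      · obtain ⟨P, hP, hP'⟩ := h c hc
        exact Or.inr ⟨P, hP, by linear_combination hP'⟩
    exact Set.infinite_univ ((Finset.finite_toSet _).subset hsub)
  have hev : ∀ P : L × L, eval ![P.1, P.2] (cill μ c) = P.2 - μ * P.1 - c := by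
    intro P
    simp [cill]
  -- the claim
  have claim : ∀ n : ℕ, ∀ h : MvPolynomial (Fin 2) L, h.totalDegree ≤ r + n →
      ∑ P ∈ Γ, w P * ((P.2 - μ * P.1 - c)⁻¹ ^ n * eval ![P.1, P.2] h) = 0 := by
    intro n
    induction n with
    | zero =>
      intro h hh
      simpa using hr h hh
    | succ n ih =>
      intro h hh
      obtain ⟨A, B, h', e, he⟩ := cil_step μ c hb (hμ c) (hRc c hc1) (i := r + n) (by omega) h
        (by omega)
      rw [← ih h' he]
      refine Finset.sum_congr rfl fun P hP => ?_
      have h1 := hc2 P hP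
      rw [e, map_add, map_add, map_mul, map_mul, map_mul, hf0 P hP, hg0 P hP, hev, pow_succ]
      field_simp
      ring
  -- separation
  let sep : L × L → MvPolynomial (Fin 2) L := fun P =>
    if P.1 = P₀.1 then X 1 - C P.2 else X 0 - C P.1
  have hsepP : ∀ P : L × L, eval ![P.1, P.2] (sep P) = 0 := by
    intro P
    by_cases h : P.1 = P₀.1
    · simp [sep, h]
    · simp [sep, h]
  have hsepP₀ : ∀ P : L × L, P ≠ P₀ → eval ![P₀.1, P₀.2] (sep P) ≠ 0 := by
    intro P hP
    by_cases h : P.1 = P₀.1
    · simp only [sep, if_pos h]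
      simp only [map_sub, eval_X, eval_C, Matrix.cons_val_one, Matrix.cons_val_zero]
      intro h0
      exact hP (Prod.ext h (sub_eq_zero.1 h0).symm)
    · simp only [sep, if_neg h]
      simp only [map_sub, eval_X, eval_C, Matrix.cons_val_zero]
      intro h0
      exact h (sub_eq_zero.1 h0).symm
  set H : MvPolynomial (Fin 2) L := ∏ P ∈ Γ.erase P₀, sep P with hH
  have h1 := claim H.totalDegree H (by omega)
  rw [Finset.sum_eq_single P₀] at h1
  · have h2 : eval ![P₀.1, P₀.2] H ≠ 0 := by
      rw [hH, map_prod]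
      exact Finset.prod_ne_zero_iff.2 fun P hP => hsepP₀ P (Finset.ne_of_mem_erase hP)
    have h3 : (P₀.2 - μ * P₀.1 - c)⁻¹ ^ H.totalDegree ≠ 0 :=
      pow_ne_zero _ (inv_ne_zero (hc2 P₀ hP₀))
    exact mul_ne_zero (hw P₀ hP₀) (mul_ne_zero h3 h2) h1
  · intro P hP hne
    have h2 : eval ![P.1, P.2] H = 0 := by
      rw [hH, map_prod]
      exact Finset.prod_eq_zero (Finset.mem_erase.2 ⟨hne, hP⟩) (hsepP P)
    rw [h2, mul_zero, mul_zero]
  · intro h
    exact absurd hP₀ h

end Pool.Agent.Helper897.BS
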