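import Mathlib
import Pool.Agent.Helper897_BS.CIL

/-! The minimal curve through the support of a weighting with vanishing moments. -/

set_option autoImplicit false
set_option linter.all false

namespace Pool.Agent.Helper897.BS

open MvPolynomial

namespace CIMAux

/-- a nonzero polynomial with prescribed monomials vanishing on few points -/
theorem exists_poly {L : Type} [Field L] (Γ : Finset (L × L)) (I : Finset (Fin 2 →₀ ℕ))
    (h : Γ.card < I.card) : ∃ p : MvPolynomial (Fin 2) L, p ≠ 0 ∧ p.support ⊆ I ∧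
      ∀ P ∈ Γ, eval ![P.1, P.2] p = 0 := by
  classical
  let A : (I → L) →ₗ[L] MvPolynomial (Fin 2) L :=
    ∑ i : I, (monomial (R := L) i.1) ∘ₗ (LinearMap.proj i)
  let B : MvPolynomial (Fin 2) L →ₗ[L] (Γ → L) :=
    LinearMap.pi fun P => (aeval (R := L) ![P.1.1, P.1.2]).toLinearMap
  have hA : ∀ c, A c = ∑ i : I, monomial i.1 (c i) := by
    intro c
    simp [A, LinearMap.sum_apply]
  have hlt : Module.finrank L (Γ → L) < Module.finrank L (I → L) := by
    simpa using h
  have hker := LinearMap.ker_ne_bot_of_finrank_lt (f := B ∘ₗ A) hlt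
  obtain ⟨c, hc, hc0⟩ := (Submodule.ne_bot_iff _).1 hker
  rw [LinearMap.mem_ker, LinearMap.comp_apply] at hc
  have hcoeff : ∀ i : I, coeff i.1 (A c) = c i := by
    intro i
    rw [hA, coeff_sum, Finset.sum_eq_single i]
    · simp
    · intro j _ hj
      rw [coeff_monomial, if_neg]
      exact fun e => hj (Subtype.ext e)
    · intro hi; exact absurd (Finset.mem_univ i) hi
  refine ⟨A c, ?_, ?_, ?_⟩
  · intro h0
    apply hc0
    funext i
    rw [← hcoeff i, h0]
    simp
  · intro m hm
    rw [hA] at hm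
    obtain ⟨i, _, hi⟩ := Finset.mem_biUnion.1 (MvPolynomial.support_sum hm)
    have := support_monomial_subset hi
    rw [Finset.mem_singleton] at this
    rw [this]
    exact i.2
  · intro P hP
    have := congrFun hc ⟨P, hP⟩
    simpa [B, aeval_eq_eval] using this

theorem totalDegree_le_of_support {L : Type} [Field L] (p : MvPolynomial (Fin 2) L) (n : ℕ)
    (h : ∀ m ∈ p.support, m 0 + m 1 ≤ n) : p.totalDegree ≤ n := by
  unfold totalDegree
  refine Finset.sup_le fun m hm => ?_
  rw [Finsupp.sum_fintype _ _ (fun _ => rfl), Fin.sum_univ_two]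
  exact h m hm

theorem totalDegree_le_add {L : Type} [Field L] (p : MvPolynomial (Fin 2) L) :
    p.totalDegree ≤ p.degreeOf 0 + p.degreeOf 1 :=
  totalDegree_le_of_support p _ fun _ hm =>
    Nat.add_le_add (monomial_le_degreeOf 0 hm) (monomial_le_degreeOf 1 hm)

/-- exponents: `a` in the variable `1 - j`, `b` in the variable `j` -/
noncomputable def ex (j : Fin 2) (t : ℕ × ℕ) : Fin 2 →₀ ℕ :=
  Finsupp.single (1 - j) t.1 + Finsupp.single j t.2

theorem ex_j (j : Fin 2) (t : ℕ × ℕ) : ex j t j = t.2 := by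
  fin_cases j <;> simp [ex]

theorem ex_j' (j : Fin 2) (t : ℕ × ℕ) : ex j t (1 - j) = t.1 := by
  fin_cases j <;> simp [ex]

theorem ex_add (j : Fin 2) (t : ℕ × ℕ) : ex j t 0 + ex j t 1 = t.1 + t.2 := by
  fin_cases j <;> simp [ex, add_comm]

theorem ex_inj (j : Fin 2) : Function.Injective (ex j) := by
  intro s t h
  refine Prod.ext ?_ ?_
  · rw [← ex_j' j s, h, ex_j']
  · rw [← ex_j j s, h, ex_j]

end CIMAux

open CIMAux


/-- main result 1 -/
theorem min_divides {L : Type} [Field L] [IsAlgClosed L] (Γ : Finset (L × L)) (hΓ : Γ.Nonempty)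
    (w : L × L → L) (hw : ∀ P ∈ Γ, w P ≠ 0) (r : ℕ)
    (hr : ∀ g : MvPolynomial (Fin 2) L, g.totalDegree ≤ r →
      ∑ P ∈ Γ, w P * eval ![P.1, P.2] g = 0)
    (f g : MvPolynomial (Fin 2) L) (hf : f ≠ 0) (hf0 : ∀ P ∈ Γ, eval ![P.1, P.2] f = 0)
    (hmin : ∀ g : MvPolynomial (Fin 2) L, g ≠ 0 → (∀ P ∈ Γ, eval ![P.1, P.2] g = 0) →
      f.totalDegree ≤ g.totalDegree)
    (hg0 : ∀ P ∈ Γ, eval ![P.1, P.2] g = 0) (hdeg : g.totalDegree + f.totalDegree ≤ r + 2) :
    f ∣ g := by
  rcases eq_or_ne g 0 with rfl | hg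
  · exact dvd_zero f
  obtain ⟨f2, g2, c, hrel, hcf, hcg⟩ :=
    UniqueFactorizationMonoid.exists_reduced_factors f hf g
  have hc : c ≠ 0 := by rintro rfl; exact hf (by rw [← hcf, zero_mul])
  have hf2 : f2 ≠ 0 := by rintro rfl; exact hf (by rw [← hcf, mul_zero])
  have hg2 : g2 ≠ 0 := by rintro rfl; exact hg (by rw [← hcg, mul_zero])
  have d1 : f.totalDegree = c.totalDegree + f2.totalDegree := by
    rw [← hcf, totalDegree_mul_of_isDomain hc hf2]
  have d2 : g.totalDegree = c.totalDegree + g2.totalDegree := by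
    rw [← hcg, totalDegree_mul_of_isDomain hc hg2]
  by_cases hu : IsUnit f2
  · rw [← hcf, ← hcg]
    exact mul_dvd_mul_left c (hu.dvd)
  exfalso
  have d3 : 1 ≤ f2.totalDegree := by
    by_contra hlt
    have h0 : f2.totalDegree = 0 := by omega
    rw [totalDegree_eq_zero_iff_eq_C] at h0
    apply hu
    rw [h0]
    refine (IsUnit.mk0 _ ?_).map C
    intro h1
    rw [h1] at h0
    exact hf2 (by rw [h0, map_zero])
  have d4 := hmin g hg hg0
  classical
  have hne : ∃ P ∈ Γ, eval ![P.1, P.2] c ≠ 0 := by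
    by_contra hcon
    push Not at hcon
    have := hmin c hc hcon
    omega
  obtain ⟨P0, hP0, hcP0⟩ := hne
  have hmul : ∀ (a b : MvPolynomial (Fin 2) L) (P : L × L), eval ![P.1, P.2] (a * b) =
      eval ![P.1, P.2] a * eval ![P.1, P.2] b := fun a b P => map_mul _ _ _
  have key := ci_lemma (Γ.filter fun P => eval ![P.1, P.2] c ≠ 0)
    ⟨P0, Finset.mem_filter.2 ⟨hP0, hcP0⟩⟩ (fun P => w P * eval ![P.1, P.2] c)
    (fun P hP => mul_ne_zero (hw P (Finset.mem_filter.1 hP).1) (Finset.mem_filter.1 hP).2)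
    (r - c.totalDegree) ?_ f2 g2 ?_ ?_ hrel
  · omega
  · intro k hk
    refine Eq.trans ?_ (hr (c * k) ((totalDegree_mul c k).trans (by omega)))
    rw [Finset.sum_filter]
    refine Finset.sum_congr rfl fun P _ => ?_
    split_ifs with h
    · rw [hmul, mul_assoc]
    · push Not at h
      rw [hmul, h, zero_mul, mul_zero]
  · intro P hP
    rw [Finset.mem_filter] at hP
    have := hf0 P hP.1
    rw [← hcf, hmul] at this
    exact (mul_eq_zero.1 this).resolve_left hP.2
  · intro P hP
    rw [Finset.mem_filter] at hP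
    have := hg0 P hP.1
    rw [← hcg, hmul] at this
    exact (mul_eq_zero.1 this).resolve_left hP.2

/-- main result 2 -/
theorem exists_low_curve {L : Type} [Field L] [IsAlgClosed L] (Γ : Finset (L × L))
    (hΓ : Γ.Nonempty) (w : L × L → L) (hw : ∀ P ∈ Γ, w P ≠ 0) (r : ℕ)
    (hr : ∀ g : MvPolynomial (Fin 2) L, g.totalDegree ≤ r →
      ∑ P ∈ Γ, w P * eval ![P.1, P.2] g = 0) :
    ∃ f : MvPolynomial (Fin 2) L, f ≠ 0 ∧ (∀ P ∈ Γ, eval ![P.1, P.2] f = 0) ∧
      f.totalDegree * (f.totalDegree + 1) ≤ 2 * Γ.card ∧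
      f.totalDegree * (r + 3 - 2 * f.totalDegree) ≤ 2 * Γ.card := by
  classical
  -- a nonzero polynomial of minimal degree
  have hex : ∃ n, ∃ f : MvPolynomial (Fin 2) L, f ≠ 0 ∧ (∀ P ∈ Γ, eval ![P.1, P.2] f = 0) ∧
      f.totalDegree = n := by
    refine ⟨_, ∏ P ∈ Γ, (X 0 - C P.1), ?_, ?_, rfl⟩
    · rw [Finset.prod_ne_zero_iff]
      intro P _ h
      have h1 : (X 0 : MvPolynomial (Fin 2) L) = C P.1 := sub_eq_zero.1 h
      have h2 := congrArg totalDegree h1
      rw [totalDegree_X, totalDegree_C] at h2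
      exact one_ne_zero h2
    · intro P hP
      rw [map_prod]
      refine Finset.prod_eq_zero hP ?_
      simp
  obtain ⟨f, hf, hf0, hfd⟩ := Nat.find_spec hex
  have hmin : ∀ g : MvPolynomial (Fin 2) L, g ≠ 0 → (∀ P ∈ Γ, eval ![P.1, P.2] g = 0) →
      f.totalDegree ≤ g.totalDegree := by
    intro g hg hg0
    rw [hfd]
    exact Nat.find_min' hex ⟨g, hg, hg0, rfl⟩
  refine ⟨f, hf, hf0, ?_, ?_⟩
  · -- first inequality
    by_contra hcon
    push Not at hcon
    set α := f.totalDegree with hα
    set I : Finset (Fin 2 →₀ ℕ) := ((Finset.range α).sigma fun s => Finset.HasAntidiagonal.antidiagonal s).image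
      (fun t => ex 0 t.2) with hI
    have hIcard : I.card = ∑ s ∈ Finset.range α, (s + 1) := by
      rw [hI, Finset.card_image_of_injOn, Finset.card_sigma]
      · simp
      · intro s hs t ht hst
        have h1 := ex_inj 0 hst
        simp only [Finset.coe_sigma, Set.mem_sigma_iff, Finset.mem_coe,
          Finset.HasAntidiagonal.mem_antidiagonal] at hs ht
        obtain ⟨s1, s2⟩ := s
        obtain ⟨t1, t2⟩ := t
        simp only at h1 hs ht
        subst h1
        have : s1 = t1 := by rw [← hs.2, ht.2]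
        subst this
        rfl
    have hsum : 2 * ∑ s ∈ Finset.range α, (s + 1) = α * (α + 1) := by
      clear_value α
      clear * -
      induction α with
      | zero => simp
      | succ n ih => rw [Finset.sum_range_succ, mul_add, ih]; ring
    obtain ⟨p, hp, hpI, hp0⟩ := exists_poly Γ I (by omega)
    have h1 := hmin p hp hp0
    have hpos : 0 < α := by
      rcases Nat.eq_zero_or_pos α with h | h
      · rw [h] at hcon; omega
      · exact h
    have h2 : p.totalDegree ≤ α - 1 := by
      refine totalDegree_le_of_support p _ fun m hm => ?_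
      obtain ⟨t, ht, rfl⟩ := Finset.mem_image.1 (hpI hm)
      rw [Finset.mem_sigma, Finset.mem_range, Finset.HasAntidiagonal.mem_antidiagonal] at ht
      rw [ex_add]
      omega
    omega
  · -- second inequality
    rcases le_or_gt (r + 3) (2 * f.totalDegree) with h | h
    · rw [Nat.sub_eq_zero_of_le h, mul_zero]; exact Nat.zero_le _
    have hj : ∃ j : Fin 2, f.totalDegree ≤ 2 * f.degreeOf j := by
      have := totalDegree_le_add f
      rcases le_total (f.degreeOf 0) (f.degreeOf 1) with h | h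
      · exact ⟨1, by omega⟩
      · exact ⟨0, by omega⟩
    obtain ⟨j, hj⟩ := hj
    have hv := degreeOf_le_totalDegree f j
    set α := f.totalDegree with hα
    set v := f.degreeOf j with hvd
    obtain ⟨i, hi⟩ : ∃ i, i + α = r + 2 := ⟨r + 2 - α, by omega⟩
    have hiα : α ≤ i := by omega
    have key : v * (i - v + 1) ≤ Γ.card := by
      by_contra hcon
      push Not at hcon
      have hvpos : 0 < v := by
        rcases Nat.eq_zero_or_pos v with h | h
        · rw [h] at hcon; omega
        · exact h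
      set I : Finset (Fin 2 →₀ ℕ) := (Finset.range (i - v + 1) ×ˢ Finset.range v).image (ex j)
        with hI
      have hIcard : I.card = v * (i - v + 1) := by
        rw [hI, Finset.card_image_of_injective _ (ex_inj j), Finset.card_product]
        simp [mul_comm]
      obtain ⟨p, hp, hpI, hp0⟩ := exists_poly Γ I (by omega)
      have h1 : p.totalDegree ≤ i := by
        refine totalDegree_le_of_support p _ fun m hm => ?_
        obtain ⟨t, ht, rfl⟩ := Finset.mem_image.1 (hpI hm)
        rw [Finset.mem_product, Finset.mem_range, Finset.mem_range] at ht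
        rw [ex_add]
        omega
      have h2 : p.degreeOf j < v := by
        rw [degreeOf_lt_iff hvpos]
        intro m hm
        obtain ⟨t, ht, rfl⟩ := Finset.mem_image.1 (hpI hm)
        rw [Finset.mem_product, Finset.mem_range, Finset.mem_range] at ht
        rw [ex_j]
        exact ht.2
      obtain ⟨q, hq⟩ := min_divides Γ hΓ w hw r hr f p hf hf0 hmin hp0 (by omega)
      have hq0 : q ≠ 0 := by rintro rfl; exact hp (by rw [hq, mul_zero])
      rw [hq, degreeOf_mul_eq hf hq0] at h2
      omega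
    have e1 : r + 3 - 2 * α = i - α + 1 := by omega
    rw [e1]
    calc α * (i - α + 1) ≤ (2 * v) * (i - v + 1) := Nat.mul_le_mul hj (by omega)
      _ = 2 * (v * (i - v + 1)) := by ring
      _ ≤ 2 * Γ.card := by omega


end Pool.Agent.Helper897.BS
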