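import Pool.Agent.Helper897_BS.UDefs

/-! Facts on the ultraproducts. -/

set_option autoImplicit false
set_option linter.all false

namespace Pool.Agent.Helper897.BS

theorem ult_fixed {q : ℕ} [hq : Fact q.Prime] {c : AlgebraicClosure (ZMod q)} (hc : c ^ q = c) :
    ∃ a : ZMod q, algebraMap (ZMod q) (AlgebraicClosure (ZMod q)) a = c := by
  classical
  by_contra hcon
  push Not at hcon
  set f := algebraMap (ZMod q) (AlgebraicClosure (ZMod q)) with hf
  have hinj : Function.Injective f := f.injective
  have h1 : 1 < q := hq.out.one_lt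
  set P : Polynomial (AlgebraicClosure (ZMod q)) := Polynomial.X ^ q - Polynomial.X with hP
  have hP0 : P ≠ 0 := FiniteField.X_pow_card_sub_X_ne_zero _ h1
  set Z : Finset (AlgebraicClosure (ZMod q)) := insert c ((Finset.univ : Finset (ZMod q)).image f)
    with hZ
  have hsub : Z.val ⊆ P.roots := by
    intro z hz
    rw [Finset.mem_val, hZ, Finset.mem_insert, Finset.mem_image] at hz
    rw [Polynomial.mem_roots hP0, Polynomial.IsRoot.def, hP, Polynomial.eval_sub,
      Polynomial.eval_pow, Polynomial.eval_X, sub_eq_zero]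
    rcases hz with rfl | ⟨a, -, rfl⟩
    · exact hc
    · rw [← map_pow, ZMod.pow_card]
  have h2 := Polynomial.card_le_degree_of_subset_roots hsub
  have h3 : Z.card = q + 1 := by
    rw [hZ, Finset.card_insert_of_notMem, Finset.card_image_of_injective _ hinj,
      Finset.card_univ, ZMod.card]
    rw [Finset.mem_image]
    rintro ⟨a, -, ha⟩
    exact hcon a ha
  have h4 : P.natDegree = q := FiniteField.X_pow_card_sub_X_natDegree_eq _ h1
  omega

theorem ult_period {q : ℕ} [hq : Fact q.Prime] (l : ℕ) (hl : 0 < l) :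
    ∃ a : AlgebraicClosure (ZMod q), a ^ (q ^ l) = a ∧ ∀ i, 0 < i → i < l → a ^ (q ^ i) ≠ a := by
  classical
  have hq1 : 1 < q := hq.out.one_lt
  have hcard : Nat.card (GaloisField q l) = q ^ l := GaloisField.card q l hl.ne'
  have hfin : Finite (GaloisField q l) := inferInstance
  have hft : Fintype (GaloisField q l) := Fintype.ofFinite _
  let f : GaloisField q l →ₐ[ZMod q] AlgebraicClosure (ZMod q) := IsAlgClosed.lift
  have hinj : Function.Injective f := f.toRingHom.injective
  obtain ⟨g, hg⟩ := IsCyclic.exists_generator (α := (GaloisField q l)ˣ)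
  have hord : orderOf g = q ^ l - 1 := by
    rw [orderOf_eq_card_of_forall_mem_zpowers hg, Nat.card_units, hcard]
  refine ⟨f (g : GaloisField q l), ?_, ?_⟩
  · rw [← map_pow]
    congr 1
    have := FiniteField.pow_card (g : GaloisField q l)
    rwa [← Nat.card_eq_fintype_card, hcard] at this
  · intro i hi hil h
    rw [← map_pow] at h
    have h1 := hinj h
    have hpos : 0 < q ^ i := pow_pos (by omega) i
    have h2 : (g : GaloisField q l) ^ (q ^ i - 1) = 1 := by
      have h3 : (g : GaloisField q l) ^ (q ^ i - 1) * g = 1 * g := by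
        rw [← pow_succ, Nat.sub_add_cancel hpos, h1, one_mul]
      exact mul_right_cancel₀ g.ne_zero h3
    have h4 : g ^ (q ^ i - 1) = 1 := by
      apply Units.ext
      rw [Units.val_pow_eq_pow_val, h2, Units.val_one]
    have h5 := orderOf_dvd_of_pow_eq_one h4
    rw [hord] at h5
    have h6 : 1 < q ^ i := Nat.one_lt_pow hi.ne' hq1
    have h7 : q ^ i < q ^ l := Nat.pow_lt_pow_right hq1 hil
    have h8 := Nat.le_of_dvd (by omega) h5
    omega

variable (p : ℕ → ℕ) [hp : ∀ n, Fact (p n).Prime]

/-- main result 1 -/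
theorem phi_fixed_iff (z : WW p) : phi p z = z ↔ ∃ a, inc p a = z := by
  classical
  constructor
  · intro h
    obtain ⟨x, rfl⟩ := st_surjective UF (Kp p) z
    rw [phi_st, st_eq_iff] at h
    let a : ∀ n, Fp p n := fun n => if hn : x n ^ p n = x n then (ult_fixed hn).choose else 0
    refine ⟨st UF (Fp p) a, ?_⟩
    rw [inc_st, st_eq_iff]
    filter_upwards [h] with n hn
    have : a n = (ult_fixed hn).choose := dif_pos hn
    rw [this]
    exact (ult_fixed hn).choose_spec
  · rintro ⟨a, rfl⟩
    obtain ⟨x, rfl⟩ := st_surjective UF (Fp p) a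
    rw [inc_st, phi_st]
    congr 1
    funext n
    rw [← map_pow, ZMod.pow_card]

theorem phi_iter_st (x : ∀ n, Kp p n) (i : ℕ) :
    (⇑(phi p))^[i] (st UF (Kp p) x) = st UF (Kp p) (fun n => x n ^ (p n) ^ i) := by
  induction i with
  | zero => simp
  | succ i ih =>
    rw [Function.iterate_succ_apply', ih, phi_st]
    congr 1
    funext n
    rw [← pow_mul, ← pow_succ]

/-- main result 2 -/
theorem phi_periods (l : ℕ) (hl : 0 < l) :
    ∃ a : WW p, (⇑(phi p))^[l] a = a ∧ ∀ i, 0 < i → i < l → (⇑(phi p))^[i] a ≠ a := by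
  choose a ha1 ha2 using fun n => ult_period (q := p n) l hl
  refine ⟨st UF (Kp p) a, ?_, ?_⟩
  · rw [phi_iter_st]
    congr 1
    funext n
    exact ha1 n
  · intro i hi hil h
    rw [phi_iter_st, st_eq_iff] at h
    obtain ⟨n, hn⟩ := h.exists
    exact ha2 n i hi hil hn

theorem ult_eventually (j : ℕ) : ∀ᶠ n in (UF : Filter ℕ), j < n := by
  apply Filter.hyperfilter_le_cofinite
  rw [Nat.cofinite_eq_atTop]
  exact Filter.eventually_gt_atTop j

/-- main result 3 -/
theorem WW_charZero (hlt : ∀ n, n < p n) : CharZero (WW p) := by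
  refine KU_charZero UF (Kp p) fun j hj => ?_
  filter_upwards [ult_eventually j] with n hn
  intro h0
  rw [CharP.cast_eq_zero_iff (Kp p n) (p n)] at h0
  have h1 := Nat.le_of_dvd (Nat.pos_of_ne_zero hj) h0
  have h2 := hlt n
  omega

/-- main result 4 -/
theorem exists_generic (I : ∀ n, Finset (ZMod (p n))) (hI : ∀ n, n < (I n).card)
    (C : Set (WW p)) (hC : C.Countable) :
    ∃ x : ∀ n, ZMod (p n), (∀ n, x n ∈ I n) ∧ inc p (st UF (Fp p) x) ∉ C := by
  classical
  rcases C.eq_empty_or_nonempty with rfl | hne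
  · have : ∀ n, ∃ a, a ∈ I n := fun n =>
      Finset.card_pos.1 (lt_of_le_of_lt (Nat.zero_le n) (hI n))
    choose x hx using this
    exact ⟨x, hx, Set.notMem_empty _⟩
  obtain ⟨c, rfl⟩ := hC.exists_eq_range hne
  choose y hy using fun j => st_surjective UF (Kp p) (c j)
  have hstep : ∀ n, ∃ a ∈ I n, ∀ j < n,
      algebraMap (ZMod (p n)) (AlgebraicClosure (ZMod (p n))) a ≠ y j n := by
    intro n
    let B : Finset (ZMod (p n)) := (Finset.range n).biUnion fun j => (I n).filter
      fun a => algebraMap (ZMod (p n)) (AlgebraicClosure (ZMod (p n))) a = y j n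
    have hB : B.card ≤ n := by
      have h1 : B.card ≤ (Finset.range n).card * 1 := by
        apply Finset.card_biUnion_le_card_mul
        intro j _
        rw [Finset.card_le_one]
        intro a ha b hb
        rw [Finset.mem_filter] at ha hb
        exact (algebraMap (ZMod (p n)) (AlgebraicClosure (ZMod (p n)))).injective
          (ha.2.trans hb.2.symm)
      simpa using h1
    obtain ⟨a, ha, haB⟩ := Finset.exists_mem_notMem_of_card_lt_card
      (lt_of_le_of_lt hB (hI n))
    refine ⟨a, ha, fun j hj h => haB ?_⟩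
    rw [Finset.mem_biUnion]
    exact ⟨j, Finset.mem_range.2 hj, Finset.mem_filter.2 ⟨ha, h⟩⟩
  choose x hx1 hx2 using hstep
  refine ⟨x, hx1, ?_⟩
  rintro ⟨j, hj⟩
  rw [← hy j, inc_st, st_eq_iff] at hj
  obtain ⟨n, hn1, hn2⟩ := (hj.and (ult_eventually j)).exists
  exact hx2 n j hn2 hn1.symm

end Pool.Agent.Helper897.BS
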