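import Pool.Agent.Helper897_BS.UDefs
import Pool.Agent.Helper897_BS.ULT

/-! No linear factors in the ultraproduct. -/

set_option autoImplicit false
set_option linter.all false

namespace Pool.Agent.Helper897.BS

variable (p : ℕ → ℕ) [hp : ∀ n, Fact (p n).Prime]


/-- a polynomial fixed by the Frobenius map comes from the ultraproduct of the prime fields -/
theorem LNF_descend (L : MvPolynomial (Fin 2) (WW p))
    (hL : MvPolynomial.map (phi p).toRingHom L = L) :
    ∃ L₁ : MvPolynomial (Fin 2) (FF p), MvPolynomial.map (inc p) L₁ = L := by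
  have h : L ∈ Set.range (MvPolynomial.map (σ := Fin 2) (inc p)) := by
    rw [MvPolynomial.mem_range_map_iff_coeffs_subset]
    intro c hc
    rw [Finset.mem_coe, MvPolynomial.mem_coeffs_iff] at hc
    obtain ⟨m, _, rfl⟩ := hc
    have h1 : phi p (MvPolynomial.coeff m L) = MvPolynomial.coeff m L := by
      have h2 := congrArg (MvPolynomial.coeff m) hL
      rw [MvPolynomial.coeff_map] at h2
      exact h2
    exact (phi_fixed_iff p _).1 h1
  exact h

/-- lifts with small support -/
theorem LNF_lift (L : MvPolynomial (Fin 2) (FF p)) :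
    ∃ L' : MvPolynomial (Fin 2) (∀ n, Fp p n), MvPolynomial.map (st UF (Fp p)) L' = L ∧
      L'.support ⊆ L.support := by
  classical
  choose l hl using st_surjective UF (Fp p)
  set L' : MvPolynomial (Fin 2) (∀ n, Fp p n) :=
    ∑ m ∈ L.support, MvPolynomial.monomial m (l (MvPolynomial.coeff m L)) with hL'
  have hc : ∀ m, MvPolynomial.coeff m L' =
      if m ∈ L.support then l (MvPolynomial.coeff m L) else 0 := by
    intro m
    rw [hL', MvPolynomial.coeff_sum]
    simp only [MvPolynomial.coeff_monomial]
    rw [Finset.sum_ite_eq' L.support m]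
  refine ⟨L', ?_, ?_⟩
  · ext m
    rw [MvPolynomial.coeff_map, hc]
    split_ifs with h
    · exact hl _
    · rw [map_zero]
      exact (MvPolynomial.notMem_support_iff.1 h).symm
  · intro m hm
    rw [MvPolynomial.mem_support_iff, hc] at hm
    by_contra h
    rw [if_neg h] at hm
    exact hm rfl

/-- a polynomial which vanishes in the ultraproduct vanishes almost everywhere -/
theorem LNF_vanish (D : MvPolynomial (Fin 2) (∀ n, Fp p n))
    (hD : MvPolynomial.map (st UF (Fp p)) D = 0) :
    ∀ᶠ n in (UF : Filter ℕ), MvPolynomial.map (ev (Fp p) n) D = 0 := by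
  have h1 : ∀ᶠ n in (UF : Filter ℕ), ∀ m ∈ D.support, MvPolynomial.coeff m D n = 0 := by
    rw [Filter.eventually_all_finset]
    intro m _
    have h2 := congrArg (MvPolynomial.coeff m) hD
    rw [MvPolynomial.coeff_map, MvPolynomial.coeff_zero, st_eq_zero_iff] at h2
    exact h2
  filter_upwards [h1] with n hn
  ext m
  rw [MvPolynomial.coeff_map, MvPolynomial.coeff_zero]
  by_cases hm : m ∈ D.support
  · exact hn m hm
  · rw [MvPolynomial.notMem_support_iff.1 hm, map_zero]

/-- main result of the file -/
theorem no_linear (F : MvPolynomial (Fin 2) (∀ n, Fp p n))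
    (hlin : ∀ n, ∀ L : MvPolynomial (Fin 2) (ZMod (p n)), L.totalDegree = 1 →
      ¬ L ∣ MvPolynomial.map (ev (Fp p) n) F)
    (L G : MvPolynomial (Fin 2) (WW p))
    (hL : MvPolynomial.map (phi p).toRingHom L = L) (hG : MvPolynomial.map (phi p).toRingHom G = G)
    (hLG : L * G = MvPolynomial.map (inc p) (MvPolynomial.map (st UF (Fp p)) F)) :
    L.totalDegree ≠ 1 := by
  intro hdeg
  obtain ⟨L₁, rfl⟩ := LNF_descend p L hL
  obtain ⟨G₁, rfl⟩ := LNF_descend p G hG
  have hinj : Function.Injective (inc p) := (inc p).injective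
  rw [← map_mul] at hLG
  have h1 := MvPolynomial.map_injective (σ := Fin 2) (inc p) hinj hLG
  have hdeg1 : L₁.totalDegree = 1 := by
    rw [← hdeg]
    unfold MvPolynomial.totalDegree
    rw [MvPolynomial.support_map_of_injective _ hinj]
  obtain ⟨L₂, hL₂, hs⟩ := LNF_lift p L₁
  obtain ⟨G₂, hG₂, -⟩ := LNF_lift p G₁
  have hD : MvPolynomial.map (st UF (Fp p)) (L₂ * G₂ - F) = 0 := by
    rw [map_sub, map_mul, hL₂, hG₂, h1, sub_self]
  have h2 := LNF_vanish p _ hD
  -- a monomial of degree one
  have hex : ∃ m ∈ L₁.support, (m.sum fun _ e => e) = 1 := by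
    have hne : L₁.support.Nonempty := by
      rw [Finset.nonempty_iff_ne_empty]
      intro h0
      rw [MvPolynomial.support_eq_empty] at h0
      rw [h0, MvPolynomial.totalDegree_zero] at hdeg1
      exact zero_ne_one hdeg1
    obtain ⟨m, hm, hm2⟩ := Finset.exists_mem_eq_sup L₁.support hne
      (fun s : Fin 2 →₀ ℕ => s.sum fun _ e => e)
    refine ⟨m, hm, ?_⟩
    rw [← hm2]
    exact hdeg1
  obtain ⟨m, hm, hm1⟩ := hex
  have h3 : ∀ᶠ n in (UF : Filter ℕ), MvPolynomial.coeff m L₂ n ≠ 0 := by
    rw [← st_ne_zero_iff, ← MvPolynomial.coeff_map, hL₂]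
    exact MvPolynomial.mem_support_iff.1 hm
  obtain ⟨n, hn1, hn2⟩ := (h2.and h3).exists
  refine hlin n (MvPolynomial.map (ev (Fp p) n) L₂) ?_ ?_
  · apply le_antisymm
    · unfold MvPolynomial.totalDegree
      refine Finset.sup_le fun s hs' => ?_
      have h4 : s ∈ L₁.support := by
        apply hs
        rw [MvPolynomial.mem_support_iff] at hs' ⊢
        intro h0
        rw [MvPolynomial.coeff_map, h0, map_zero] at hs'
        exact hs' rfl
      have := MvPolynomial.le_totalDegree h4
      rw [hdeg1] at this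
      exact this
    · have h5 : m ∈ (MvPolynomial.map (ev (Fp p) n) L₂).support := by
        rw [MvPolynomial.mem_support_iff, MvPolynomial.coeff_map]
        exact hn2
      have := MvPolynomial.le_totalDegree h5
      rw [hm1] at this
      exact this
  · refine ⟨MvPolynomial.map (ev (Fp p) n) G₂, ?_⟩
    rw [map_sub, map_mul, sub_eq_zero] at hn1
    exact hn1.symm

end Pool.Agent.Helper897.BS
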