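import Pool.Agent.Helper897_BS.UDefs
import Pool.Agent.R410.PW.Weil

/-! The Weil bound in the ultraproduct. -/

set_option autoImplicit false
set_option linter.all false

namespace Pool.Agent.Helper897.BS

open Polynomial

section wei0

/-- vanishing of the image of a polynomial, coefficient by coefficient -/
theorem wei_abs {S T : Type} [CommRing S] [CommRing T] {Sn : ℕ → Type} [∀ n, CommRing (Sn n)]
    (U : Filter ℕ) (ψ : S →+* T) (φ : ∀ n, S →+* Sn n)
    (h : ∀ s, ψ s = 0 ↔ ∀ᶠ n in U, φ n s = 0) (G : S[X]) :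
    G.map ψ = 0 ↔ ∀ᶠ n in U, G.map (φ n) = 0 := by
  constructor
  · intro hG
    have h1 : ∀ i ∈ G.support, ∀ᶠ n in U, φ n (G.coeff i) = 0 := by
      intro i _
      rw [← h, ← coeff_map, hG, coeff_zero]
    have h2 := (Filter.eventually_all_finset G.support).2 h1
    filter_upwards [h2] with n hn
    ext i
    rw [coeff_map, coeff_zero]
    by_cases hi : i ∈ G.support
    · exact hn i hi
    · rw [notMem_support_iff.1 hi, map_zero]
  · intro hG
    ext i
    rw [coeff_map, coeff_zero, h]
    filter_upwards [hG] with n hn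
    rw [← coeff_map, hn, coeff_zero]

variable (κ : ℕ → Type) [∀ i, Field (κ i)]

theorem wei_Z1 (G : (∀ n, κ n)[X]) :
    G.map (st UF κ) = 0 ↔ ∀ᶠ n in (UF : Filter ℕ), G.map (ev κ n) = 0 :=
  wei_abs (UF : Filter ℕ) (st UF κ) (fun n => ev κ n) (fun _ => st_eq_zero_iff UF κ) G

theorem wei_Z2 (G : (∀ n, κ n)[X][X]) :
    G.map (mapRingHom (st UF κ)) = 0 ↔
      ∀ᶠ n in (UF : Filter ℕ), G.map (mapRingHom (ev κ n)) = 0 :=
  wei_abs (UF : Filter ℕ) (mapRingHom (st UF κ)) (fun n => mapRingHom (ev κ n))
    (fun s => wei_Z1 κ s) G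

/-- if the image has outer degree zero, so have almost all components -/
theorem wei_deg (G : (∀ n, κ n)[X][X]) (h : (G.map (mapRingHom (st UF κ))).natDegree = 0) :
    ∀ᶠ n in (UF : Filter ℕ), (G.map (mapRingHom (ev κ n))).natDegree = 0 := by
  have h1 : (G - C (G.coeff 0)).map (mapRingHom (st UF κ)) = 0 := by
    rw [Polynomial.map_sub, map_C, ← coeff_map, sub_eq_zero]
    exact eq_C_of_natDegree_eq_zero h
  rw [wei_Z2] at h1
  filter_upwards [h1] with n hn
  rw [Polynomial.map_sub, map_C, sub_eq_zero] at hn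
  rw [hn, natDegree_C]

end wei0

section swapc

theorem swap_coeff {R : Type} [CommRing R] (p : R[X][X]) (i j : ℕ) :
    ((Bivariate.swap p).coeff i).coeff j = (p.coeff j).coeff i := by
  induction p using Polynomial.induction_on' with
  | add p q hp hq => rw [map_add, coeff_add, coeff_add, hp, hq, coeff_add, coeff_add]
  | monomial n a =>
    induction a using Polynomial.induction_on' with
    | add a b ha hb =>
      rw [map_add, map_add, coeff_add, coeff_add, ha, hb, coeff_add, coeff_add]
    | monomial m r =>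
      rw [Bivariate.swap_monomial_monomial, coeff_monomial, coeff_monomial]
      by_cases h1 : m = i
      · by_cases h2 : n = j
        · rw [if_pos h1, if_pos h2, coeff_monomial, coeff_monomial, if_pos h2, if_pos h1]
        · rw [if_pos h1, if_neg h2, coeff_monomial, if_neg h2, coeff_zero]
      · by_cases h2 : n = j
        · rw [if_neg h1, if_pos h2, coeff_monomial, if_neg h1, coeff_zero]
        · rw [if_neg h1, if_neg h2, coeff_zero, coeff_zero]

theorem swap_deg_le {R : Type} [CommRing R] (p : R[X][X]) (d : ℕ)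
    (h : ∀ i, (p.coeff i).natDegree ≤ d) : (Bivariate.swap p).natDegree ≤ d := by
  rw [natDegree_le_iff_coeff_eq_zero]
  intro N hN
  ext j
  rw [swap_coeff, coeff_zero]
  exact coeff_eq_zero_of_natDegree_lt (lt_of_le_of_lt (h j) hN)

theorem deg_le_swap {R : Type} [CommRing R] (p : R[X][X]) (i : ℕ) :
    (p.coeff i).natDegree ≤ (Bivariate.swap p).natDegree := by
  rw [natDegree_le_iff_coeff_eq_zero]
  intro N hN
  rw [← swap_coeff, coeff_eq_zero_of_natDegree_lt hN, coeff_zero]

/-- inner degrees of factors -/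
theorem inner_le {R : Type} [CommRing R] [IsDomain R] {Q S f : R[X][X]} (h : Q * S = f)
    (hf : f ≠ 0) {d : ℕ} (hd : ∀ i, (f.coeff i).natDegree ≤ d) (i : ℕ) :
    (Q.coeff i).natDegree ≤ d ∧ (S.coeff i).natDegree ≤ d := by
  have hQ : Q ≠ 0 := by
    rintro rfl
    rw [zero_mul] at h
    exact hf h.symm
  have hS : S ≠ 0 := by
    rintro rfl
    rw [mul_zero] at h
    exact hf h.symm
  have hQ' : Bivariate.swap Q ≠ 0 := by
    rw [Ne, EmbeddingLike.map_eq_zero_iff]
    exact hQ
  have hS' : Bivariate.swap S ≠ 0 := by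
    rw [Ne, EmbeddingLike.map_eq_zero_iff]
    exact hS
  have h1 := swap_deg_le f d hd
  rw [← h, map_mul, natDegree_mul hQ' hS'] at h1
  exact ⟨(deg_le_swap Q i).trans (by omega), (deg_le_swap S i).trans (by omega)⟩

/-- polynomial with prescribed coefficients -/
noncomputable def bld {R : Type} [CommRing R] (N d : ℕ) (a : ℕ → ℕ → R) : R[X][X] :=
  ∑ i ∈ Finset.range (N + 1), monomial i (∑ j ∈ Finset.range (d + 1), monomial j (a i j))

theorem bld_coeff {R : Type} [CommRing R] (N d : ℕ) (a : ℕ → ℕ → R) (i j : ℕ) :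
    ((bld N d a).coeff i).coeff j = if i ≤ N ∧ j ≤ d then a i j else 0 := by
  classical
  unfold bld
  rw [finsetSum_coeff]
  simp only [coeff_monomial]
  rw [Finset.sum_ite_eq' (Finset.range (N + 1)) i]
  by_cases hi : i ≤ N
  · rw [if_pos (Finset.mem_range.2 (by omega)), finsetSum_coeff]
    simp only [coeff_monomial]
    rw [Finset.sum_ite_eq' (Finset.range (d + 1)) j]
    by_cases hj : j ≤ d
    · rw [if_pos (Finset.mem_range.2 (by omega)), if_pos ⟨hi, hj⟩]
    · rw [if_neg (fun h => hj (by
        have := Finset.mem_range.1 h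
        omega)), if_neg (fun h => hj h.2)]
  · rw [if_neg (fun h => hi (by
      have := Finset.mem_range.1 h
      omega)), coeff_zero, if_neg (fun h => hi h.1)]

end swapc

section sep

theorem exists_ABD {K : Type} [Field K] [CharZero K] {f : K[X][X]} (hf : f.Monic)
    (hirr : Irreducible f) : ∃ A B : K[X][X], ∃ D : K[X], D ≠ 0 ∧
      A * f + B * derivative f = C D := by
  have : CharZero (RatFunc K) :=
    charZero_of_injective_algebraMap (R := K) (algebraMap K (RatFunc K)).injective
  set g := f.map (algebraMap K[X] (RatFunc K)) with hg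
  have hirr' : Irreducible g :=
    (hf.irreducible_iff_irreducible_map_fraction_map (K := RatFunc K)).1 hirr
  obtain ⟨a, b, hab⟩ := hirr'.separable
  obtain ⟨sa, hsa⟩ := IsLocalization.integerNormalization_map_to_map (nonZeroDivisors K[X]) a
  obtain ⟨sb, hsb⟩ := IsLocalization.integerNormalization_map_to_map (nonZeroDivisors K[X]) b
  set A0 := IsLocalization.integerNormalization (nonZeroDivisors K[X]) a with hA0
  set B0 := IsLocalization.integerNormalization (nonZeroDivisors K[X]) b with hB0
  have hsa0 : (sa : K[X]) ≠ 0 := nonZeroDivisors.coe_ne_zero sa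
  have hsb0 : (sb : K[X]) ≠ 0 := nonZeroDivisors.coe_ne_zero sb
  refine ⟨C (sb : K[X]) * A0, C (sa : K[X]) * B0, (sa : K[X]) * sb, mul_ne_zero hsa0 hsb0, ?_⟩
  have hinj : Function.Injective (Polynomial.map (algebraMap K[X] (RatFunc K))) :=
    Polynomial.map_injective _ (IsFractionRing.injective K[X] (RatFunc K))
  apply hinj
  have e1 : ∀ (s : K[X]) (q : (RatFunc K)[X]), s • q = C (algebraMap K[X] (RatFunc K) s) * q := by
    intro s q
    rw [← smul_eq_C_mul, algebraMap_smul]
  rw [Polynomial.map_add, Polynomial.map_mul, Polynomial.map_mul, Polynomial.map_mul,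
    Polynomial.map_mul, map_C, map_C, map_C, hsa, hsb, e1, e1, ← derivative_map, ← hg, map_mul, C_mul]
  linear_combination (C (algebraMap K[X] (RatFunc K) sa) * C (algebraMap K[X] (RatFunc K) sb)) * hab

end sep

variable (p : ℕ → ℕ) [hp : ∀ n, Fact (p n).Prime]

theorem ff_charZero (hlt : ∀ n, n < p n) : CharZero (FF p) := by
  apply KU_charZero
  intro j hj
  have h1 : ∀ᶠ i in (UF : Filter ℕ), j ≤ i := by
    have h2 : ((UF : Ultrafilter ℕ) : Filter ℕ) ≤ Filter.atTop := by
      rw [← Nat.cofinite_eq_atTop]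
      exact Filter.hyperfilter_le_cofinite
    exact h2 (Filter.eventually_ge_atTop j)
  filter_upwards [h1] with i hi
  intro h0
  have h3 : (p i) ∣ j := (ZMod.natCast_eq_zero_iff j (p i)).1 h0
  have h4 := Nat.le_of_dvd (Nat.pos_of_ne_zero hj) h3
  have h5 := hlt i
  omega

/-- irreducibility over the algebraic closures -/
theorem irr_ae (P : (∀ n, Fp p n)[X][X]) (hP : P.Monic) (hdeg : 0 < P.natDegree)
    (hirr : Irreducible ((P.map (mapRingHom (st UF (Fp p)))).map (mapRingHom (inc p)))) :
    ∀ᶠ n in (UF : Filter ℕ), Irreducible ((P.map (mapRingHom (ev (Fp p) n))).map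
      (mapRingHom (algebraMap (ZMod (p n)) (Kp p n)))) := by
  classical
  by_contra hcon
  have hcon' := Ultrafilter.eventually_not.2 hcon
  set f : ∀ n, (Kp p n)[X][X] := fun n => (P.map (mapRingHom (ev (Fp p) n))).map
      (mapRingHom (algebraMap (ZMod (p n)) (Kp p n))) with hf
  set N := P.natDegree with hN
  set d := P.support.sup (fun i => (P.coeff i).natDegree) with hd
  have hPd : ∀ i, (P.coeff i).natDegree ≤ d := by
    intro i
    by_cases hi : i ∈ P.support
    · exact Finset.le_sup (f := fun i => (P.coeff i).natDegree) hi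
    · rw [notMem_support_iff.1 hi, natDegree_zero]
      exact Nat.zero_le _
  have hfm : ∀ n, (f n).Monic := fun n => (hP.map _).map _
  have hfN : ∀ n, (f n).natDegree = N := by
    intro n
    rw [hf]
    simp only
    rw [(hP.map _).natDegree_map, hP.natDegree_map]
  have hfd : ∀ n i, ((f n).coeff i).natDegree ≤ d := by
    intro n i
    simp only [hf, coeff_map, coe_mapRingHom]
    exact natDegree_map_le.trans (natDegree_map_le.trans (hPd i))
  -- the factors
  have hex : ∀ n, ∃ Q S : (Kp p n)[X][X], ¬ Irreducible (f n) →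
      (Q.Monic ∧ S.Monic ∧ Q * S = f n ∧ 0 < Q.natDegree ∧ 0 < S.natDegree) := by
    intro n
    by_cases hn : Irreducible (f n)
    · exact ⟨1, 1, fun h => absurd hn h⟩
    · have h1 : f n ≠ 1 := by
        intro h1
        have h2 := hfN n
        rw [h1, natDegree_one] at h2
        omega
      rw [(hfm n).irreducible_iff_natDegree'] at hn
      push Not at hn
      obtain ⟨Q, S, hQ, hS, hQS, hS2⟩ := hn h1
      rw [Finset.mem_Ioc] at hS2
      refine ⟨Q, S, fun _ => ⟨hQ, hS, hQS, ?_, hS2.1⟩⟩
      have h3 : (f n).natDegree = Q.natDegree + S.natDegree := by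
        rw [← hQS, hQ.natDegree_mul hS]
      omega
  choose Q S hQS using hex
  let GQ : (∀ n, Kp p n)[X][X] := bld N d (fun i j n => ((Q n).coeff i).coeff j)
  let GS : (∀ n, Kp p n)[X][X] := bld N d (fun i j n => ((S n).coeff i).coeff j)
  have hcomp : ∀ (V : ∀ n, (Kp p n)[X][X]) (n : ℕ), (V n).natDegree ≤ N →
      (∀ i, ((V n).coeff i).natDegree ≤ d) →
      (bld N d (fun i j n => ((V n).coeff i).coeff j) : (∀ n, Kp p n)[X][X]).map
        (mapRingHom (ev (Kp p) n)) = V n := by
    intro V n h1 h2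
    ext i j
    rw [coeff_map, coe_mapRingHom, coeff_map, bld_coeff]
    by_cases hij : i ≤ N ∧ j ≤ d
    · rw [if_pos hij]
      rfl
    · rw [if_neg hij, map_zero]
      by_cases hi : i ≤ N
      · have hj : d < j := by
          by_contra hc
          exact hij ⟨hi, not_lt.1 hc⟩
        rw [coeff_eq_zero_of_natDegree_lt (lt_of_le_of_lt (h2 i) hj)]
      · rw [coeff_eq_zero_of_natDegree_lt (lt_of_le_of_lt h1 (not_le.1 hi)), coeff_zero]
  have hgood : ∀ n, ¬ Irreducible (f n) →
      GQ.map (mapRingHom (ev (Kp p) n)) = Q n ∧ GS.map (mapRingHom (ev (Kp p) n)) = S n := by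
    intro n hn
    obtain ⟨h1, h2, h3, h4, h5⟩ := hQS n hn
    have h6 : (f n).natDegree = (Q n).natDegree + (S n).natDegree := by
      rw [← h3, h1.natDegree_mul h2]
    rw [hfN n] at h6
    have h7 := inner_le h3 (hfm n).ne_zero (hfd n)
    exact ⟨hcomp Q n (by omega) fun i => (h7 i).1, hcomp S n (by omega) fun i => (h7 i).2⟩
  -- the product
  set PK : (∀ n, Kp p n)[X][X] := P.map (mapRingHom (pinc p)) with hPK
  have hPKn : ∀ n, PK.map (mapRingHom (ev (Kp p) n)) = f n := by
    intro n
    simp only [hPK, hf]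
    rw [Polynomial.map_map, Polynomial.map_map, mapRingHom_comp, mapRingHom_comp]
    congr 1
  have hPKW : PK.map (mapRingHom (st UF (Kp p))) =
      (P.map (mapRingHom (st UF (Fp p)))).map (mapRingHom (inc p)) := by
    rw [hPK, Polynomial.map_map, Polynomial.map_map, mapRingHom_comp, mapRingHom_comp]
    congr 2
  have hprod : GQ.map (mapRingHom (st UF (Kp p))) * GS.map (mapRingHom (st UF (Kp p))) =
      (P.map (mapRingHom (st UF (Fp p)))).map (mapRingHom (inc p)) := by
    rw [← hPKW, ← sub_eq_zero, ← Polynomial.map_mul, ← Polynomial.map_sub, wei_Z2]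
    filter_upwards [hcon'] with n hn
    obtain ⟨h1, h2⟩ := hgood n hn
    rw [Polynomial.map_sub, Polynomial.map_mul, h1, h2, hPKn, (hQS n hn).2.2.1, sub_self]
  have hunit := hirr.isUnit_or_isUnit hprod.symm
  rcases hunit with h | h
  · have h1 := wei_deg (Kp p) GQ (natDegree_eq_zero_of_isUnit h)
    obtain ⟨n, hn1, hn2⟩ := (h1.and hcon').exists
    rw [(hgood n hn2).1] at hn1
    have := (hQS n hn2).2.2.2.1
    omega
  · have h1 := wei_deg (Kp p) GS (natDegree_eq_zero_of_isUnit h)
    obtain ⟨n, hn1, hn2⟩ := (h1.and hcon').exists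
    rw [(hgood n hn2).2] at hn1
    have := (hQS n hn2).2.2.2.2
    omega

/-- main result of the file -/
theorem many_points (hlt : ∀ n, n < p n) (P : (∀ n, Fp p n)[X][X]) (hP : P.Monic)
    (hdeg : 0 < P.natDegree)
    (hirr : Irreducible ((P.map (mapRingHom (st UF (Fp p)))).map (mapRingHom (inc p)))) :
    ∃ C : ℕ, ∀ᶠ n in (UF : Filter ℕ), (p n : ℝ) - C * √(p n : ℝ) ≤
      ({z : ZMod (p n) × ZMod (p n) |
        evalEval z.1 z.2 (P.map (mapRingHom (ev (Fp p) n))) = 0}.ncard : ℝ) := by
  classical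
  have := ff_charZero p hlt
  set PF := P.map (mapRingHom (st UF (Fp p))) with hPF
  have hPFm : PF.Monic := hP.map _
  have hirrF : Irreducible PF := hPFm.irreducible_of_irreducible_map _ _ hirr
  obtain ⟨AF, BF, DF, hDF0, hABF⟩ := exists_ABD hPFm hirrF
  have hs1 : Function.Surjective (mapRingHom (st UF (Fp p))) := by
    intro x
    obtain ⟨y, hy⟩ := Polynomial.map_surjective _ (st_surjective UF (Fp p)) x
    exact ⟨y, hy⟩
  have hs2 := Polynomial.map_surjective _ hs1
  obtain ⟨A, rfl⟩ := hs2 AF
  obtain ⟨B, rfl⟩ := hs2 BF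
  obtain ⟨D, rfl⟩ := hs1 DF
  have hD1 : ∀ᶠ n in (UF : Filter ℕ), D.map (ev (Fp p) n) ≠ 0 := by
    apply Ultrafilter.eventually_not.2
    intro h
    exact hDF0 ((wei_Z1 (Fp p) D).2 h)
  have hAB1 : ∀ᶠ n in (UF : Filter ℕ),
      (A * P + B * derivative P - C D).map (mapRingHom (ev (Fp p) n)) = 0 := by
    rw [← wei_Z2, Polynomial.map_sub, Polynomial.map_add, Polynomial.map_mul, Polynomial.map_mul,
      map_C, ← derivative_map, sub_eq_zero]
    exact hABF
  have hI := irr_ae p P hP hdeg hirr
  set d := P.support.sup (fun i => (P.coeff i).natDegree) with hd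
  have hPd : ∀ i, (P.coeff i).natDegree ≤ d := by
    intro i
    by_cases hi : i ∈ P.support
    · exact Finset.le_sup (f := fun i => (P.coeff i).natDegree) hi
    · rw [notMem_support_iff.1 hi, natDegree_zero]
      exact Nat.zero_le _
  refine ⟨Pool.Agent.R410.PW.WC P.natDegree d D.natDegree, ?_⟩
  filter_upwards [hD1, hAB1, hI] with n h1 h2 h3
  have hnd : (P.map (mapRingHom (ev (Fp p) n))).natDegree = P.natDegree := hP.natDegree_map _
  have h4 := Pool.Agent.R410.PW.weil (F := ZMod (p n)) (Kp p n)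
    (f := P.map (mapRingHom (ev (Fp p) n))) (A := A.map (mapRingHom (ev (Fp p) n)))
    (B := B.map (mapRingHom (ev (Fp p) n))) (D := D.map (ev (Fp p) n)) (hP.map _)
    (by rw [hnd]; exact hdeg)
    (by
      rw [Polynomial.map_sub, Polynomial.map_add, Polynomial.map_mul, Polynomial.map_mul,
        map_C, ← derivative_map, sub_eq_zero] at h2
      exact h2)
    h1 (δ := D.natDegree) natDegree_map_le (d := d)
    (by
      intro i
      rw [coeff_map, coe_mapRingHom]
      exact natDegree_map_le.trans (hPd i)) h3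
  rw [hnd, Nat.card_zmod] at h4
  have h5 := (abs_le.1 h4).1
  linarith

end Pool.Agent.Helper897.BS
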