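import Pool.Agent.Helper897_BS.GEO
import Pool.Agent.Helper897_BS.ULT
import Pool.Agent.Helper897_BS.WEI
import Pool.Agent.Helper897_BS.BAS
import Pool.Agent.Helper897_BS.LNF
import Pool.Agent.Helper897_BS.BDC

/-! The core theorem: a plane curve over a prime field without linear components has, in almost every
direction, many lines without rational points of the curve. -/

set_option autoImplicit false
set_option linter.all false

namespace Pool.Agent.Helper897.BS

open Polynomial

theorem transc_of_notMem {W : Type} [Field W] (k : Subfield W) [IsAlgClosed k] {m : W} (hm : m ∉ k) :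
    Transcendental k m := by
  intro h
  apply hm
  have hint : IsIntegral k m := h.isIntegral
  set L := Algebra.adjoin k {m} with hL
  have hi : Algebra.IsIntegral k L := Algebra.IsIntegral.adjoin (by simpa using hint)
  have hb := (IsAlgClosed.algebraMap_bijective_of_isIntegral (k := k) (K := L)).2
  obtain ⟨c, hc⟩ := hb ⟨m, Algebra.subset_adjoin rfl⟩
  have h2 := congrArg Subtype.val hc
  have h3 : (c : W) = m := h2
  rw [← h3]
  exact c.2

section seq

variable (p : ℕ → ℕ) [hp : ∀ n, Fact (p n).Prime]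

theorem exists_seq (d : ℕ) (F : ∀ n, MvPolynomial (Fin 2) (ZMod (p n)))
    (hd : ∀ n, (F n).totalDegree ≤ d) :
    ∃ G : MvPolynomial (Fin 2) (∀ n, Fp p n), ∀ n, MvPolynomial.map (ev (Fp p) n) G = F n := by
  classical
  set E : Finset (Fin 2 →₀ ℕ) := (Finsupp.finite_of_degree_le (σ := Fin 2) d).toFinset with hE
  refine ⟨∑ e ∈ E, MvPolynomial.monomial e (fun n => MvPolynomial.coeff e (F n)), fun n => ?_⟩
  ext e
  rw [map_sum, MvPolynomial.coeff_sum]
  simp only [MvPolynomial.map_monomial, MvPolynomial.coeff_monomial]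
  rw [Finset.sum_ite_eq' E e]
  split_ifs with h
  · rfl
  · have h1 : ¬ e.degree ≤ d := by
      intro h2
      exact h ((Set.Finite.mem_toFinset _).2 h2)
    symm
    by_contra h2
    have h3 := MvPolynomial.le_totalDegree (MvPolynomial.mem_support_iff.2 h2)
    have h4 : (e.sum fun _ i => i) = e.degree := by
      rw [Finsupp.degree]
      rfl
    rw [h4] at h3
    exact h1 (h3.trans (hd n))

theorem eval_st (G : MvPolynomial (Fin 2) (∀ n, Fp p n)) (y z : ∀ n, Fp p n) :
    MvPolynomial.eval ![inc p (st UF (Fp p) y), inc p (st UF (Fp p) z)]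
      (MvPolynomial.map (inc p) (MvPolynomial.map (st UF (Fp p)) G)) =
    inc p (st UF (Fp p) (fun n => MvPolynomial.eval ![y n, z n]
      (MvPolynomial.map (ev (Fp p) n) G))) := by
  have h1 : (fun n => MvPolynomial.eval ![y n, z n] (MvPolynomial.map (ev (Fp p) n) G)) =
      MvPolynomial.eval ![y, z] G := by
    funext n
    have h2 := MvPolynomial.map_eval (ev (Fp p) n) ![y, z] G
    have h3 : (⇑(ev (Fp p) n) ∘ ![y, z]) = ![y n, z n] := by
      funext i
      fin_cases i <;> rfl
    rw [h3] at h2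
    exact h2.symm
  rw [h1, MvPolynomial.map_eval, MvPolynomial.map_eval]
  congr 1
  congr 1
  funext i
  fin_cases i <;> rfl

theorem evalEval_st (G : (∀ n, Fp p n)[X][X]) (y z : ∀ n, Fp p n) :
    evalEval (inc p (st UF (Fp p) y)) (inc p (st UF (Fp p) z))
      ((G.map (mapRingHom (st UF (Fp p)))).map (mapRingHom (inc p))) =
    inc p (st UF (Fp p) (fun n => evalEval (y n) (z n) (G.map (mapRingHom (ev (Fp p) n))))) := by
  have key : ∀ {R S : Type} [CommRing R] [CommRing S] (f : R →+* S) (G : R[X][X]) (y z : R),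
      evalEval (f y) (f z) (G.map (mapRingHom f)) = f (evalEval y z G) := by
    intro R S _ _ f G y z
    have := Polynomial.map_mapRingHom_eval_map_eval (f := f) (p := G) (q := C z) y
    rw [Polynomial.map_C] at this
    exact this
  rw [key, key]
  congr 2
  funext n
  exact (key (ev (Fp p) n) G y z).symm

theorem inc_injective : Function.Injective (inc p) := (inc p).injective

/-- a polynomial over `WW p` with coefficients fixed by the Frobenius map comes from `FF p` -/
theorem exists_lift_phi (P : (WW p)[X][X]) (hP : P.map (mapRingHom (phi p).toRingHom) = P)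
    (hm : P.Monic) : ∃ G : (∀ n, Fp p n)[X][X], G.Monic ∧ G.natDegree = P.natDegree ∧
      (G.map (mapRingHom (st UF (Fp p)))).map (mapRingHom (inc p)) = P := by
  have h1 : P ∈ lifts (mapRingHom (inc p)) := by
    rw [lifts_iff_coeff_lifts]
    intro i
    have h2 : P.coeff i ∈ lifts (inc p) := by
      rw [lifts_iff_coeff_lifts]
      intro j
      have h3 : phi p ((P.coeff i).coeff j) = (P.coeff i).coeff j := by
        conv_rhs => rw [← hP]
        rw [coeff_map, coe_mapRingHom, coeff_map]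
        rfl
      obtain ⟨a, ha⟩ := (phi_fixed_iff p _).1 h3
      exact ⟨a, ha⟩
    exact h2
  obtain ⟨Q, hQ1, hQ2, hQ3⟩ := lifts_and_natDegree_eq_and_monic h1 hm
  have h2 : Q ∈ lifts (mapRingHom (st UF (Fp p))) := by
    rw [lifts_iff_coeff_lifts]
    intro i
    exact Polynomial.map_surjective _ (st_surjective UF (Fp p)) (Q.coeff i)
  obtain ⟨G, hG1, hG2, hG3⟩ := lifts_and_natDegree_eq_and_monic h2 hQ3
  exact ⟨G, hG3, by rw [hG2, hQ2], by rw [hG1, hQ1]⟩

/-- The contradiction: no sequence of counterexamples. -/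
theorem no_seq (hlt : ∀ n, n < p n) (d : ℕ) (F : ∀ n, MvPolynomial (Fin 2) (ZMod (p n)))
    (hF : ∀ n, F n ≠ 0) (hd : ∀ n, (F n).totalDegree ≤ d)
    (hlin : ∀ n, ∀ L : MvPolynomial (Fin 2) (ZMod (p n)), L.totalDegree = 1 → ¬ L ∣ F n)
    (I : ∀ n, Finset (ZMod (p n))) (hI : ∀ n, n < (I n).card)
    (hIb : ∀ n, ∀ m ∈ I n, n * {b : ZMod (p n) | ∀ x, MvPolynomial.eval ![x, m * x + b] (F n) ≠ 0}.ncard
      < p n) : False := by
  classical
  obtain ⟨G, hG⟩ := exists_seq p d F hd
  haveI : CharZero (WW p) := WW_charZero p hlt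
  set FW : MvPolynomial (Fin 2) (WW p) := MvPolynomial.map (inc p) (MvPolynomial.map (st UF (Fp p)) G)
    with hFW
  have hFW0 : FW ≠ 0 := by
    intro h0
    have h1 : MvPolynomial.map (st UF (Fp p)) G = 0 := by
      apply MvPolynomial.map_injective _ (inc_injective p)
      rw [← hFW, h0, map_zero]
    have h2 : ∀ᶠ n in (UF : Filter ℕ), ∀ e ∈ G.support, MvPolynomial.coeff e (F n) = 0 := by
      rw [Filter.eventually_all_finset]
      intro e _
      have h3 := congrArg (MvPolynomial.coeff e) h1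
      rw [MvPolynomial.coeff_map, MvPolynomial.coeff_zero, st_eq_zero_iff] at h3
      filter_upwards [h3] with n hn
      rw [← hG n, MvPolynomial.coeff_map]
      exact hn
    obtain ⟨n, hn⟩ := h2.exists
    apply hF n
    ext e
    rw [MvPolynomial.coeff_zero]
    by_cases he : e ∈ G.support
    · exact hn e he
    · rw [← hG n, MvPolynomial.coeff_map, MvPolynomial.notMem_support_iff.1 he, map_zero]
  set c : Finset (WW p) := FW.support.image fun e => MvPolynomial.coeff e FW with hc
  have hcφ : ∀ x ∈ c, phi p x = x := by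
    intro x hx
    rw [hc, Finset.mem_image] at hx
    obtain ⟨e, -, rfl⟩ := hx
    rw [phi_fixed_iff, hFW, MvPolynomial.coeff_map]
    exact ⟨_, rfl⟩
  obtain ⟨k, hk1, hk2, hk3, hk4⟩ := exists_base (phi p) c hcφ
  obtain ⟨x, hx1, hx2⟩ := exists_generic p I hI k hk2
  set m : WW p := inc p (st UF (Fp p) x) with hm
  have hmt : Transcendental k m := transc_of_notMem k hx2
  -- the automorphism of `k`
  let φ₀ : k ≃+* k :=
    { toFun := fun a => ⟨phi p a, (hk4 a).1 a.2⟩
      invFun := fun a => ⟨(phi p).symm a, (hk4 _).2 (by rw [RingEquiv.apply_symm_apply]; exact a.2)⟩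
      left_inv := fun a => Subtype.ext (by simp)
      right_inv := fun a => Subtype.ext (by simp)
      map_mul' := fun a b => Subtype.ext (by simp)
      map_add' := fun a b => Subtype.ext (by simp) }
  have hφ : ∀ a, phi p (algebraMap k (WW p) a) = algebraMap k (WW p) (φ₀ a) := fun a => rfl
  -- descent of `FW` to `k`
  obtain ⟨F₀, hF₀⟩ : ∃ F₀ : MvPolynomial (Fin 2) k, MvPolynomial.map (algebraMap k (WW p)) F₀ = FW := by
    have h1 : FW ∈ Set.range (MvPolynomial.map (algebraMap k (WW p))) := by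
      rw [MvPolynomial.mem_range_map_iff_coeffs_subset]
      intro a ha
      rw [Finset.mem_coe, MvPolynomial.mem_coeffs_iff] at ha
      obtain ⟨e, he, rfl⟩ := ha
      exact ⟨⟨_, hk3 _ (Finset.mem_image.2 ⟨e, he, rfl⟩)⟩, rfl⟩
    exact h1
  have hinj : Function.Injective (algebraMap k (WW p)) := (algebraMap k (WW p)).injective
  have hcomp : ∀ L : MvPolynomial (Fin 2) k,
      MvPolynomial.map (algebraMap k (WW p)) (MvPolynomial.map φ₀.toRingHom L) =
      MvPolynomial.map (phi p).toRingHom (MvPolynomial.map (algebraMap k (WW p)) L) := by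
    intro L
    rw [MvPolynomial.map_map, MvPolynomial.map_map]
    congr 1
  have hFWφ : MvPolynomial.map (phi p).toRingHom FW = FW := by
    ext e
    rw [MvPolynomial.coeff_map, hFW, MvPolynomial.coeff_map]
    exact (phi_fixed_iff p _).2 ⟨_, rfl⟩
  have hF₀0 : F₀ ≠ 0 := by
    rintro rfl
    rw [map_zero] at hF₀
    exact hFW0 hF₀.symm
  have hF₀φ : MvPolynomial.map φ₀.toRingHom F₀ = F₀ := by
    apply MvPolynomial.map_injective _ hinj
    rw [hcomp, hF₀, hFWφ]
  have hlin₀ : ∀ L : MvPolynomial (Fin 2) k, MvPolynomial.map φ₀.toRingHom L = L →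
      L.totalDegree = 1 → ¬ L ∣ F₀ := by
    rintro L hL hdeg ⟨G₀, hG₀⟩
    have hL0 : L ≠ 0 := by
      rintro rfl
      simp at hdeg
    have hG₀φ : MvPolynomial.map φ₀.toRingHom G₀ = G₀ := by
      apply mul_left_cancel₀ hL0
      rw [← hG₀]
      conv_rhs => rw [← hF₀φ]
      rw [hG₀, map_mul, hL]
    refine no_linear p G (fun n => by rw [hG n]; exact hlin n)
      (MvPolynomial.map (algebraMap k (WW p)) L) (MvPolynomial.map (algebraMap k (WW p)) G₀) ?_ ?_ ?_ ?_
    · rw [← hcomp, hL]
    · rw [← hcomp, hG₀φ]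
    · rw [← map_mul, ← hG₀, hF₀]
    · rw [← hdeg]
      unfold MvPolynomial.totalDegree
      rw [MvPolynomial.support_map_of_injective _ hinj]
  haveI : CharZero k := (RingHom.charZero_iff hinj).2 inferInstance
  obtain ⟨P, D, hP1, hP2, hP3, hP4, hD, hgeom⟩ := geom φ₀ (phi p) hφ (phi_periods p) F₀ hF₀0 hF₀φ hlin₀
    m hmt ((phi_fixed_iff p _).2 ⟨_, rfl⟩)
  obtain ⟨Q, hQ1, hQ2, hQ3⟩ := exists_lift_phi p P hP4 hP1
  obtain ⟨C₁, hC₁⟩ := many_points p hlt Q hQ1 (by rw [hQ2]; exact hP2) (by rw [hQ3]; exact hP3)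
  set R : ∀ n, Set (ZMod (p n)) := fun n =>
    {b : ZMod (p n) | ∀ y, MvPolynomial.eval ![y, x n * y + b] (F n) ≠ 0} with hR
  obtain ⟨C₂, hC₂⟩ := bad_count p Q hQ1 R D hD (by
    intro β t h1 h2
    by_contra h3
    rw [← Ultrafilter.eventually_not] at h3
    have h4 : ∀ n, ∃ y : ZMod (p n), β n ∉ R n → MvPolynomial.eval ![y, x n * y + β n] (F n) = 0 := by
      intro n
      by_cases h : β n ∈ R n
      · exact ⟨0, fun h' => absurd h h'⟩
      · simp only [hR, Set.mem_setOf_eq, not_forall, not_not] at h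
        obtain ⟨y, hy⟩ := h
        exact ⟨y, fun _ => hy⟩
    choose y hy using h4
    have h5 : evalEval (inc p (st UF (Fp p) β)) (inc p (st UF (Fp p) t)) P = 0 := by
      rw [← hQ3, evalEval_st]
      have : st UF (Fp p) (fun n => evalEval (β n) (t n) (Q.map (mapRingHom (ev (Fp p) n)))) = 0 := by
        rw [st_eq_zero_iff]
        exact h1
      rw [this, map_zero]
    refine hgeom _ _ ((phi_fixed_iff p _).2 ⟨_, rfl⟩) ((phi_fixed_iff p _).2 ⟨_, rfl⟩) h5 h2
      (inc p (st UF (Fp p) y)) ((phi_fixed_iff p _).2 ⟨_, rfl⟩) ?_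
    have h6 : MvPolynomial.aeval ![inc p (st UF (Fp p) y),
        m * inc p (st UF (Fp p) y) + inc p (st UF (Fp p) β)] F₀ =
        MvPolynomial.eval ![inc p (st UF (Fp p) y),
          inc p (st UF (Fp p) (x * y + β))] FW := by
      rw [← hF₀, MvPolynomial.eval_map, MvPolynomial.aeval_def]
      congr 1
      rw [map_add, map_mul, map_add, map_mul]
    rw [h6, hFW, eval_st]
    have : st UF (Fp p) (fun n => MvPolynomial.eval ![y n, (x * y + β) n]
        (MvPolynomial.map (ev (Fp p) n) G)) = 0 := by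
      rw [st_eq_zero_iff]
      filter_upwards [h3] with n hn
      rw [hG n]
      exact hy n hn
    rw [this, map_zero])
  -- the final inequality
  set N := Q.natDegree with hN
  have hbig : ∀ᶠ n in (UF : Filter ℕ), 4 * N ≤ n ∧ 16 * C₁ ^ 2 ≤ n ∧ 4 * C₂ ≤ n ∧ 1 ≤ n := by
    apply Nat.hyperfilter_le_atTop
    filter_upwards [Filter.eventually_ge_atTop (4 * N), Filter.eventually_ge_atTop (16 * C₁ ^ 2),
      Filter.eventually_ge_atTop (4 * C₂), Filter.eventually_ge_atTop 1] with n h1 h2 h3 h4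
    exact ⟨h1, h2, h3, h4⟩
  obtain ⟨n, h1, h2, h3, h4, h5, h6⟩ := (hC₁.and (hC₂.and hbig)).exists
  have h7 := hIb n (x n) (hx1 n)
  change n * (R n).ncard < p n at h7
  have hpn := hlt n
  set q : ℝ := (p n : ℝ) with hq
  have hq0 : 0 < q := by rw [hq]; exact_mod_cast (hp n).out.pos
  have e1 : (C₁ : ℝ) * √q ≤ q / 4 := by
    have h8 : (4 * C₁ : ℝ) ≤ √q := by
      apply Real.le_sqrt_of_sq_le
      have : ((16 * C₁ ^ 2 : ℕ) : ℝ) ≤ q := by
        rw [hq]
        exact_mod_cast h4.trans hpn.le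
      push_cast at this
      nlinarith
    have h9 : √q * √q = q := Real.mul_self_sqrt hq0.le
    nlinarith [Real.sqrt_nonneg q]
  have e2 : (C₂ : ℝ) ≤ q / 4 := by
    have : ((4 * C₂ : ℕ) : ℝ) ≤ q := by
      rw [hq]
      exact_mod_cast h5.trans hpn.le
    push_cast at this
    linarith
  have e3 : (N : ℝ) * ((R n).ncard : ℝ) ≤ q / 4 := by
    have h8 : ((4 * N : ℕ) : ℝ) * (R n).ncard ≤ q := by
      have : (4 * N) * (R n).ncard ≤ p n := (Nat.mul_le_mul_right _ h3).trans h7.le
      rw [hq]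
      exact_mod_cast this
    push_cast at h8
    linarith
  have e4 : q - C₁ * √q ≤ N * ((R n).ncard : ℝ) + C₂ := by
    refine h1.trans ?_
    exact_mod_cast h2
  linarith

end seq

/-- **The core theorem.** -/
theorem core (d : ℕ) : ∃ M : ℕ, ∀ (p : ℕ) [Fact p.Prime], M < p →
    ∀ F : MvPolynomial (Fin 2) (ZMod p), F ≠ 0 → F.totalDegree ≤ d →
    (∀ L : MvPolynomial (Fin 2) (ZMod p), L.totalDegree = 1 → ¬ L ∣ F) →
    {m : ZMod p | M * {b : ZMod p | ∀ x, MvPolynomial.eval ![x, m * x + b] F ≠ 0}.ncard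
      < p}.ncard ≤ M := by
  classical
  by_contra hcon
  push Not at hcon
  choose p hp hlt F hF hd hlin hI using hcon
  haveI := hp
  refine no_seq p hlt d F hF hd hlin (fun n => (Set.toFinite {m : ZMod (p n) |
    n * {b : ZMod (p n) | ∀ x, MvPolynomial.eval ![x, m * x + b] (F n) ≠ 0}.ncard < p n}).toFinset)
    (fun n => ?_) (fun n m hm => ?_)
  · rw [← Set.ncard_eq_toFinset_card]
    exact hI n
  · rw [Set.Finite.mem_toFinset] at hm
    exact hm

end Pool.Agent.Helper897.BS
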