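import Mathlib

/-! Linear factors of plane curves. -/

set_option autoImplicit false
set_option linter.all false

namespace Pool.Agent.Helper897.BS

open MvPolynomial

/-- main result 1 -/
theorem split_linear {K : Type} [Field K] (f : MvPolynomial (Fin 2) K) (hf : f ≠ 0) :
    ∃ (l : List (MvPolynomial (Fin 2) K)) (g : MvPolynomial (Fin 2) K), f = l.prod * g ∧ g ≠ 0 ∧
      (∀ L ∈ l, L.totalDegree = 1) ∧ l.length + g.totalDegree = f.totalDegree ∧
      ∀ L : MvPolynomial (Fin 2) K, L.totalDegree = 1 → ¬ L ∣ g := by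
  induction hn : f.totalDegree using Nat.strong_induction_on generalizing f with
  | _ n ih =>
    by_cases h : ∃ L : MvPolynomial (Fin 2) K, L.totalDegree = 1 ∧ L ∣ f
    · obtain ⟨L, hL, f', rfl⟩ := h
      have hL0 : L ≠ 0 := left_ne_zero_of_mul hf
      have hf0 : f' ≠ 0 := right_ne_zero_of_mul hf
      have hd := totalDegree_mul_of_isDomain hL0 hf0
      obtain ⟨l, g, h1, h2, h3, h4, h5⟩ := ih f'.totalDegree (by omega) f' hf0 rfl
      refine ⟨L :: l, g, ?_, h2, ?_, ?_, h5⟩
      · rw [List.prod_cons, mul_assoc, ← h1]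
      · intro L' hL'
        rcases List.mem_cons.1 hL' with rfl | hL'
        · exact hL
        · exact h3 L' hL'
      · rw [List.length_cons]
        omega
    · push Not at h
      exact ⟨[], f, by simp, hf, by simp, by simp [hn], h⟩

/-- main result 2 -/
theorem deg_one_form {K : Type} [Field K] (L : MvPolynomial (Fin 2) K) (hL : L.totalDegree = 1) :
    ∃ a b c : K, (a ≠ 0 ∨ b ≠ 0) ∧ L = C a * X 0 + C b * X 1 + C c := by
  have hform : L = C (coeff (Finsupp.single 0 1) L) * X 0 + C (coeff (Finsupp.single 1 1) L) * X 1 +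
      C (coeff 0 L) := by
    ext m
    rw [coeff_add, coeff_add, coeff_C_mul, coeff_C_mul, coeff_X, coeff_X, coeff_C]
    have h01 : (Finsupp.single (1 : Fin 2) 1 : Fin 2 →₀ ℕ) ≠ Finsupp.single 0 1 := by
      intro h
      have := DFunLike.congr_fun h 0
      simp at this
    have h00 : (0 : Fin 2 →₀ ℕ) ≠ Finsupp.single 0 1 := by
      intro h
      have := DFunLike.congr_fun h 0
      simp at this
    have h10 : (0 : Fin 2 →₀ ℕ) ≠ Finsupp.single 1 1 := by
      intro h
      have := DFunLike.congr_fun h 1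
      simp at this
    by_cases hm0 : 0 = m
    · subst hm0
      simp [h00.symm, h10.symm]
    by_cases hm1 : Finsupp.single 0 1 = m
    · subst hm1
      simp [h01, h00]
    by_cases hm2 : Finsupp.single 1 1 = m
    · subst hm2
      simp [h01.symm, h10]
    rw [if_neg hm0, if_neg hm1, if_neg hm2]
    simp only [mul_zero, add_zero]
    by_contra hc
    have hs := le_totalDegree (mem_support_iff.2 hc)
    rw [hL, Finsupp.sum_fintype _ _ (fun _ => rfl), Fin.sum_univ_two] at hs
    rcases Nat.eq_zero_or_pos (m 0) with h0 | h0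
    · rcases Nat.eq_zero_or_pos (m 1) with h1 | h1
      · apply hm0
        ext i
        fin_cases i
        · exact h0.symm
        · exact h1.symm
      · apply hm2
        ext i
        fin_cases i
        · simpa using h0.symm
        · simp
          omega
    · apply hm1
      ext i
      fin_cases i
      · simp
        omega
      · simp
        omega
  refine ⟨_, _, _, ?_, hform⟩
  by_contra hcon
  push Not at hcon
  rw [hcon.1, hcon.2] at hform
  rw [hform] at hL
  simp at hL

/-- the exponent vector of the dehomogenised monomial -/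
noncomputable def LFR_r (m : Fin 3 →₀ ℕ) : Fin 2 →₀ ℕ :=
  Finsupp.single 0 (m 0) + Finsupp.single 1 (m 1)

theorem LFR_r_zero (m : Fin 3 →₀ ℕ) : LFR_r m 0 = m 0 := by
  simp [LFR_r]

theorem LFR_r_one (m : Fin 3 →₀ ℕ) : LFR_r m 1 = m 1 := by
  simp [LFR_r]

theorem LFR_dehom {K : Type} [Field K] (F : MvPolynomial (Fin 3) K) :
    (aeval ![(X 0 : MvPolynomial (Fin 2) K), X 1, 1] F : MvPolynomial (Fin 2) K) =
      ∑ m ∈ F.support, monomial (LFR_r m) (coeff m F) := by
  rw [aeval_def, eval₂_eq']
  refine Finset.sum_congr rfl fun m _ => ?_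
  rw [Fin.prod_univ_three]
  simp only [Matrix.cons_val_zero, Matrix.cons_val_one, Matrix.cons_val_two, Matrix.head_cons,
    Matrix.tail_cons, one_pow, mul_one]
  have h1 : monomial (LFR_r m) (coeff m F) =
      C (coeff m F) * ((X 0 : MvPolynomial (Fin 2) K) ^ m 0 * X 1 ^ m 1) := by
    rw [LFR_r, X_pow_eq_monomial, X_pow_eq_monomial, monomial_mul, C_mul_monomial]
    simp
  rw [h1, algebraMap_eq]

theorem LFR_degree {K : Type} [Field K] {F : MvPolynomial (Fin 3) K} {e : ℕ}
    (hF : F.IsHomogeneous e) {m : Fin 3 →₀ ℕ} (hm : m ∈ F.support) : m 0 + m 1 + m 2 = e := by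
  have h1 := hF (mem_support_iff.1 hm)
  rw [Finsupp.weight_apply, Finsupp.sum_fintype _ _ (fun _ => by simp), Fin.sum_univ_three] at h1
  simpa using h1

/-- main result 3 -/
theorem dehom_ne_zero {K : Type} [Field K] (F : MvPolynomial (Fin 3) K) (e : ℕ)
    (hF : F.IsHomogeneous e) (h0 : F ≠ 0) :
    (aeval ![(X 0 : MvPolynomial (Fin 2) K), X 1, 1] F : MvPolynomial (Fin 2) K) ≠ 0 := by
  intro hG
  obtain ⟨m, hm⟩ := Finset.nonempty_iff_ne_empty.2 (fun h => h0 (support_eq_empty.1 h))
  have h1 := congrArg (coeff (LFR_r m)) hG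
  rw [LFR_dehom, coeff_sum, coeff_zero, Finset.sum_eq_single_of_mem m hm] at h1
  · rw [coeff_monomial, if_pos rfl] at h1
    exact mem_support_iff.1 hm h1
  · intro b hb hbm
    rw [coeff_monomial, if_neg]
    intro hr
    apply hbm
    have e0 : b 0 = m 0 := by
      have := DFunLike.congr_fun hr 0
      rwa [LFR_r_zero, LFR_r_zero] at this
    have e1 : b 1 = m 1 := by
      have := DFunLike.congr_fun hr 1
      rwa [LFR_r_one, LFR_r_one] at this
    have d1 := LFR_degree hF hb
    have d2 := LFR_degree hF hm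
    ext i
    fin_cases i
    · exact e0
    · exact e1
    · simp only [Fin.reduceFinMk]
      omega

/-- main result 4 -/
theorem dehom_totalDegree {K : Type} [Field K] (F : MvPolynomial (Fin 3) K) (e : ℕ)
    (hF : F.IsHomogeneous e) :
    (aeval ![(X 0 : MvPolynomial (Fin 2) K), X 1, 1] F : MvPolynomial (Fin 2) K).totalDegree ≤ e := by
  rw [LFR_dehom]
  refine (totalDegree_finsetSum _ _).trans (Finset.sup_le fun m hm => ?_)
  refine (totalDegree_monomial_le _ _).trans ?_
  rw [Finsupp.sum_fintype _ _ (fun _ => rfl), Fin.sum_univ_two, LFR_r_zero, LFR_r_one]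
  have := LFR_degree hF hm
  simp only [id]
  omega

end Pool.Agent.Helper897.BS
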