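import Mathlib
import Pool.Agent.Helper897_BS.CORE
import Pool.Agent.Helper897_BS.LFR

/-! From the core theorem to sets of points near a curve. -/

set_option autoImplicit false
set_option linter.all false

namespace Pool.Agent.Helper897.BS

open MvPolynomial






/-- The linear form with coefficient vector `u`. -/
def near_curve_aux_lin {K : Type} [Field K] (u : Fin 3 → K) : (Fin 3 → K) →ₗ[K] K where
  toFun v := u 0 * v 0 + u 1 * v 1 + u 2 * v 2
  map_add' v w := by simp only [Pi.add_apply]; ring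
  map_smul' c v := by simp only [Pi.smul_apply, smul_eq_mul, RingHom.id_apply]; ring

theorem near_curve_aux_lin_apply {K : Type} [Field K] (u v : Fin 3 → K) :
    near_curve_aux_lin u v = u 0 * v 0 + u 1 * v 1 + u 2 * v 2 := rfl

theorem near_curve_aux_finrank {K : Type} [Field K] (u : Fin 3 → K) (hu : u ≠ 0) :
    Module.finrank K (LinearMap.ker (near_curve_aux_lin u)) = 2 := by
  have h1 : LinearMap.range (near_curve_aux_lin u) = ⊤ := by
    rw [LinearMap.range_eq_top]
    obtain ⟨i, hi⟩ : ∃ i, u i ≠ 0 := by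
      by_contra hc
      push Not at hc
      exact hu (funext hc)
    intro y
    refine ⟨Pi.single i (y / u i), ?_⟩
    rw [near_curve_aux_lin_apply]
    fin_cases i
    · simp at hi ⊢
      field_simp
    · simp at hi ⊢
      field_simp
    · simp at hi ⊢
      field_simp
  have h2 := LinearMap.finrank_range_add_finrank_ker (near_curve_aux_lin u)
  rw [h1, finrank_top, Module.finrank_self, Module.finrank_fin_fun] at h2
  omega

theorem near_curve_aux_le {K : Type} [Field K] (P : Projectivization K (Fin 3 → K))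
    (u : Fin 3 → K) : P.submodule ≤ LinearMap.ker (near_curve_aux_lin u) ↔
      near_curve_aux_lin u P.rep = 0 := by
  rw [Projectivization.submodule_eq, Submodule.span_singleton_le_iff_mem, LinearMap.mem_ker]

theorem near_curve_aux_hom {K : Type} [Field K] (F : MvPolynomial (Fin 3) K) (e : ℕ)
    (hF : F.IsHomogeneous e) (c : K) (v : Fin 3 → K) :
    eval (fun i => c * v i) F = c ^ e * eval v F := by
  rw [MvPolynomial.eval_eq', MvPolynomial.eval_eq', Finset.mul_sum]
  refine Finset.sum_congr rfl fun d hd => ?_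
  have h1 : d.degree = e := by
    have := hF (MvPolynomial.mem_support_iff.1 hd)
    rw [Finsupp.degree_eq_weight_one]
    exact this
  have h2 : ∏ i, (c * v i) ^ d i = c ^ e * ∏ i, v i ^ d i := by
    rw [← h1]
    simp only [mul_pow, Finset.prod_mul_distrib]
    congr 1
    rw [Finset.prod_pow_eq_pow_sum]
    congr 1
    rw [Finsupp.degree_apply]
    symm
    apply Finset.sum_subset (Finset.subset_univ _)
    intro i _ hi
    simpa using hi
  rw [h2]; ring

theorem near_curve_aux_dehom {K : Type} [Field K] (F : MvPolynomial (Fin 3) K) (e : ℕ)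
    (hF : F.IsHomogeneous e) (v : Fin 3 → K) (hv : v 2 ≠ 0) (h0 : eval v F = 0) :
    eval ![v 0 / v 2, v 1 / v 2]
      (aeval ![(X 0 : MvPolynomial (Fin 2) K), X 1, 1] F : MvPolynomial (Fin 2) K) = 0 := by
  have h1 : eval ![v 0 / v 2, v 1 / v 2]
      (aeval ![(X 0 : MvPolynomial (Fin 2) K), X 1, 1] F : MvPolynomial (Fin 2) K) =
      eval (fun i => (v 2)⁻¹ * v i) F := by
    have h3 : ((eval ![v 0 / v 2, v 1 / v 2]).comp
        (aeval ![(X 0 : MvPolynomial (Fin 2) K), X 1, 1] :
          MvPolynomial (Fin 3) K →ₐ[K] MvPolynomial (Fin 2) K).toRingHom) =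
        eval (fun i => (v 2)⁻¹ * v i) := by
      apply MvPolynomial.ringHom_ext
      · intro r
        simp
      · intro i
        fin_cases i
        · simp [div_eq_inv_mul]
        · simp [div_eq_inv_mul]
        · simp [hv]
    have h4 := congrArg (fun φ => φ F) h3
    simpa using h4
  rw [h1, near_curve_aux_hom F e hF, h0, mul_zero]

theorem near_curve_aux_line {K : Type} [Field K] (L : MvPolynomial (Fin 2) K)
    (hL : L.totalDegree = 1) : ∃ ℓ : Submodule K (Fin 3 → K), Module.finrank K ℓ = 2 ∧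
      ∀ P : Projectivization K (Fin 3 → K), P.rep 2 ≠ 0 →
        eval ![P.rep 0 / P.rep 2, P.rep 1 / P.rep 2] L = 0 → P.submodule ≤ ℓ := by
  obtain ⟨a, b, c, hab, rfl⟩ := deg_one_form L hL
  refine ⟨LinearMap.ker (near_curve_aux_lin ![a, b, c]), near_curve_aux_finrank _ ?_, ?_⟩
  · intro h
    have h0 := congrFun h 0
    have h1 := congrFun h 1
    simp at h0 h1
    rcases hab with hab | hab
    · exact hab h0
    · exact hab h1
  · intro P hP h
    rw [near_curve_aux_le, near_curve_aux_lin_apply]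
    simp at h ⊢
    field_simp at h
    linear_combination h

theorem near_curve_aux_list {α β : Type} [Finite α] (S : β → Set α) (K : ℕ) (l : List β)
    (h : ∀ L ∈ l, (S L).ncard ≤ K) : {P | ∃ L ∈ l, P ∈ S L}.ncard ≤ l.length * K := by
  induction l with
  | nil => simp
  | cons a l ih =>
    have h1 : {P | ∃ L ∈ a :: l, P ∈ S L} = S a ∪ {P | ∃ L ∈ l, P ∈ S L} := by
      ext P
      simp
    rw [h1]
    calc _ ≤ (S a).ncard + {P | ∃ L ∈ l, P ∈ S L}.ncard := Set.ncard_union_le _ _
      _ ≤ K + l.length * K := by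
        have h2 := h a (by simp)
        have h3 := ih (fun L hL => h L (by simp [hL]))
        omega
      _ = (a :: l).length * K := by simp; ring

theorem near_curve_aux_fin {K : Type} [Field K] [Finite K] : Finite (Submodule K (Fin 3 → K)) :=
  Finite.of_injective (fun s : Submodule K (Fin 3 → K) => (s : Set (Fin 3 → K)))
    SetLike.coe_injective

/-- lines through a point -/
theorem near_curve_aux_pt (p : ℕ) [Fact p.Prime] (v : Fin 3 → ZMod p) (hv : v ≠ 0) :
    {z : ZMod p × ZMod p | near_curve_aux_lin ![z.1, -1, z.2] v = 0}.ncard ≤ p := by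
  have hp : (Set.univ : Set (ZMod p)).ncard = p := by
    rw [Set.ncard_univ, Nat.card_eq_fintype_card, ZMod.card]
  conv_rhs => rw [← hp]
  by_cases h2 : v 2 = 0
  · by_cases h0 : v 0 = 0
    · have : {z : ZMod p × ZMod p | near_curve_aux_lin ![z.1, -1, z.2] v = 0} = ∅ := by
        ext z
        simp only [Set.mem_setOf_eq, Set.mem_empty_iff_false, iff_false]
        intro hz
        rw [near_curve_aux_lin_apply] at hz
        simp [h0, h2] at hz
        apply hv
        funext i
        fin_cases i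
        · exact h0
        · exact hz
        · exact h2
      rw [this]
      simp
    · apply Set.ncard_le_ncard_of_injOn Prod.snd (fun _ _ => Set.mem_univ _)
      intro z hz w hw hzw
      simp only [Set.mem_setOf_eq, near_curve_aux_lin_apply] at hz hw
      simp [h2] at hz hw
      apply Prod.ext _ hzw
      have : (z.1 - w.1) * v 0 = 0 := by linear_combination hz - hw
      rcases mul_eq_zero.1 this with h | h
      · exact sub_eq_zero.1 h
      · exact absurd h h0
  · apply Set.ncard_le_ncard_of_injOn Prod.fst (fun _ _ => Set.mem_univ _)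
    intro z hz w hw hzw
    simp only [Set.mem_setOf_eq, near_curve_aux_lin_apply] at hz hw
    simp at hz hw
    apply Prod.ext hzw
    rw [hzw] at hz
    have : (z.2 - w.2) * v 2 = 0 := by linear_combination hz - hw
    rcases mul_eq_zero.1 this with h | h
    · exact sub_eq_zero.1 h
    · exact absurd h h2

theorem near_curve_aux_inj (p : ℕ) [Fact p.Prime] (z w : ZMod p × ZMod p)
    (h : LinearMap.ker (near_curve_aux_lin ![z.1, -1, z.2]) =
      LinearMap.ker (near_curve_aux_lin ![w.1, -1, w.2])) : z = w := by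
  have h1 : (![1, z.1, 0] : Fin 3 → ZMod p) ∈
      LinearMap.ker (near_curve_aux_lin ![z.1, -1, z.2]) := by
    rw [LinearMap.mem_ker, near_curve_aux_lin_apply]; simp
  have h2 : (![0, z.2, 1] : Fin 3 → ZMod p) ∈
      LinearMap.ker (near_curve_aux_lin ![z.1, -1, z.2]) := by
    rw [LinearMap.mem_ker, near_curve_aux_lin_apply]; simp
  rw [h, LinearMap.mem_ker, near_curve_aux_lin_apply] at h1 h2
  simp at h1 h2
  apply Prod.ext
  · linear_combination -h1
  · linear_combination -h2

/-- the number of good pairs -/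
theorem near_curve_aux_A (p N : ℕ) [Fact p.Prime] (S : Set (ZMod p × ZMod p))
    (h : {m : ZMod p | N * {b : ZMod p | (m, b) ∈ S}.ncard < p}.ncard ≤ N) :
    p * p ≤ N * S.ncard + N * p := by
  classical
  have hp : Fintype.card (ZMod p) = p := ZMod.card p
  have hS : S.ncard = ∑ m : ZMod p, {b : ZMod p | (m, b) ∈ S}.ncard := by
    have e1 : S.ncard = ∑ z : ZMod p × ZMod p, if z ∈ S then 1 else 0 := by
      rw [Set.ncard_eq_toFinset_card', Finset.sum_boole]
      simp
    rw [e1, Fintype.sum_prod_type]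
    refine Finset.sum_congr rfl fun m _ => ?_
    rw [Set.ncard_eq_toFinset_card', Finset.sum_boole]
    simp
  set T : Finset (ZMod p) := Finset.univ.filter
    (fun m => N * {b : ZMod p | (m, b) ∈ S}.ncard < p) with hT
  have hTc : T.card ≤ N := by
    have : {m : ZMod p | N * {b : ZMod p | (m, b) ∈ S}.ncard < p}.ncard = T.card := by
      rw [Set.ncard_eq_toFinset_card', hT]
      congr 1
      ext m
      simp
    rw [← this]; exact h
  have h1 : ∑ m : ZMod p, p ≤ ∑ m : ZMod p,
      (N * {b : ZMod p | (m, b) ∈ S}.ncard + if m ∈ T then p else 0) := by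
    apply Finset.sum_le_sum
    intro m _
    by_cases hm : m ∈ T
    · simp [hm]
    · simp only [hm, if_false, add_zero]
      simp only [hT, Finset.mem_filter, Finset.mem_univ, true_and, not_lt] at hm
      exact hm
  rw [Finset.sum_add_distrib, ← Finset.mul_sum, ← hS, Finset.sum_const, Finset.card_univ, hp,
    smul_eq_mul, Finset.sum_ite_mem, Finset.univ_inter, Finset.sum_const, smul_eq_mul] at h1
  calc p * p ≤ _ := h1
    _ ≤ N * S.ncard + N * p := by
      have := Nat.mul_le_mul_right p hTc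
      omega

/-- main result of the file -/
theorem near_curve (K d : ℕ) : ∃ c : ℝ, 0 < c ∧ ∃ p₀ : ℕ, ∀ (p : ℕ) [Fact p.Prime], p₀ < p →
    ∀ B : Set (Projectivization (ZMod p) (Fin 3 → ZMod p)),
    (∀ ℓ : Submodule (ZMod p) (Fin 3 → ZMod p), Module.finrank (ZMod p) ℓ = 2 →
      {P | P ∈ B ∧ P.submodule ≤ ℓ}.ncard ≤ K) →
    ∀ (e : ℕ) (F : MvPolynomial (Fin 3) (ZMod p)), e ≤ d → F.IsHomogeneous e → F ≠ 0 →
    c * (p : ℝ) ^ 2 ≤
      ({ℓ : Submodule (ZMod p) (Fin 3 → ZMod p) | Module.finrank (ZMod p) ℓ = 2 ∧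
        ∀ P ∈ B, ¬ P.submodule ≤ ℓ}.ncard : ℝ) +
      p * ({P | P ∈ B ∧ eval P.rep F ≠ 0}.ncard : ℝ) := by
  classical
  obtain ⟨M, hM⟩ := core d
  set N := M + 1 with hN
  refine ⟨1 / (2 * N), by positivity, 2 * N * (1 + (d + 1) * K) + M, ?_⟩
  intro p hp hpp B hB e F he hF hF0
  have := @near_curve_aux_fin (ZMod p) _ _
  have hMp : M < p := by omega
  -- the dehomogenised polynomial
  set f : MvPolynomial (Fin 2) (ZMod p) := aeval ![(X 0 : MvPolynomial (Fin 2) (ZMod p)), X 1, 1] F
    with hf
  have hf0 : f ≠ 0 := dehom_ne_zero F e hF hF0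
  have hfd : f.totalDegree ≤ e := dehom_totalDegree F e hF
  obtain ⟨l, g, hfg, hg0, hl1, hlen, hgL⟩ := split_linear f hf0
  have hgd : g.totalDegree ≤ d := by omega
  have hld : l.length ≤ d := by omega
  have hc := hM p hMp g hg0 hgd hgL
  -- good pairs
  set A : Set (ZMod p × ZMod p) := {z | ∀ x, eval ![x, z.1 * x + z.2] g ≠ 0} with hA
  have hcard : p * p ≤ N * A.ncard + N * p := by
    apply near_curve_aux_A
    refine le_trans (le_trans (Set.ncard_le_ncard ?_) hc) (by omega)
    intro m hm
    simp only [Set.mem_setOf_eq, hA] at hm ⊢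
    refine lt_of_le_of_lt ?_ hm
    exact Nat.mul_le_mul_right _ (by omega)
  -- the lines
  let line : ZMod p × ZMod p → Submodule (ZMod p) (Fin 3 → ZMod p) :=
    fun z => LinearMap.ker (near_curve_aux_lin ![z.1, -1, z.2])
  have hline2 : ∀ z, Module.finrank (ZMod p) (line z) = 2 := by
    intro z
    apply near_curve_aux_finrank
    intro h
    have := congrFun h 1
    simp at this
  set S : Set (Submodule (ZMod p) (Fin 3 → ZMod p)) :=
    {ℓ | Module.finrank (ZMod p) ℓ = 2 ∧ ∀ P ∈ B, ¬ P.submodule ≤ ℓ} with hS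
  set Bad : Set (ZMod p × ZMod p) := {z | z ∈ A ∧ ∃ P ∈ B, P.submodule ≤ line z} with hBad
  have hAS : (A \ Bad).ncard ≤ S.ncard := by
    apply Set.ncard_le_ncard_of_injOn line
    · intro z hz
      refine ⟨hline2 z, fun P hP hle => hz.2 ⟨hz.1, P, hP, hle⟩⟩
    · intro z _ w _ h
      exact near_curve_aux_inj p z w h
  have hAB : A.ncard ≤ (A \ Bad).ncard + Bad.ncard := by
    have := Set.ncard_le_ncard_diff_add_ncard A Bad
    exact this
  -- lines of the linear factors
  have hch : ∀ L : MvPolynomial (Fin 2) (ZMod p), ∃ ℓ : Submodule (ZMod p) (Fin 3 → ZMod p),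
      L.totalDegree = 1 → (Module.finrank (ZMod p) ℓ = 2 ∧
      ∀ P : Projectivization (ZMod p) (Fin 3 → ZMod p), P.rep 2 ≠ 0 →
        eval ![P.rep 0 / P.rep 2, P.rep 1 / P.rep 2] L = 0 → P.submodule ≤ ℓ) := by
    intro L
    by_cases hL : L.totalDegree = 1
    · obtain ⟨ℓ, h1, h2⟩ := near_curve_aux_line L hL
      exact ⟨ℓ, fun _ => ⟨h1, h2⟩⟩
    · exact ⟨⊥, fun h => absurd h hL⟩
  choose sub hsub using hch
  set B1 : Set (Projectivization (ZMod p) (Fin 3 → ZMod p)) := {P | P ∈ B ∧ eval P.rep F ≠ 0}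
    with hB1
  set B2 : Set (Projectivization (ZMod p) (Fin 3 → ZMod p)) :=
    {P | P ∈ B ∧ P.submodule ≤ LinearMap.ker (near_curve_aux_lin ![0, 0, 1])} with hB2
  set B3 : Set (Projectivization (ZMod p) (Fin 3 → ZMod p)) :=
    {P | ∃ L ∈ l, P ∈ {P | P ∈ B ∧ P.submodule ≤ sub L}} with hB3
  have hB2c : B2.ncard ≤ K := by
    apply hB
    apply near_curve_aux_finrank
    intro h
    have := congrFun h 2
    simp at this
  have hB3c : B3.ncard ≤ l.length * K := by
    apply near_curve_aux_list
    intro L hL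
    exact hB _ (hsub L (hl1 L hL)).1
  set B' := B1 ∪ (B2 ∪ B3) with hB'
  have hB'c : B'.ncard ≤ B1.ncard + (d + 1) * K := by
    have h1 := Set.ncard_union_le B1 (B2 ∪ B3)
    have h2 := Set.ncard_union_le B2 B3
    have h3 : l.length * K ≤ d * K := Nat.mul_le_mul_right K hld
    have h4 : (d + 1) * K = d * K + K := by ring
    calc B'.ncard = (B1 ∪ (B2 ∪ B3)).ncard := rfl
      _ ≤ B1.ncard + (d + 1) * K := by omega
  have hBadsub : Bad ⊆ ⋃ P ∈ B', {z | near_curve_aux_lin ![z.1, -1, z.2] P.rep = 0} := by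
    rintro z ⟨hzA, P, hPB, hP⟩
    have hP' := (near_curve_aux_le P _).1 hP
    simp only [Set.mem_iUnion]
    refine ⟨P, ?_, hP'⟩
    by_cases h1 : eval P.rep F ≠ 0
    · exact Or.inl ⟨hPB, h1⟩
    right
    push Not at h1
    by_cases h2 : P.rep 2 = 0
    · left
      refine ⟨hPB, ?_⟩
      rw [near_curve_aux_le, near_curve_aux_lin_apply]
      simp [h2]
    right
    have h3 := near_curve_aux_dehom F e hF P.rep h2 h1
    rw [← hf, hfg, map_mul] at h3
    have h4 : eval ![P.rep 0 / P.rep 2, P.rep 1 / P.rep 2] g ≠ 0 := by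
      have h5 := hzA (P.rep 0 / P.rep 2)
      have h6 : z.1 * (P.rep 0 / P.rep 2) + z.2 = P.rep 1 / P.rep 2 := by
        rw [near_curve_aux_lin_apply] at hP'
        simp at hP'
        field_simp
        linear_combination hP'
      rw [h6] at h5
      exact h5
    have h5 : eval ![P.rep 0 / P.rep 2, P.rep 1 / P.rep 2] l.prod = 0 := by
      rcases mul_eq_zero.1 h3 with h | h
      · exact h
      · exact absurd h h4
    rw [map_list_prod, List.prod_eq_zero_iff, List.mem_map] at h5
    obtain ⟨L, hL, hL0⟩ := h5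
    exact ⟨L, hL, hPB, (hsub L (hl1 L hL)).2 P h2 hL0⟩
  have hBadc : Bad.ncard ≤ B'.ncard * p := by
    have h1 : Bad.ncard ≤ (⋃ P ∈ B', {z : ZMod p × ZMod p |
        near_curve_aux_lin ![z.1, -1, z.2] P.rep = 0}).ncard := Set.ncard_le_ncard hBadsub
    refine le_trans h1 ?_
    have hfin : B'.Finite := Set.toFinite _
    have h2 : (⋃ P ∈ B', {z : ZMod p × ZMod p | near_curve_aux_lin ![z.1, -1, z.2] P.rep = 0}) =
      ((hfin.toFinset.biUnion (fun P => (Set.toFinite {z : ZMod p × ZMod p |
        near_curve_aux_lin ![z.1, -1, z.2] P.rep = 0}).toFinset) : Finset (ZMod p × ZMod p)) :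
          Set (ZMod p × ZMod p)) := by
      ext z
      simp
    rw [h2, Set.ncard_coe_finset, Set.ncard_eq_toFinset_card B' hfin]
    apply Finset.card_biUnion_le_card_mul
    intro P _
    rw [← Set.ncard_eq_toFinset_card]
    exact near_curve_aux_pt p P.rep P.rep_nonzero
  -- final arithmetic
  have hfinal : p * p ≤ N * (S.ncard + (B1.ncard + (d + 1) * K) * p) + N * p := by
    have h1 : Bad.ncard ≤ (B1.ncard + (d + 1) * K) * p :=
      le_trans hBadc (Nat.mul_le_mul_right p hB'c)
    calc p * p ≤ N * A.ncard + N * p := hcard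
      _ ≤ N * (S.ncard + (B1.ncard + (d + 1) * K) * p) + N * p := by
        have : A.ncard ≤ S.ncard + (B1.ncard + (d + 1) * K) * p := by omega
        have := Nat.mul_le_mul_left N this
        omega
  have hNpos : (0 : ℝ) < N := by positivity
  have hR : (p : ℝ) * p ≤ N * (S.ncard + (B1.ncard + (d + 1) * K) * p) + N * p := by
    exact_mod_cast hfinal
  have hpR : (2 * N * (1 + (d + 1) * K) : ℝ) ≤ p := by
    have : 2 * N * (1 + (d + 1) * K) ≤ p := by omega
    exact_mod_cast this
  have hp0 : (0 : ℝ) ≤ p := by positivity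
  have h7 : (2 * N * (1 + (d + 1) * K) : ℝ) * p ≤ p * p := mul_le_mul_of_nonneg_right hpR hp0
  have h8 : 1 / (2 * (N : ℝ)) * (p : ℝ) ^ 2 = ((p : ℝ) * p) / (2 * N) := by
    field_simp
  rw [h8, div_le_iff₀ (by positivity)]
  nlinarith [h7, hR]

end Pool.Agent.Helper897.BS
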