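import Mathlib

/-! Derivations not killing a transcendental element. -/

set_option autoImplicit false
set_option linter.all false

namespace Pool.Agent.Helper897.BS

open scoped IntermediateField.algebraAdjoinAdjoin TensorProduct

/-- the partial derivative on the algebra generated by algebraically independent elements -/
noncomputable def exDer_d {k W ι : Type} [Field k] [Field W] [Algebra k W] {x : ι → W}
    (hx : AlgebraicIndependent k x) (i : ι) :
    Derivation k (Algebra.adjoin k (Set.range x)) (Algebra.adjoin k (Set.range x)) where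
  toLinearMap := (hx.aevalEquiv.toLinearMap).comp
    ((MvPolynomial.pderiv i).toLinearMap.comp hx.aevalEquiv.symm.toLinearMap)
  map_one_eq_zero' := by simp
  leibniz' a b := by simp

theorem exists_derivation_aux {k W ι : Type} [Field k] [CharZero k] [Field W] [Algebra k W]
    {x : ι → W} (hx : IsTranscendenceBasis k x) (i : ι) :
    ∃ D : Derivation k W W, D (x i) = 1 := by
  set A := Algebra.adjoin k (Set.range x) with hA
  set E := IntermediateField.adjoin k (Set.range x) with hE
  have hc : CharZero E := charZero_of_injective_algebraMap (algebraMap k E).injective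
  have halg : Algebra.IsAlgebraic E W := hx.isAlgebraic_field
  have hsep : Algebra.IsSeparable E W := Algebra.IsAlgebraic.isSeparable_of_perfectField
  have h1 : Algebra.FormallyEtale E W := Algebra.FormallyEtale.of_isSeparable _ _
  have h2 : Algebra.FormallyEtale A E := Algebra.FormallyEtale.of_isLocalization (nonZeroDivisors A)
  have h3 : Algebra.FormallyEtale A W := Algebra.FormallyEtale.comp A E W
  let d : Derivation k A W := (Algebra.linearMap A W).compDer (exDer_d hx.1 i)
  let ψ : W ⊗[A] Ω[A⁄k] →ₗ[W] W := LinearMap.liftBaseChange W d.liftKaehlerDifferential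
  let D : Derivation k W W := (ψ ∘ₗ
    (KaehlerDifferential.tensorKaehlerEquivOfFormallyEtale k A W).symm.toLinearMap).compDer
      (KaehlerDifferential.D k W)
  refine ⟨D, ?_⟩
  have hxi : x i = algebraMap A W (hx.1.aevalEquiv (MvPolynomial.X i)) := by
    rw [AlgebraicIndependent.algebraMap_aevalEquiv, MvPolynomial.aeval_X]
  have e1 : D (x i) = ψ ((KaehlerDifferential.tensorKaehlerEquivOfFormallyEtale k A W).symm
      (KaehlerDifferential.D k W (x i))) := rfl
  rw [e1, hxi, KaehlerDifferential.tensorKaehlerEquivOfFormallyEtale_symm_D_algebraMap]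
  have e2 : ψ (1 ⊗ₜ[A] KaehlerDifferential.D k A (hx.1.aevalEquiv (MvPolynomial.X i))) =
      d (hx.1.aevalEquiv (MvPolynomial.X i)) := by
    change LinearMap.liftBaseChange W d.liftKaehlerDifferential _ = _
    rw [LinearMap.liftBaseChange_tmul, one_smul, Derivation.liftKaehlerDifferential_comp_D]
  rw [e2]
  change algebraMap A W (hx.1.aevalEquiv (MvPolynomial.pderiv i
    (hx.1.aevalEquiv.symm (hx.1.aevalEquiv (MvPolynomial.X i))))) = 1
  rw [AlgEquiv.symm_apply_apply, MvPolynomial.pderiv_X_self, map_one, map_one]

/-- main result of the file -/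
theorem exists_derivation {k W : Type} [Field k] [CharZero k] [Field W] [Algebra k W] (m : W)
    (hm : Transcendental k m) : ∃ D : Derivation k W W, D m ≠ 0 := by
  have h0 : AlgebraicIndepOn k (id : W → W) {m} := by
    have h1 : AlgebraicIndependent k (fun y : ({m} : Set W) => id (y : W)) :=
      algebraicIndependent_unique_type_iff.mpr hm
    exact h1
  obtain ⟨t, hmt, ht⟩ := exists_isTranscendenceBasis_superset h0
  obtain ⟨D, hD⟩ := exists_derivation_aux ht ⟨m, hmt rfl⟩
  refine ⟨D, ?_⟩
  have hD' : D m = 1 := hD
  rw [hD']
  exact one_ne_zero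

end Pool.Agent.Helper897.BS
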