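import Mathlib

/-!
Blocking sets of `PG(2,p)` and algebraic curves (helper897, MP_6b99df_co): common definitions.
-/

set_option autoImplicit false

namespace Pool.Agent.Helper897.BS

open Polynomial

/-- The polynomial `H(x, m x + b)`; the outer variable is `x`, the inner one is `b`. -/
noncomputable def lineP {k R : Type} [CommRing k] [CommRing R] [Algebra k R] (m : R) :
    MvPolynomial (Fin 2) k →ₐ[k] R[X][X] :=
  MvPolynomial.aeval ![X, C (C m) * X + C X]

/-- The restriction `H(x, m x + b)` of `H` to a line. -/
noncomputable def rl {k R : Type} [CommRing k] [CommRing R] [Algebra k R] (m b : R) :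
    MvPolynomial (Fin 2) k →ₐ[k] R[X] :=
  MvPolynomial.aeval ![X, C m * X + C b]

/-- The field of rational functions in `b`. -/
abbrev KK (W : Type) [Field W] : Type := FractionRing W[X]

/-- The algebraic closure of the field of rational functions in `b`. -/
abbrev EE (W : Type) [Field W] : Type := AlgebraicClosure (KK W)

end Pool.Agent.Helper897.BS
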