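import Mathlib

/-! The stable irreducible factors of a stable polynomial in two variables. -/

set_option autoImplicit false
set_option linter.all false

namespace Pool.Agent.Helper897.BS

open MvPolynomial

/-- An irreducible polynomial over a factorial ring and a polynomial which it does not divide
generate an ideal containing a nonzero constant. -/
theorem fac_bez {R : Type} [CommRing R] [IsDomain R] [UniqueFactorizationMonoid R]
    (F B : Polynomial R) (hF : Irreducible F) (hFB : ¬ F ∣ B) :
    ∃ (r : R) (a b : Polynomial R), r ≠ 0 ∧ a * F + b * B = Polynomial.C r := by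
  classical
  by_cases hd : F.natDegree = 0
  · obtain ⟨r, hr⟩ := Polynomial.natDegree_eq_zero.mp hd
    refine ⟨r, 1, 0, ?_, by rw [one_mul, zero_mul, add_zero, hr]⟩
    rintro rfl
    apply hF.ne_zero
    rw [← hr, Polynomial.C_0]
  have hprim : F.IsPrimitive := hF.isPrimitive hd
  let K := FractionRing R
  let φ : R →+* K := algebraMap R K
  have hφ : Function.Injective φ := IsFractionRing.injective R K
  have hFK : Irreducible (F.map φ) :=
    (hprim.irreducible_iff_irreducible_map_fraction_map (K := K)).1 hF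
  have hnd : ¬ (F.map φ ∣ B.map φ) := by
    rintro ⟨g, hg⟩
    have h1 : F.map φ * g ∈ Polynomial.lifts φ := by rw [← hg]; exact ⟨B, rfl⟩
    have h2 : g ∈ Polynomial.lifts φ := (hprim.map_mul_mem_lifts_iff (K := K)).1 h1
    obtain ⟨g', hg'⟩ := h2
    apply hFB
    refine ⟨g', Polynomial.map_injective φ hφ ?_⟩
    rw [Polynomial.map_mul, hg]
    congr 1
    exact hg'.symm
  obtain ⟨u, v, huv⟩ := (hFK.coprime_iff_not_dvd).2 hnd
  obtain ⟨d1, hd1, hu⟩ := IsLocalization.integerNormalization_spec (nonZeroDivisors R) u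
  obtain ⟨d2, hd2, hv⟩ := IsLocalization.integerNormalization_spec (nonZeroDivisors R) v
  set U := IsLocalization.integerNormalization (nonZeroDivisors R) u
  set V := IsLocalization.integerNormalization (nonZeroDivisors R) v
  refine ⟨d1 * d2, Polynomial.C d2 * U, Polynomial.C d1 * V,
    mul_ne_zero (nonZeroDivisors.ne_zero hd1) (nonZeroDivisors.ne_zero hd2), ?_⟩
  apply Polynomial.map_injective φ hφ
  simp only [Polynomial.map_add, Polynomial.map_mul, Polynomial.map_C, map_mul]
  have hu' : U.map φ = Polynomial.C (φ d1) * u := by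
    rw [hu, Algebra.smul_def]; rfl
  have hv' : V.map φ = Polynomial.C (φ d2) * v := by
    rw [hv, Algebra.smul_def]; rfl
  rw [hu', hv']
  have : Polynomial.C (φ d2) * (Polynomial.C (φ d1) * u) * F.map φ +
      Polynomial.C (φ d1) * (Polynomial.C (φ d2) * v) * B.map φ
      = Polynomial.C (φ d1) * Polynomial.C (φ d2) * (u * F.map φ + v * B.map φ) := by ring
  rw [this, huv, mul_one]

/-- The second coordinates of the common zeros. -/
theorem fac_snd {k W : Type} [Field k] [Field W] [Algebra k W]
    (H G : MvPolynomial (Fin 2) k) (hH : Irreducible H) (hHG : ¬ H ∣ G) :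
    ∃ S : Finset W, ∀ x y : W, aeval ![x, y] H = 0 → aeval ![x, y] G = 0 → y ∈ S := by
  classical
  let e := finSuccEquiv k 1
  have h1 : Irreducible (e H) := (MulEquiv.irreducible_iff e.toMulEquiv).mpr hH
  have h2 : ¬ e H ∣ e G := fun h => hHG ((map_dvd_iff e).mp h)
  obtain ⟨r, a, b, hr, hab⟩ := fac_bez (e H) (e G) h1 h2
  let r' : Polynomial k := uniqueAlgEquiv k (Fin 1) r
  have hr' : r' ≠ 0 := by
    intro h
    apply hr
    exact (map_eq_zero_iff _ (uniqueAlgEquiv k (Fin 1)).injective).mp h
  have hinj : Function.Injective (algebraMap k W) := (algebraMap k W).injective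
  refine ⟨(r'.map (algebraMap k W)).roots.toFinset, fun x y hx hy => ?_⟩
  rw [Multiset.mem_toFinset, Polynomial.mem_roots ((Polynomial.map_ne_zero_iff hinj).mpr hr'),
    Polynomial.IsRoot.def, Polynomial.eval_map_algebraMap]
  -- evaluation on polynomials in `X` over `MvPolynomial (Fin 1) k`
  have key : ∀ p : Polynomial (MvPolynomial (Fin 1) k),
      aeval ![x, y] (e.symm p) = Polynomial.eval₂ ((aeval (R := k) (fun _ : Fin 1 => y)).toRingHom) x p := by
    intro p
    have h3 : ((aeval (R := k) ![x, y]).toRingHom.comp e.symm.toRingEquiv.toRingHom) =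
        Polynomial.eval₂RingHom ((aeval (R := k) (fun _ : Fin 1 => y)).toRingHom) x := by
      refine Polynomial.ringHom_ext ?_ ?_
      · intro c
        induction c using MvPolynomial.induction_on with
        | C c =>
          have h4 : e.symm (Polynomial.C (C c)) = C c := by
            rw [AlgEquiv.symm_apply_eq]
            simp [e, finSuccEquiv_apply]
          change aeval ![x, y] (e.symm (Polynomial.C (C c))) = _
          rw [h4]
          simp
        | add p q hp hq =>
          rw [Polynomial.C_add, map_add, hp, hq, ← map_add]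
        | mul_X p i hp =>
          rw [Polynomial.C_mul, map_mul, hp, map_mul]
          congr 1
          have h4 : e.symm (Polynomial.C (X i)) = X i.succ := by
            rw [AlgEquiv.symm_apply_eq]
            exact finSuccEquiv_X_succ.symm
          change aeval ![x, y] (e.symm (Polynomial.C (X i))) = _
          rw [h4]
          have hi : i = 0 := Subsingleton.elim _ _
          subst hi
          simp
      · have h4 : e.symm Polynomial.X = X 0 := by
          rw [AlgEquiv.symm_apply_eq]
          exact finSuccEquiv_X_zero.symm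
        change aeval ![x, y] (e.symm Polynomial.X) = _
        rw [h4]
        simp
    exact RingHom.congr_fun h3 p
  have h5 := key (a * e H + b * e G)
  rw [map_add, map_mul, map_mul, AlgEquiv.symm_apply_apply, AlgEquiv.symm_apply_apply,
    map_add, map_mul, map_mul, hx, hy, mul_zero, mul_zero, add_zero, hab,
    Polynomial.eval₂_C] at h5
  have h6 : Polynomial.aeval y r' = aeval (R := k) (fun _ : Fin 1 => y) r := by
    have h7 : (Polynomial.aeval (R := k) y).comp (uniqueAlgEquiv k (Fin 1)).toAlgHom =
        aeval (R := k) (fun _ : Fin 1 => y) := by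
      refine MvPolynomial.algHom_ext fun i => ?_
      simp
    exact AlgHom.congr_fun h7 r
  rw [h6]
  exact h5.symm

/-- Common zeros of an irreducible polynomial and of a polynomial which it does not divide. -/
theorem fac_zeros {k W : Type} [Field k] [Field W] [Algebra k W]
    (H G : MvPolynomial (Fin 2) k) (hH : Irreducible H) (hHG : ¬ H ∣ G) :
    ∃ Z : Finset (W × W), ∀ x y : W, aeval ![x, y] H = 0 → aeval ![x, y] G = 0 → (x, y) ∈ Z := by
  classical
  obtain ⟨S, hS⟩ := fac_snd (W := W) H G hH hHG
  let e := renameEquiv k (Equiv.swap (0 : Fin 2) 1)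
  have h1 : Irreducible (e H) := (MulEquiv.irreducible_iff e.toMulEquiv).mpr hH
  have h2 : ¬ e H ∣ e G := fun h => hHG ((map_dvd_iff e).mp h)
  obtain ⟨S', hS'⟩ := fac_snd (W := W) (e H) (e G) h1 h2
  refine ⟨S' ×ˢ S, fun x y hx hy => ?_⟩
  rw [Finset.mem_product]
  have key : ∀ p, aeval ![y, x] (e p) = aeval ![x, y] p := by
    intro p
    change aeval ![y, x] (rename (Equiv.swap (0 : Fin 2) 1) p) = _
    rw [aeval_rename]
    congr 1
    congr 1
    funext i
    fin_cases i <;> simp
  exact ⟨hS' y x (by rw [key]; exact hx) (by rw [key]; exact hy), hS x y hx hy⟩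

section norm

variable {k : Type} [Field k]

/-- a chosen exponent in a nonempty finite set -/
noncomputable def facM (S : Finset (Fin 2 →₀ ℕ)) : Fin 2 →₀ ℕ := by
  classical
  exact if h : S.Nonempty then h.choose else 0

theorem facM_mem {S : Finset (Fin 2 →₀ ℕ)} (h : S.Nonempty) : facM S ∈ S := by
  classical
  unfold facM
  rw [dif_pos h]
  exact h.choose_spec

/-- the chosen coefficient -/
noncomputable def facC (H : MvPolynomial (Fin 2) k) : k := coeff (facM H.support) H

theorem facC_ne {H : MvPolynomial (Fin 2) k} (h : H ≠ 0) : facC H ≠ 0 :=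
  mem_support_iff.mp (facM_mem (support_nonempty.mpr h))

/-- the multiple with chosen coefficient equal to one -/
noncomputable def facN (H : MvPolynomial (Fin 2) k) : MvPolynomial (Fin 2) k := C (facC H)⁻¹ * H

theorem facN_assoc {H : MvPolynomial (Fin 2) k} (h : H ≠ 0) : Associated (facN H) H := by
  have h1 : IsUnit (C (facC H)⁻¹ : MvPolynomial (Fin 2) k) :=
    (isUnit_iff_ne_zero.mpr (inv_ne_zero (facC_ne h))).map C
  exact (associated_isUnit_mul_left_iff h1).mpr (Associated.refl H)

theorem facN_eq_of_assoc {H G : MvPolynomial (Fin 2) k} (h : H ≠ 0) (hHG : Associated H G) :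
    facN H = facN G := by
  classical
  obtain ⟨u, rfl⟩ := hHG
  obtain ⟨c, hc, hu⟩ := isUnit_iff_eq_C_of_isReduced.mp u.isUnit
  have hc0 : c ≠ 0 := hc.ne_zero
  rw [hu]
  have hs : (H * C c).support = H.support := by
    ext m
    rw [mem_support_iff, mem_support_iff, mul_comm, coeff_C_mul]
    exact ⟨fun h h' => h (by rw [h', mul_zero]), fun h => mul_ne_zero hc0 h⟩
  unfold facN facC
  rw [hs, mul_comm H (C c), coeff_C_mul, mul_inv, ← mul_assoc, ← C_mul]
  congr 2
  field_simp

theorem facN_map (φ₀ : k ≃+* k) (H : MvPolynomial (Fin 2) k) :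
    map φ₀.toRingHom (facN H) = facN (map φ₀.toRingHom H) := by
  have hs : (map φ₀.toRingHom H).support = H.support :=
    support_map_of_injective H φ₀.injective
  unfold facN facC
  rw [hs, map_mul, map_C, coeff_map]
  congr 2
  exact map_inv₀ φ₀.toRingHom _

end norm

/-- main result of the file -/
theorem factors_exist {k W : Type} [Field k] [IsAlgClosed k] [CharZero k] [Field W] [Algebra k W]
    (φ₀ : k ≃+* k) (φ : W ≃+* W) (hφ : ∀ c, φ (algebraMap k W c) = algebraMap k W (φ₀ c))
    (F : MvPolynomial (Fin 2) k) (hF : F ≠ 0) (hFφ : map φ₀.toRingHom F = F)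
    (hlin : ∀ L : MvPolynomial (Fin 2) k, map φ₀.toRingHom L = L → L.totalDegree = 1 → ¬ L ∣ F) :
    ∃ (s : Finset (MvPolynomial (Fin 2) k)) (Z : Finset (W × W)),
      (∀ H ∈ s, Irreducible H ∧ 2 ≤ H.totalDegree ∧ map φ₀.toRingHom H = H) ∧
      Squarefree (∏ H ∈ s, H) ∧
      ∀ x y : W, φ x = x → φ y = y → aeval ![x, y] F = 0 →
        (x, y) ∈ Z ∨ ∃ H ∈ s, aeval ![x, y] H = 0 := by
  classical
  let fs : Finset (MvPolynomial (Fin 2) k) := (UniqueFactorizationMonoid.factors F).toFinset
  have hfs : ∀ H ∈ fs, Irreducible H ∧ H ∣ F := by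
    intro H hH
    have hH' := Multiset.mem_toFinset.mp hH
    exact ⟨UniqueFactorizationMonoid.irreducible_of_factor H hH',
      UniqueFactorizationMonoid.dvd_of_mem_factors hH'⟩
  have hΦ : ∀ H : MvPolynomial (Fin 2) k, Irreducible H → Irreducible (map φ₀.toRingHom H) := by
    intro H hH
    exact (MulEquiv.irreducible_iff (MvPolynomial.mapEquiv (Fin 2) φ₀).toMulEquiv).mpr hH
  -- the finite sets of case (b)
  have hb : ∀ H : MvPolynomial (Fin 2) k, ∃ Z : Finset (W × W), H ∈ fs →
      ¬ Associated (map φ₀.toRingHom H) H → ∀ x y : W, aeval ![x, y] H = 0 →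
        aeval ![x, y] (map φ₀.toRingHom H) = 0 → (x, y) ∈ Z := by
    intro H
    by_cases h1 : H ∈ fs ∧ ¬ Associated (map φ₀.toRingHom H) H
    · obtain ⟨h2, h3⟩ := h1
      have h4 : ¬ H ∣ map φ₀.toRingHom H := fun hd =>
        h3 ((hfs H h2).1.associated_of_dvd (hΦ H (hfs H h2).1) hd).symm
      obtain ⟨Z, hZ⟩ := fac_zeros (W := W) H _ (hfs H h2).1 h4
      exact ⟨Z, fun _ _ => hZ⟩
    · exact ⟨∅, fun h2 h3 => absurd ⟨h2, h3⟩ h1⟩
  choose Z hZ using hb
  let s : Finset (MvPolynomial (Fin 2) k) :=
    (fs.filter fun H => Associated (map φ₀.toRingHom H) H).image facN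
  have hs : ∀ H ∈ s, Irreducible H ∧ map φ₀.toRingHom H = H ∧ H ∣ F ∧ facN H = H := by
    intro H hH
    obtain ⟨G, hG, rfl⟩ := Finset.mem_image.mp hH
    obtain ⟨hG1, hG2⟩ := Finset.mem_filter.mp hG
    have hG0 : G ≠ 0 := (hfs G hG1).1.ne_zero
    refine ⟨(facN_assoc hG0).symm.irreducible (hfs G hG1).1, ?_,
      (facN_assoc hG0).dvd.trans (hfs G hG1).2, ?_⟩
    · rw [facN_map]
      exact facN_eq_of_assoc (hΦ G (hfs G hG1).1).ne_zero hG2
    · exact (facN_eq_of_assoc hG0 (facN_assoc hG0).symm).symm
  refine ⟨s, fs.biUnion Z, ?_, ?_, ?_⟩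
  · intro H hH
    obtain ⟨h1, h2, h3, -⟩ := hs H hH
    refine ⟨h1, ?_, h2⟩
    have h4 : H.totalDegree ≠ 0 := by
      intro h0
      rw [totalDegree_eq_zero_iff_eq_C] at h0
      rw [h0] at h1
      by_cases hc : coeff 0 H = 0
      · rw [hc, C_0] at h1
        exact h1.ne_zero rfl
      · exact h1.not_isUnit ((isUnit_iff_ne_zero.mpr hc).map C)
    have h5 : H.totalDegree ≠ 1 := fun h => hlin H h2 h h3
    omega
  · refine Finset.squarefree_prod_of_pairwise_isCoprime ?_ fun H hH => (hs H hH).1.squarefree
    intro H hH G hG hne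
    have hH' := hs H hH
    have hG' := hs G hG
    refine (hH'.1.isRelPrime_iff_not_dvd).mpr fun hd => hne ?_
    have h1 := hH'.1.associated_of_dvd hG'.1 hd
    rw [← hH'.2.2.2, ← hG'.2.2.2]
    exact facN_eq_of_assoc hH'.1.ne_zero h1
  · intro x y hx hy h0
    have h1 : Associated (UniqueFactorizationMonoid.factors F).prod F :=
      UniqueFactorizationMonoid.factors_prod hF
    have h2 : aeval ![x, y] (UniqueFactorizationMonoid.factors F).prod = 0 := by
      obtain ⟨u, hu⟩ := h1
      have h3 : aeval ![x, y] (UniqueFactorizationMonoid.factors F).prod *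
          aeval ![x, y] (u : MvPolynomial (Fin 2) k) = 0 := by
        rw [← map_mul, hu, h0]
      exact (mul_eq_zero.mp h3).resolve_right (u.isUnit.map (aeval (R := k) ![x, y])).ne_zero
    rw [map_multiset_prod, Multiset.prod_eq_zero_iff, Multiset.mem_map] at h2
    obtain ⟨H, hH, hH0⟩ := h2
    have hHfs : H ∈ fs := Multiset.mem_toFinset.mpr hH
    by_cases ha : Associated (map φ₀.toRingHom H) H
    · right
      refine ⟨facN H, Finset.mem_image_of_mem _ (Finset.mem_filter.mpr ⟨hHfs, ha⟩), ?_⟩
      unfold facN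
      rw [map_mul, hH0, mul_zero]
    · left
      refine Finset.mem_biUnion.mpr ⟨H, hHfs, hZ H hHfs ha x y hH0 ?_⟩
      have h3 : φ (aeval ![x, y] H) = aeval ![x, y] (map φ₀.toRingHom H) := by
        rw [aeval_def, aeval_def, eval₂_map]
        have h4 : φ (eval₂ (algebraMap k W) ![x, y] H) =
            φ.toRingHom (eval₂ (algebraMap k W) ![x, y] H) := rfl
        rw [h4, eval₂_comp_left]
        have h5 : φ.toRingHom.comp (algebraMap k W) =
            (algebraMap k W).comp φ₀.toRingHom := RingHom.ext hφ
        have h6 : φ.toRingHom ∘ ![x, y] = ![x, y] := by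
          funext i
          fin_cases i
          · exact hx
          · exact hy
        rw [h5, h6]
      rw [← h3, hH0, map_zero]

end Pool.Agent.Helper897.BS
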