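import Pool.Agent.Helper897_BS.Defs

/-! A simple tangency gives a transposition. -/

set_option autoImplicit false
set_option linter.all false

namespace Pool.Agent.Helper897.BS

open Polynomial

section HEN

variable {W : Type} [Field W]

/-- `b ↦ b₀ + s` -/
noncomputable def HEN_iota (b₀ : W) : W[X] →+* PowerSeries W :=
  (Polynomial.coeToPowerSeries.ringHom).comp (Polynomial.taylorAlgHom b₀ : W[X] →ₐ[W] W[X]).toRingHom

theorem HEN_iota_apply (b₀ : W) (a : W[X]) :
    HEN_iota b₀ a = ((Polynomial.taylor b₀ a : W[X]) : PowerSeries W) := rfl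

theorem HEN_iota_inj (b₀ : W) : Function.Injective (HEN_iota b₀) := by
  intro a a' h
  rw [HEN_iota_apply, HEN_iota_apply] at h
  exact Polynomial.taylor_injective b₀ (Polynomial.coe_injective W h)

theorem HEN_cc (b₀ : W) (a : W[X]) :
    PowerSeries.constantCoeff (HEN_iota b₀ a) = a.eval b₀ := by
  rw [HEN_iota_apply, ← PowerSeries.coeff_zero_eq_constantCoeff_apply, Polynomial.coeff_coe,
    Polynomial.taylor_coeff_zero]

theorem HEN_c1 (b₀ : W) (a : W[X]) :
    PowerSeries.coeff 1 (HEN_iota b₀ a) = (derivative a).eval b₀ := by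
  rw [HEN_iota_apply, Polynomial.coeff_coe, Polynomial.taylor_coeff_one]

theorem HEN_map_cc (b₀ : W) (f : W[X][X]) :
    (f.map (HEN_iota b₀)).map PowerSeries.constantCoeff = f.map (evalRingHom b₀) := by
  rw [Polynomial.map_map]
  congr 1
  ext a
  · simp [HEN_cc]
  · simp [HEN_cc]

theorem HEN_lift (h : (PowerSeries W)[X]) (hm : h.Monic) (a : W)
    (h0 : (h.map PowerSeries.constantCoeff).eval a = 0)
    (h1 : (derivative (h.map PowerSeries.constantCoeff)).eval a ≠ 0) :
    ∃ r : PowerSeries W, h.IsRoot r ∧ PowerSeries.constantCoeff r = a := by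
  have e1 : h.eval (PowerSeries.C a) ∈ Ideal.span {(PowerSeries.X : PowerSeries W)} := by
    rw [Ideal.mem_span_singleton, PowerSeries.X_dvd_iff, ← Polynomial.eval_map_apply]
    simpa using h0
  have e2 : IsUnit (h.derivative.eval (PowerSeries.C a)) := by
    rw [PowerSeries.isUnit_iff_constantCoeff, ← Polynomial.eval_map_apply,
      ← Polynomial.derivative_map]
    simpa using h1
  obtain ⟨r, hr, hr'⟩ := HenselianRing.is_henselian (R := PowerSeries W)
    (I := Ideal.span {(PowerSeries.X : PowerSeries W)}) h hm (PowerSeries.C a) e1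
    (e2.map (Ideal.Quotient.mk _))
  refine ⟨r, hr, ?_⟩
  rw [Ideal.mem_span_singleton, PowerSeries.X_dvd_iff, map_sub,
    PowerSeries.constantCoeff_C, sub_eq_zero] at hr'
  exact hr'

/-- splitting off the simple roots -/
theorem HEN_split (h : (PowerSeries W)[X]) (hm : h.Monic) (s : Finset W)
    (hs : ∀ c ∈ s, (h.map PowerSeries.constantCoeff).eval c = 0 ∧
      (derivative (h.map PowerSeries.constantCoeff)).eval c ≠ 0) :
    ∃ (y : W → PowerSeries W) (R : (PowerSeries W)[X]), R.Monic ∧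
      h = (∏ c ∈ s, (X - C (y c))) * R ∧
      (∏ c ∈ s, (X - C c)) * R.map PowerSeries.constantCoeff =
        h.map PowerSeries.constantCoeff := by
  classical
  have key : ∀ c ∈ s, ∃ r : PowerSeries W, h.IsRoot r ∧ PowerSeries.constantCoeff r = c :=
    fun c hc => HEN_lift h hm c (hs c hc).1 (hs c hc).2
  choose! y hy1 hy2 using key
  have hinj : Set.InjOn y s := by
    intro c hc c' hc' he
    rw [← hy2 c hc, ← hy2 c' hc', he]
  have hdvd : (∏ c ∈ s, (X - C (y c))) ∣ h := by
    have h3 : ∏ c ∈ s, (X - C (y c)) = ((s.val.map y).map fun a => X - C a).prod := by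
      rw [Multiset.map_map]
      rfl
    rw [h3, Multiset.prod_X_sub_C_dvd_iff_le_roots hm.ne_zero]
    rw [Multiset.le_iff_subset (Multiset.Nodup.map_on hinj s.nodup)]
    intro a ha
    rw [Multiset.mem_map] at ha
    obtain ⟨c, hc, rfl⟩ := ha
    rw [mem_roots hm.ne_zero]
    exact hy1 c hc
  obtain ⟨R, hR⟩ := hdvd
  have hmp : (∏ c ∈ s, (X - C (y c))).Monic :=
    monic_prod_of_monic _ _ fun c _ => monic_X_sub_C _
  refine ⟨y, R, ?_, hR, ?_⟩
  · rw [hR] at hm
    exact hmp.of_mul_monic_left hm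
  · conv_rhs => rw [hR]
    rw [Polynomial.map_mul, Polynomial.map_prod]
    congr 1
    apply Finset.prod_congr rfl
    intro c hc
    rw [Polynomial.map_sub, Polynomial.map_X, Polynomial.map_C, hy2 c hc]

/-- the coefficient of `s` -/
theorem HEN_coeff_one (b₀ : W) (f : W[X][X]) (r : PowerSeries W) :
    PowerSeries.coeff 1 ((f.map (HEN_iota b₀)).eval r) =
      (f.sum fun i a => (derivative a).eval b₀ * (PowerSeries.constantCoeff r) ^ i) +
      (derivative (f.map (evalRingHom b₀))).eval (PowerSeries.constantCoeff r) *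
        PowerSeries.coeff 1 r := by
  rw [eval_map, eval₂_eq_sum, Polynomial.sum_def, map_sum]
  have e : ∀ i ∈ f.support, PowerSeries.coeff 1 (HEN_iota b₀ (f.coeff i) * r ^ i) =
      (derivative (f.coeff i)).eval b₀ * (PowerSeries.constantCoeff r) ^ i +
      (f.coeff i).eval b₀ * (i * (PowerSeries.constantCoeff r) ^ (i - 1)) *
        PowerSeries.coeff 1 r := by
    intro i _
    rw [PowerSeries.coeff_one_mul, HEN_c1, HEN_cc, PowerSeries.coeff_one_pow, map_pow]
    ring
  rw [Finset.sum_congr rfl e, Finset.sum_add_distrib, Polynomial.sum_def, ← Finset.sum_mul]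
  congr 2
  rw [Polynomial.derivative_map, eval_map, Polynomial.derivative_apply, Polynomial.sum_def,
    Polynomial.eval₂_finsetSum]
  apply Finset.sum_congr rfl
  intro i _
  simp [mul_assoc]

end HEN

section HEN2

variable {W : Type} [Field W] [IsAlgClosed W]

theorem HEN_fac (p : W[X]) (hp : p.Monic) [DecidableEq W] :
    p = ∏ c ∈ p.roots.toFinset, (X - C c) ^ (p.rootMultiplicity c) := by
  have h1 : p = (p.roots.map fun a => X - C a).prod :=
    (IsAlgClosed.splits p).eq_prod_roots_of_monic hp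
  conv_lhs => rw [h1]
  rw [Finset.prod_multiset_map_count]
  apply Finset.prod_congr rfl
  intro c _
  rw [Polynomial.count_roots]

omit [IsAlgClosed W] in
theorem HEN_mult_one (p : W[X]) (hp : p.Monic) (c : W) (h0 : p.eval c = 0)
    (h1 : (derivative p).eval c ≠ 0) : p.rootMultiplicity c = 1 := by
  have e1 : 0 < p.rootMultiplicity c := (rootMultiplicity_pos hp.ne_zero).mpr h0
  have e2 : ¬ 1 < p.rootMultiplicity c := by
    rw [one_lt_rootMultiplicity_iff_isRoot hp.ne_zero]
    rintro ⟨_, h⟩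
    exact h1 h
  omega

theorem HEN_fac_g (p : W[X]) (hp : p.Monic) [DecidableEq W]
    (h : ∀ x, p.eval x = 0 → (derivative p).eval x ≠ 0) :
    p = ∏ c ∈ p.roots.toFinset, (X - C c) := by
  conv_lhs => rw [HEN_fac p hp]
  apply Finset.prod_congr rfl
  intro c hc
  have hc' : p.eval c = 0 := by
    rw [Multiset.mem_toFinset, mem_roots hp.ne_zero] at hc
    exact hc
  rw [HEN_mult_one p hp c hc' (h c hc'), pow_one]

theorem HEN_fac_f [CharZero W] (p : W[X]) (hp : p.Monic) [DecidableEq W] (x₀ : W)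
    (h0 : p.eval x₀ = 0) (h1 : (derivative p).eval x₀ = 0)
    (h1' : (derivative (derivative p)).eval x₀ ≠ 0)
    (h2 : ∀ x, x ≠ x₀ → p.eval x = 0 → (derivative p).eval x ≠ 0) :
    p = (∏ c ∈ p.roots.toFinset.erase x₀, (X - C c)) * (X - C x₀) ^ 2 := by
  have hd0 : derivative p ≠ 0 := by
    intro h
    rw [h, derivative_zero, eval_zero] at h1'
    exact h1' rfl
  have hm : p.rootMultiplicity x₀ = 2 := by
    have e1 : 1 < p.rootMultiplicity x₀ := by
      rw [one_lt_rootMultiplicity_iff_isRoot hp.ne_zero]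
      exact ⟨h0, h1⟩
    have e2 : ¬ 1 < (derivative p).rootMultiplicity x₀ := by
      rw [one_lt_rootMultiplicity_iff_isRoot hd0]
      rintro ⟨_, h⟩
      exact h1' h
    rw [derivative_rootMultiplicity_of_root h0] at e2
    omega
  have hx : x₀ ∈ p.roots.toFinset := by
    rw [Multiset.mem_toFinset, mem_roots hp.ne_zero]
    exact h0
  conv_lhs => rw [HEN_fac p hp]
  rw [← Finset.mul_prod_erase _ _ hx, hm, mul_comm]
  congr 1
  apply Finset.prod_congr rfl
  intro c hc
  rw [Finset.mem_erase, Multiset.mem_toFinset, mem_roots hp.ne_zero] at hc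
  rw [HEN_mult_one p hp c hc.2 (h2 c hc.1 hc.2), pow_one]

theorem HEN_g (g : W[X][X]) (hg : g.Monic) (b₀ : W)
    (h3 : ∀ x, (g.map (evalRingHom b₀)).eval x = 0 →
      (derivative (g.map (evalRingHom b₀))).eval x ≠ 0) :
    ∃ (y : W → PowerSeries W) (s : Finset W),
      g.map (HEN_iota b₀) = ∏ c ∈ s, (X - C (y c)) := by
  classical
  have hg' : (g.map (evalRingHom b₀)).Monic := hg.map _
  obtain ⟨y, R, hR, e1, e2⟩ := HEN_split (g.map (HEN_iota b₀)) (hg.map _)
    (g.map (evalRingHom b₀)).roots.toFinset (by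
      intro c hc
      rw [Multiset.mem_toFinset, mem_roots hg'.ne_zero] at hc
      rw [HEN_map_cc]
      exact ⟨hc, h3 c hc⟩)
  rw [HEN_map_cc] at e2
  conv_rhs at e2 => rw [HEN_fac_g _ hg' h3]
  have hp0 : (∏ c ∈ (g.map (evalRingHom b₀)).roots.toFinset, (X - C c)) ≠ (0 : W[X]) :=
    (monic_prod_of_monic _ _ fun c _ => monic_X_sub_C c).ne_zero
  have e3 : R.map PowerSeries.constantCoeff = 1 := by
    apply mul_left_cancel₀ hp0
    rw [e2, mul_one]
  have e4 : R = 1 := by
    apply hR.natDegree_eq_zero.mp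
    rw [← hR.natDegree_map (PowerSeries.constantCoeff (R := W)), e3, natDegree_one]
  refine ⟨y, (g.map (evalRingHom b₀)).roots.toFinset, ?_⟩
  rw [e1, e4, mul_one]

theorem HEN_f [CharZero W] (f : W[X][X]) (hf : f.Monic) (b₀ x₀ : W)
    (h0 : (f.map (evalRingHom b₀)).eval x₀ = 0)
    (h1 : (derivative (f.map (evalRingHom b₀))).eval x₀ = 0)
    (h1' : (derivative (derivative (f.map (evalRingHom b₀)))).eval x₀ ≠ 0)
    (h2 : ∀ x, x ≠ x₀ → (f.map (evalRingHom b₀)).eval x = 0 →
      (derivative (f.map (evalRingHom b₀))).eval x ≠ 0)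
    (h4 : (f.sum fun i a => (derivative a).eval b₀ * x₀ ^ i) ≠ 0) :
    ∃ (y : W → PowerSeries W) (s : Finset W) (Q : (PowerSeries W)[X]), Q.Monic ∧
      f.map (HEN_iota b₀) = (∏ c ∈ s, (X - C (y c))) * Q ∧ Q.natDegree = 2 ∧
      ∀ r : PowerSeries W, Q.eval r ≠ 0 := by
  classical
  have hf' : (f.map (evalRingHom b₀)).Monic := hf.map _
  obtain ⟨y, Q, hQ, e1, e2⟩ := HEN_split (f.map (HEN_iota b₀)) (hf.map _)
    ((f.map (evalRingHom b₀)).roots.toFinset.erase x₀) (by
      intro c hc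
      rw [Finset.mem_erase, Multiset.mem_toFinset, mem_roots hf'.ne_zero] at hc
      rw [HEN_map_cc]
      exact ⟨hc.2, h2 c hc.1 hc.2⟩)
  rw [HEN_map_cc] at e2
  conv_rhs at e2 => rw [HEN_fac_f _ hf' x₀ h0 h1 h1' h2]
  have hp0 : (∏ c ∈ (f.map (evalRingHom b₀)).roots.toFinset.erase x₀, (X - C c)) ≠ (0 : W[X]) :=
    (monic_prod_of_monic _ _ fun c _ => monic_X_sub_C c).ne_zero
  have e3 : Q.map PowerSeries.constantCoeff = (X - C x₀) ^ 2 := mul_left_cancel₀ hp0 e2
  refine ⟨y, _, Q, hQ, e1, ?_, ?_⟩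
  · rw [← hQ.natDegree_map (PowerSeries.constantCoeff (R := W)), e3, natDegree_pow,
      natDegree_X_sub_C]
  · intro r hr
    have hcc : PowerSeries.constantCoeff r = x₀ := by
      have e4 : (Q.map PowerSeries.constantCoeff).eval (PowerSeries.constantCoeff r) = 0 := by
        rw [Polynomial.eval_map_apply, hr, map_zero]
      rw [e3] at e4
      simp at e4
      exact sub_eq_zero.mp e4
    have e5 := HEN_coeff_one b₀ f r
    rw [e1, eval_mul, hr, mul_zero, map_zero, hcc, h1, zero_mul, add_zero] at e5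
    exact h4 e5.symm

/-- restriction of an automorphism -/
theorem HEN_restrict {K E Λ : Type} [Field K] [Field E] [Field Λ] [Algebra K E] [Algebra K Λ]
    [Normal K E] (j : E →ₐ[K] Λ) (τ : Λ ≃ₐ[K] Λ) :
    ∃ σ : E ≃ₐ[K] E, ∀ x, j (σ x) = τ (j x) := by
  let _ : Algebra E Λ := j.toRingHom.toAlgebra
  have : IsScalarTower K E Λ := IsScalarTower.of_algebraMap_eq (fun x => (j.commutes x).symm)
  exact ⟨τ.restrictNormal E, fun x => τ.restrictNormal_commutes E x⟩

/-- the roots in a larger field come from the algebraic closure -/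
theorem HEN_root {K E Λ : Type} [Field K] [Field E] [Field Λ] [Algebra K E] [Algebra K Λ]
    [IsAlgClosed E] (j : E →ₐ[K] Λ) (p : K[X]) (hp : p ≠ 0) (z : Λ) (hz : aeval z p = 0) :
    ∃ y : E, j y = z := by
  have h1 : (p.map (algebraMap K E)).Splits := IsAlgClosed.splits _
  have h2 : aeval z p = ((p.map (algebraMap K E)).map (j : E →+* Λ)).eval z := by
    rw [Polynomial.map_map, Polynomial.aeval_def, Polynomial.eval_map]
    congr 1
    ext x
    exact (j.commutes x).symm
  rw [h2, h1.eq_prod_roots] at hz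
  rw [Polynomial.map_mul, Polynomial.map_multiset_prod, eval_mul, Polynomial.map_C, eval_C,
    mul_eq_zero, Multiset.map_map, Polynomial.eval_multiset_prod, Multiset.prod_eq_zero_iff] at hz
  rcases hz with hz | hz
  · rw [map_eq_zero, leadingCoeff_eq_zero, Polynomial.map_eq_zero] at hz
    exact absurd hz hp
  · rw [Multiset.mem_map] at hz
    obtain ⟨a, ha, hza⟩ := hz
    rw [Multiset.mem_map] at ha
    obtain ⟨y, _, rfl⟩ := ha
    refine ⟨y, ?_⟩
    simp at hza
    exact (sub_eq_zero.mp hza).symm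

end HEN2

section HEN3

variable {W : Type} [Field W] [IsAlgClosed W] [CharZero W]

/-- main result of the file -/
theorem transposition (f g : W[X][X]) (hf : f.Monic) (hg : g.Monic) (b₀ x₀ : W)
    (h0 : (f.map (evalRingHom b₀)).eval x₀ = 0)
    (h1 : (derivative (f.map (evalRingHom b₀))).eval x₀ = 0)
    (h1' : (derivative (derivative (f.map (evalRingHom b₀)))).eval x₀ ≠ 0)
    (h2 : ∀ x, x ≠ x₀ → (f.map (evalRingHom b₀)).eval x = 0 →
      (derivative (f.map (evalRingHom b₀))).eval x ≠ 0)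
    (h3 : ∀ x, (g.map (evalRingHom b₀)).eval x = 0 →
      (derivative (g.map (evalRingHom b₀))).eval x ≠ 0)
    (h4 : (f.sum fun i a => (derivative a).eval b₀ * x₀ ^ i) ≠ 0) :
    ∃ (σ : EE W ≃ₐ[KK W] EE W) (y₁ y₂ : EE W), y₁ ≠ y₂ ∧ aeval y₁ f = 0 ∧ aeval y₂ f = 0 ∧
      σ y₁ = y₂ ∧ σ y₂ = y₁ ∧
      ∀ y, y ≠ y₁ → y ≠ y₂ → (aeval y f = 0 ∨ aeval y g = 0) → σ y = y := by
  obtain ⟨yf, sf, Q, hQ, ef, hQ2, hQr⟩ := HEN_f f hf b₀ x₀ h0 h1 h1' h2 h4
  obtain ⟨yg, sg, eg⟩ := HEN_g g hg b₀ h3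
  -- the fields
  let P := PowerSeries W
  let L := FractionRing P
  let Λ := AlgebraicClosure L
  have : CharZero P := charZero_of_injective_algebraMap (R := W) (A := P)
    (PowerSeries.C_injective (R := W))
  have : CharZero L := charZero_of_injective_algebraMap (IsFractionRing.injective P L)
  -- `Q` over `L`
  set QL : L[X] := Q.map (algebraMap P L) with hQL
  have hQLm : QL.Monic := hQ.map _
  have hQL2 : QL.natDegree = 2 := by rw [hQL, hQ.natDegree_map, hQ2]
  have hQLr : QL.roots = 0 := by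
    rw [Multiset.eq_zero_iff_forall_notMem]
    intro z hz
    rw [mem_roots hQLm.ne_zero, IsRoot.def, hQL, eval_map_algebraMap] at hz
    obtain ⟨r, hr⟩ := isInteger_of_is_root_of_monic (K := L) hQ hz
    rw [← hr, aeval_algebraMap_apply] at hz
    have : aeval r Q = 0 := by
      apply IsFractionRing.injective P L
      rw [hz, map_zero]
    exact hQr r (by simpa using this)
  have hirr : Irreducible QL := by
    rw [hQLm.irreducible_iff_roots_eq_zero_of_degree_le_three (by omega) (by omega)]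
    exact hQLr
  have hsep : QL.Separable := hirr.separable
  have hspl : (QL.map (algebraMap L Λ)).Splits := IsAlgClosed.splits _
  have hcard : Multiset.card (QL.map (algebraMap L Λ)).roots = 2 := by
    rw [← hspl.natDegree_eq_card_roots, natDegree_map, hQL2]
  obtain ⟨η₁, η₂, hη⟩ := Multiset.card_eq_two.mp hcard
  have hnd : (QL.map (algebraMap L Λ)).roots.Nodup := nodup_roots hsep.map
  have hne : η₁ ≠ η₂ := by
    rw [hη] at hnd
    simpa using hnd
  have hroot : ∀ z : Λ, aeval z QL = 0 ↔ z = η₁ ∨ z = η₂ := by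
    intro z
    have : z ∈ (QL.map (algebraMap L Λ)).roots ↔ z = η₁ ∨ z = η₂ := by
      rw [hη]; simp
    rw [← this, mem_roots (hQLm.map _).ne_zero, IsRoot.def, eval_map_algebraMap]
  have hr1 : aeval η₁ QL = 0 := (hroot _).mpr (Or.inl rfl)
  have hr2 : aeval η₂ QL = 0 := (hroot _).mpr (Or.inr rfl)
  have hconj : IsConjRoot L η₁ η₂ := by
    unfold IsConjRoot
    rw [← minpoly.eq_of_irreducible_of_monic hirr hr1 hQLm,
      ← minpoly.eq_of_irreducible_of_monic hirr hr2 hQLm]
  obtain ⟨τ, hτ⟩ := isConjRoot_iff_exists_algEquiv.mp hconj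
  have hτ2 : τ η₁ = η₂ := by
    have e1 : aeval (τ η₁) QL = 0 := by
      have := aeval_algHom_apply (τ : Λ →ₐ[L] Λ) η₁ QL
      rw [hr1, map_zero] at this
      exact this
    rcases (hroot _).mp e1 with h | h
    · exfalso
      have : τ η₂ = τ η₁ := by rw [h, hτ]
      exact hne (τ.injective this).symm
    · exact h
  -- the map from `KK W`
  have hinj : Function.Injective ((algebraMap P L).comp (HEN_iota b₀)) :=
    (IsFractionRing.injective P L).comp (HEN_iota_inj b₀)
  let ψ : KK W →+* Λ := (algebraMap L Λ).comp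
    (IsFractionRing.lift (g := (algebraMap P L).comp (HEN_iota b₀)) hinj)
  have hψ : ∀ x : W[X], ψ (algebraMap W[X] (KK W) x) = algebraMap P Λ (HEN_iota b₀ x) := by
    intro x
    change algebraMap L Λ (IsFractionRing.lift (g := (algebraMap P L).comp (HEN_iota b₀)) hinj
      (algebraMap W[X] (KK W) x)) = _
    rw [IsFractionRing.lift_algebraMap, RingHom.comp_apply, ← IsScalarTower.algebraMap_apply]
  let _ : Algebra (KK W) Λ := ψ.toAlgebra
  let j : EE W →ₐ[KK W] Λ := IsAlgClosed.lift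
  let τK : Λ ≃ₐ[KK W] Λ := AlgEquiv.ofRingEquiv (f := τ.toRingEquiv) (fun x => τ.commutes _)
  obtain ⟨σ, hσ⟩ := HEN_restrict j τK
  have hσ' : ∀ x, j (σ x) = τ (j x) := hσ
  have hjinj : Function.Injective j := j.toRingHom.injective
  -- evaluation in `Λ`
  have hj : ∀ (h : W[X][X]) (y : EE W), j (aeval y h) = aeval (j y) (h.map (HEN_iota b₀)) := by
    intro h y
    rw [Polynomial.aeval_def, Polynomial.aeval_def, Polynomial.eval₂_map]
    change (j : EE W →+* Λ) _ = _
    rw [Polynomial.hom_eval₂]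
    congr 1
    ext x
    · change j (algebraMap W[X] (EE W) (C x)) = algebraMap P Λ (HEN_iota b₀ (C x))
      rw [IsScalarTower.algebraMap_apply W[X] (KK W) (EE W), j.commutes, ← hψ]
      rfl
    · change j (algebraMap W[X] (EE W) X) = algebraMap P Λ (HEN_iota b₀ X)
      rw [IsScalarTower.algebraMap_apply W[X] (KK W) (EE W), j.commutes, ← hψ]
      rfl
  have hQz : ∀ z : Λ, aeval z Q = 0 ↔ z = η₁ ∨ z = η₂ := by
    intro z
    rw [← hroot, hQL, aeval_map_algebraMap]
  have hfz : ∀ z : Λ, aeval z (f.map (HEN_iota b₀)) = 0 →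
      (∃ c, z = algebraMap P Λ (yf c)) ∨ z = η₁ ∨ z = η₂ := by
    intro z hz
    rw [ef, map_mul, map_prod, mul_eq_zero, Finset.prod_eq_zero_iff] at hz
    rcases hz with ⟨c, _, hc⟩ | hz
    · left
      refine ⟨c, ?_⟩
      rw [map_sub, aeval_X, aeval_C, sub_eq_zero] at hc
      exact hc
    · right
      exact (hQz z).mp hz
  have hfη : ∀ z : Λ, (z = η₁ ∨ z = η₂) → aeval z (f.map (HEN_iota b₀)) = 0 := by
    intro z hz
    rw [ef, map_mul, (hQz z).mpr hz, mul_zero]
  have hgz : ∀ z : Λ, aeval z (g.map (HEN_iota b₀)) = 0 → ∃ c, z = algebraMap P Λ (yg c) := by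
    intro z hz
    rw [eg, map_prod, Finset.prod_eq_zero_iff] at hz
    obtain ⟨c, _, hc⟩ := hz
    refine ⟨c, ?_⟩
    rw [map_sub, aeval_X, aeval_C, sub_eq_zero] at hc
    exact hc
  have hlift : ∀ z : Λ, (z = η₁ ∨ z = η₂) → ∃ y : EE W, j y = z ∧ aeval y f = 0 := by
    intro z hz
    obtain ⟨y, hy⟩ := HEN_root j (f.map (algebraMap W[X] (KK W))) (hf.map _).ne_zero z (by
      have e1 := hfη z hz
      rw [Polynomial.aeval_def, Polynomial.eval₂_map] at e1 ⊢
      rw [← e1]
      congr 1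
      ext x
      · exact hψ (C x)
      · exact hψ X)
    refine ⟨y, hy, hjinj ?_⟩
    rw [hj, hy, map_zero]
    exact hfη z hz
  obtain ⟨y₁, hy₁, hfy₁⟩ := hlift η₁ (Or.inl rfl)
  obtain ⟨y₂, hy₂, hfy₂⟩ := hlift η₂ (Or.inr rfl)
  have hfix : ∀ (y : EE W) (p : P), j y = algebraMap P Λ p → σ y = y := by
    intro y p hp
    apply hjinj
    rw [hσ', hp, IsScalarTower.algebraMap_apply P L Λ, τ.commutes]
  refine ⟨σ, y₁, y₂, ?_, hfy₁, hfy₂, ?_, ?_, ?_⟩
  · intro h
    apply hne
    rw [← hy₁, ← hy₂, h]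
  · apply hjinj
    rw [hσ', hy₁, hy₂, hτ2]
  · apply hjinj
    rw [hσ', hy₁, hy₂, hτ]
  · intro y hy1 hy2 hy
    rcases hy with hy | hy
    · have e1 : aeval (j y) (f.map (HEN_iota b₀)) = 0 := by rw [← hj, hy, map_zero]
      rcases hfz _ e1 with ⟨c, hc⟩ | h | h
      · exact hfix y _ hc
      · exact absurd (hjinj (h.trans hy₁.symm)) hy1
      · exact absurd (hjinj (h.trans hy₂.symm)) hy2
    · have e1 : aeval (j y) (g.map (HEN_iota b₀)) = 0 := by rw [← hj, hy, map_zero]
      obtain ⟨c, hc⟩ := hgz _ e1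
      exact hfix y _ hc

end HEN3

end Pool.Agent.Helper897.BS
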