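import Pool.Agent.Helper897_BS.Defs
import Pool.Agent.H450R3.BH.ABS

/-! The polynomial of the lines with given slope. -/

set_option autoImplicit false
set_option linter.all false

namespace Pool.Agent.Helper897.BS

open Polynomial

/-- main result 1 -/
theorem lineP_map_eval {k W : Type} [Field k] [Field W] [Algebra k W] (m b₀ : W)
    (H : MvPolynomial (Fin 2) k) : (lineP m H).map (evalRingHom b₀) = rl m b₀ H := by
  have h : (mapRingHom (evalRingHom b₀)).comp ((lineP m : MvPolynomial (Fin 2) k →ₐ[k] W[X][X]) :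
      MvPolynomial (Fin 2) k →+* W[X][X]) =
      ((rl m b₀ : MvPolynomial (Fin 2) k →ₐ[k] W[X]) : MvPolynomial (Fin 2) k →+* W[X]) := by
    apply MvPolynomial.ringHom_ext
    · intro r
      simp [lineP, rl, Polynomial.algebraMap_def]
    · intro i
      fin_cases i <;> simp [lineP, rl]
  exact congrArg (fun g : MvPolynomial (Fin 2) k →+* W[X] => g H) h

/-- main result 2 -/
theorem rl_eval {k W : Type} [Field k] [Field W] [Algebra k W] (m b₀ x₀ : W)
    (H : MvPolynomial (Fin 2) k) :
    (rl m b₀ H).eval x₀ = MvPolynomial.aeval ![x₀, m * x₀ + b₀] H := by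
  have h : (evalRingHom x₀).comp ((rl m b₀ : MvPolynomial (Fin 2) k →ₐ[k] W[X]) :
      MvPolynomial (Fin 2) k →+* W[X]) =
      ((MvPolynomial.aeval ![x₀, m * x₀ + b₀] : MvPolynomial (Fin 2) k →ₐ[k] W) :
      MvPolynomial (Fin 2) k →+* W) := by
    apply MvPolynomial.ringHom_ext
    · intro r
      simp [rl, Polynomial.algebraMap_def]
    · intro i
      fin_cases i <;> simp [rl]
  exact congrArg (fun g : MvPolynomial (Fin 2) k →+* W => g H) h

/-- the sum of the derivatives of the coefficients -/
noncomputable def linL {W : Type} [Field W] (b₀ x₀ : W) (F : W[X][X]) : W :=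
  F.sum fun i a => (derivative a).eval b₀ * x₀ ^ i

theorem linL_add {W : Type} [Field W] (b₀ x₀ : W) (F G : W[X][X]) :
    linL b₀ x₀ (F + G) = linL b₀ x₀ F + linL b₀ x₀ G := by
  unfold linL
  apply Polynomial.sum_add_index
  · intro i
    simp
  · intro i a b
    simp [add_mul]

theorem linL_monomial {W : Type} [Field W] (b₀ x₀ : W) (i : ℕ) (a : W[X]) :
    linL b₀ x₀ (monomial i a) = (derivative a).eval b₀ * x₀ ^ i := by
  unfold linL
  rw [Polynomial.sum_monomial_index]
  simp

theorem linL_mul_X {W : Type} [Field W] (b₀ x₀ : W) (F : W[X][X]) :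
    linL b₀ x₀ (F * X) = linL b₀ x₀ F * x₀ := by
  induction F using Polynomial.induction_on' with
  | add p q hp hq => rw [add_mul, linL_add, linL_add, hp, hq, add_mul]
  | monomial n a =>
    rw [Polynomial.monomial_mul_X, linL_monomial, linL_monomial, pow_succ, mul_assoc]

theorem linL_mul_C {W : Type} [Field W] (b₀ x₀ : W) (F : W[X][X]) (a : W[X]) :
    linL b₀ x₀ (F * C a) = linL b₀ x₀ F * a.eval b₀ +
      (F.map (evalRingHom b₀)).eval x₀ * (derivative a).eval b₀ := by
  induction F using Polynomial.induction_on' with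
  | add p q hp hq =>
    rw [add_mul, linL_add, linL_add, hp, hq, Polynomial.map_add, eval_add]
    ring
  | monomial n c =>
    rw [Polynomial.monomial_mul_C, linL_monomial, linL_monomial, derivative_mul, Polynomial.map_monomial,
      eval_monomial, eval_add, eval_mul, eval_mul]
    simp only [coe_evalRingHom]
    ring

/-- main result 3 -/
theorem lineP_dsum {k W : Type} [Field k] [Field W] [Algebra k W] (m b₀ x₀ : W)
    (H : MvPolynomial (Fin 2) k) :
    ((lineP m H).sum fun i a => (derivative a).eval b₀ * x₀ ^ i) =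
      MvPolynomial.aeval ![x₀, m * x₀ + b₀] (MvPolynomial.pderiv 1 H) := by
  show linL b₀ x₀ (lineP m H) = _
  induction H using MvPolynomial.induction_on with
  | C c =>
    have h : (lineP m (MvPolynomial.C c) : W[X][X]) = monomial 0 (C (algebraMap k W c)) := by
      simp [lineP, Polynomial.algebraMap_def]
    rw [h, linL_monomial]
    simp
  | add p q hp hq => rw [map_add, linL_add, hp, hq, map_add, map_add]
  | mul_X p i hp =>
    have hev : ((lineP m p).map (evalRingHom b₀)).eval x₀ =
        MvPolynomial.aeval ![x₀, m * x₀ + b₀] p := by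
      rw [lineP_map_eval, rl_eval]
    rw [map_mul, Derivation.leibniz, map_add, smul_eq_mul, smul_eq_mul, map_mul, map_mul,
      MvPolynomial.aeval_X, ← hp]
    fin_cases i
    · have h : (lineP m (MvPolynomial.X 0 : MvPolynomial (Fin 2) k) : W[X][X]) = X := by
        simp [lineP]
      simp only [Fin.zero_eta]
      rw [h, linL_mul_X]
      simp [MvPolynomial.pderiv_X]
      ring
    · have h : (lineP m (MvPolynomial.X 1 : MvPolynomial (Fin 2) k) : W[X][X]) =
          C (C m) * X + C X := by
        simp [lineP]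
      simp only [Fin.mk_one]
      rw [h, mul_add, linL_add, ← mul_assoc, linL_mul_X, linL_mul_C, linL_mul_C, hev]
      simp
      ring

/-- the polynomial in `m` that is the leading coefficient -/
noncomputable def linQ {k : Type} [Field k] (n : ℕ) (H : MvPolynomial (Fin 2) k) : k[X] :=
  ∑ d ∈ H.support.filter (fun d => d 0 + d 1 = n), monomial (d 1) (H.coeff d)

theorem lin_degree (d : Fin 2 →₀ ℕ) : (d.sum fun _ e => e) = d 0 + d 1 := by
  rw [Finsupp.sum_fintype _ _ (fun _ => rfl), Fin.sum_univ_two]

theorem linQ_ne {k : Type} [Field k] (H : MvPolynomial (Fin 2) k) (hH : H ≠ 0) :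
    linQ H.totalDegree H ≠ 0 := by
  obtain ⟨d, hd, hd2⟩ : ∃ d ∈ H.support, d 0 + d 1 = H.totalDegree := by
    have hne : H.support.Nonempty := MvPolynomial.support_nonempty.2 hH
    obtain ⟨d, hd, h⟩ := Finset.exists_mem_eq_sup H.support hne (fun s => s.sum fun _ e => e)
    refine ⟨d, hd, ?_⟩
    rw [← lin_degree]
    exact h.symm
  intro h
  have h1 := congrArg (fun q : k[X] => q.coeff (d 1)) h
  simp only [linQ, Polynomial.finsetSum_coeff, Polynomial.coeff_monomial, Polynomial.coeff_zero] at h1
  rw [Finset.sum_eq_single d] at h1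
  · rw [if_pos rfl] at h1
    exact (MvPolynomial.mem_support_iff.1 hd) h1
  · intro d' hd' hne
    rw [if_neg]
    intro h2
    apply hne
    have h3 := (Finset.mem_filter.1 hd').2
    ext i
    fin_cases i
    · simp only [Fin.zero_eta]; omega
    · simpa using h2
  · intro h2
    exact absurd (Finset.mem_filter.2 ⟨hd, hd2⟩) h2

theorem lin_mono {k W : Type} [Field k] [Field W] [Algebra k W] (m : W) (d : Fin 2 →₀ ℕ) (c : k) :
    (lineP m (MvPolynomial.monomial d c) : W[X][X]) =
      C (C (algebraMap k W c)) * (X ^ (d 0) * (C (C m) * X + C X) ^ (d 1)) := by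
  unfold lineP
  rw [MvPolynomial.aeval_monomial, Finsupp.prod_fintype _ _ (fun _ => pow_zero _), Fin.prod_univ_two]
  simp [Polynomial.algebraMap_def]

theorem lin_natDegree_le {W : Type} [Field W] (m : W) :
    (C (C m) * X + C X : W[X][X]).natDegree ≤ 1 := by
  compute_degree

theorem lin_mono_deg {k W : Type} [Field k] [Field W] [Algebra k W] (m : W) (d : Fin 2 →₀ ℕ) (c : k) :
    (lineP m (MvPolynomial.monomial d c) : W[X][X]).natDegree ≤ d 0 + d 1 := by
  rw [lin_mono]
  refine (natDegree_C_mul_le _ _).trans (natDegree_mul_le.trans ?_)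
  refine Nat.add_le_add (natDegree_X_pow_le _) (natDegree_pow_le.trans ?_)
  calc d 1 * _ ≤ d 1 * 1 := Nat.mul_le_mul_left _ (lin_natDegree_le m)
    _ = d 1 := mul_one _

theorem lin_mono_coeff {k W : Type} [Field k] [Field W] [Algebra k W] (m : W) (d : Fin 2 →₀ ℕ) (c : k) :
    (lineP m (MvPolynomial.monomial d c) : W[X][X]).coeff (d 0 + d 1) =
      C (algebraMap k W c * m ^ (d 1)) := by
  rw [lin_mono, coeff_C_mul, add_comm (d 0), coeff_X_pow_mul]
  have h := Polynomial.coeff_pow_of_natDegree_le (lin_natDegree_le m) (m := d 1)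
  rw [mul_one] at h
  rw [h]
  simp [coeff_X, coeff_C]

theorem lineP_normal_aux {k W : Type} [Field k] [Field W] [Algebra k W] (m : W)
    (H : MvPolynomial (Fin 2) k) :
    (lineP m H).natDegree ≤ H.totalDegree ∧
      (lineP m H).coeff H.totalDegree = C (Polynomial.aeval m (linQ H.totalDegree H)) := by
  have hdle : ∀ d ∈ H.support, d 0 + d 1 ≤ H.totalDegree := by
    intro d hd
    rw [← lin_degree]
    exact MvPolynomial.le_totalDegree hd
  have hH : lineP m H = ∑ d ∈ H.support, lineP m (MvPolynomial.monomial d (H.coeff d)) := by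
    conv_lhs => rw [← MvPolynomial.support_sum_monomial_coeff H]
    rw [map_sum]
  constructor
  · rw [hH]
    apply natDegree_sum_le_of_forall_le
    intro d hd
    exact (lin_mono_deg m d _).trans (hdle d hd)
  · rw [hH, finsetSum_coeff]
    unfold linQ
    rw [map_sum, map_sum, Finset.sum_filter]
    apply Finset.sum_congr rfl
    intro d hd
    split_ifs with h
    · rw [← h, lin_mono_coeff, aeval_monomial]
    · apply coeff_eq_zero_of_natDegree_lt
      exact lt_of_le_of_lt (lin_mono_deg m d _) (lt_of_le_of_ne (hdle d hd) h)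

/-- the change of variables -/
noncomputable def linE {W : Type} [Field W] (m : W) : MvPolynomial (Fin 2) W ≃+* W[X][X] :=
  RingEquiv.ofRingHom ((lineP m : MvPolynomial (Fin 2) W →ₐ[W] W[X][X]) : MvPolynomial (Fin 2) W →+* W[X][X])
    (eval₂RingHom ((Polynomial.aeval (MvPolynomial.X 1 - MvPolynomial.C m * MvPolynomial.X 0) :
      W[X] →ₐ[W] MvPolynomial (Fin 2) W) : W[X] →+* MvPolynomial (Fin 2) W) (MvPolynomial.X 0))
    (by
      apply Polynomial.ringHom_ext'
      · apply Polynomial.ringHom_ext
        · intro a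
          simp [lineP, Polynomial.algebraMap_def, MvPolynomial.algebraMap_eq]
        · simp [lineP, Polynomial.algebraMap_def]
      · simp [lineP])
    (by
      apply MvPolynomial.ringHom_ext
      · intro r
        simp [lineP, Polynomial.algebraMap_def, MvPolynomial.algebraMap_eq]
      · intro i
        fin_cases i
        · simp [lineP]
        · simp [lineP, MvPolynomial.algebraMap_eq])

theorem lineP_map {k W : Type} [Field k] [Field W] [Algebra k W] (m : W)
    (H : MvPolynomial (Fin 2) k) :
    lineP m H = linE m (MvPolynomial.map (algebraMap k W) H) := by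
  show lineP m H = (lineP m : MvPolynomial (Fin 2) W →ₐ[W] W[X][X]) (MvPolynomial.map (algebraMap k W) H)
  have h : ((lineP m : MvPolynomial (Fin 2) k →ₐ[k] W[X][X]) : MvPolynomial (Fin 2) k →+* W[X][X]) =
      ((lineP m : MvPolynomial (Fin 2) W →ₐ[W] W[X][X]) : MvPolynomial (Fin 2) W →+* W[X][X]).comp
        (MvPolynomial.map (algebraMap k W)) := by
    apply MvPolynomial.ringHom_ext
    · intro r
      simp [lineP, Polynomial.algebraMap_def]
    · intro i
      fin_cases i <;> simp [lineP]
  exact congrArg (fun g : MvPolynomial (Fin 2) k →+* W[X][X] => g H) h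

/-- main result 4 -/
theorem lineP_normal {k W : Type} [Field k] [IsAlgClosed k] [Field W] [Algebra k W] (m : W)
    (hm : Transcendental k m) (H : MvPolynomial (Fin 2) k) (hH : Irreducible H) :
    ∃ (u : W) (f : W[X][X]), u ≠ 0 ∧ f.Monic ∧ 0 < f.natDegree ∧ Irreducible f ∧
      lineP m H = C (C u) * f := by
  obtain ⟨h1, h2⟩ := lineP_normal_aux m H
  set u : W := Polynomial.aeval m (linQ H.totalDegree H) with hu
  have hu0 : u ≠ 0 := by
    intro h
    exact linQ_ne H hH.ne_zero ((transcendental_iff.1 hm) _ h)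
  have hn : H.totalDegree ≠ 0 := by
    intro h
    rw [MvPolynomial.totalDegree_eq_zero_iff_eq_C] at h
    apply hH.not_isUnit
    rw [h]
    apply (MvPolynomial.C : k →+* MvPolynomial (Fin 2) k).isUnit_map
    rw [isUnit_iff_ne_zero]
    intro h0
    rw [h0, MvPolynomial.C_0] at h
    exact hH.ne_zero h
  have hcoef : (C (C u⁻¹) * lineP m H : W[X][X]).coeff H.totalDegree = 1 := by
    rw [coeff_C_mul, h2, ← C_mul, inv_mul_cancel₀ hu0, C_1]
  have hdeg : (C (C u⁻¹) * lineP m H : W[X][X]).natDegree ≤ H.totalDegree :=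
    (natDegree_C_mul_le _ _).trans h1
  have hunit : IsUnit (C (C u⁻¹) : W[X][X]) := by
    apply Polynomial.isUnit_C.2
    apply Polynomial.isUnit_C.2
    exact isUnit_iff_ne_zero.2 (inv_ne_zero hu0)
  refine ⟨u, C (C u⁻¹) * lineP m H, hu0, monic_of_natDegree_le_of_coeff_eq_one _ hdeg hcoef, ?_, ?_, ?_⟩
  · have : H.totalDegree ≤ (C (C u⁻¹) * lineP m H : W[X][X]).natDegree := by
      apply le_natDegree_of_ne_zero
      rw [hcoef]
      exact one_ne_zero
    omega
  · rw [irreducible_isUnit_mul hunit, lineP_map]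
    exact (MulEquiv.irreducible_iff (linE m : MvPolynomial (Fin 2) W ≃+* W[X][X])).2
      (H450BH.abs_irr H hH)
  · rw [← mul_assoc, ← C_mul, ← C_mul, mul_inv_cancel₀ hu0, C_1, C_1, one_mul]

end Pool.Agent.Helper897.BS
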