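import Pool.Agent.Helper897_BS.Defs

/-! Specialization of the twisted curve. -/

set_option autoImplicit false
set_option linter.all false

namespace Pool.Agent.Helper897.BS

open Polynomial

variable {W : Type} [Field W]

theorem SPE_alg_inj : Function.Injective (algebraMap W[X] (EE W)) := by
  rw [IsScalarTower.algebraMap_eq W[X] (KK W) (EE W)]
  exact (algebraMap (KK W) (EE W)).injective.comp (IsFractionRing.injective W[X] (KK W))

theorem SPE_nzsmd : Module.IsTorsionFree W[X] (EE W) := by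
  rw [Module.isTorsionFree_iff_algebraMap_injective]
  exact SPE_alg_inj

/-- the homomorphism `ψ` and the polynomials -/
theorem SPE_twist (φ : W ≃+* W) (ψ : EE W ≃+* EE W)
    (hψ : ∀ g : W[X], ψ (algebraMap W[X] (EE W) g) = algebraMap W[X] (EE W) (g.map φ.toRingHom))
    (z : EE W) (A : W[X][X]) :
    ψ (aeval z A) = aeval (ψ z) (A.map (mapRingHom φ.toRingHom)) := by
  have h1 : ψ (aeval z A) = eval₂ (ψ.toRingHom.comp (algebraMap W[X] (EE W))) (ψ z) A := by
    rw [aeval_def]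
    exact hom_eval₂ A (algebraMap W[X] (EE W)) ψ.toRingHom z
  rw [h1, aeval_def, eval₂_map]
  congr 1
  ext g
  · simp only [RingHom.comp_apply]
    exact hψ (C g)
  · simp only [RingHom.comp_apply]
    exact hψ X

theorem SPE_frac (θ : EE W) (z : EE W) (hz : z ∈ IntermediateField.adjoin (KK W) {θ}) :
    ∃ (D : W[X]) (A : W[X][X]), D ≠ 0 ∧ algebraMap W[X] (EE W) D * z = aeval θ A := by
  have h1 : z ∈ (IntermediateField.adjoin (KK W) {θ}).toSubalgebra := hz
  rw [IntermediateField.adjoin_simple_toSubalgebra_of_isAlgebraic (Algebra.IsAlgebraic.isAlgebraic θ),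
    Algebra.adjoin_singleton_eq_range_aeval, AlgHom.mem_range] at h1
  obtain ⟨p, rfl⟩ := h1
  obtain ⟨b, hb, h2⟩ := IsLocalization.integerNormalization_spec (nonZeroDivisors W[X]) p
  refine ⟨b, IsLocalization.integerNormalization (nonZeroDivisors W[X]) p,
    nonZeroDivisors.ne_zero hb, ?_⟩
  have h3 := aeval_map_algebraMap (KK W) θ
    (IsLocalization.integerNormalization (nonZeroDivisors W[X]) p)
  rw [h2] at h3
  rw [← h3, ← algebraMap_smul (KK W) b p, map_smul, Algebra.smul_def,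
    ← IsScalarTower.algebraMap_apply]

section rel
variable (θ : EE W) (β t : W)

/-- the pairs of corresponding values -/
def SPE_Rel (z : EE W) (c : W) : Prop :=
  ∃ (D : W[X]) (A : W[X][X]), D.eval β ≠ 0 ∧ algebraMap W[X] (EE W) D * z = aeval θ A ∧
    D.eval β * c = evalEval β t A

variable {θ β t}

theorem SPE_Rel.mul {z z' : EE W} {c c' : W} (h : SPE_Rel θ β t z c) (h' : SPE_Rel θ β t z' c') :
    SPE_Rel θ β t (z * z') (c * c') := by
  obtain ⟨D, A, h1, h2, h3⟩ := h
  obtain ⟨D', A', h1', h2', h3'⟩ := h'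
  refine ⟨D * D', A * A', ?_, ?_, ?_⟩
  · rw [eval_mul]; exact mul_ne_zero h1 h1'
  · rw [map_mul, map_mul, ← h2, ← h2']; ring
  · rw [eval_mul, evalEval_mul, ← h3, ← h3']; ring

theorem SPE_Rel.sub {z z' : EE W} {c c' : W} (h : SPE_Rel θ β t z c) (h' : SPE_Rel θ β t z' c') :
    SPE_Rel θ β t (z - z') (c - c') := by
  obtain ⟨D, A, h1, h2, h3⟩ := h
  obtain ⟨D', A', h1', h2', h3'⟩ := h'
  refine ⟨D * D', C D' * A - C D * A', ?_, ?_, ?_⟩
  · rw [eval_mul]; exact mul_ne_zero h1 h1'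
  · rw [map_mul, map_sub, map_mul, map_mul, aeval_C, aeval_C, ← h2, ← h2']; ring
  · rw [eval_mul, evalEval_sub, evalEval_mul, evalEval_mul, evalEval_C, evalEval_C, ← h3, ← h3']
    ring

theorem SPE_Rel.base (g : W[X]) : SPE_Rel θ β t (algebraMap W[X] (EE W) g) (g.eval β) := by
  refine ⟨1, C g, ?_, ?_, ?_⟩
  · simp
  · rw [map_one, one_mul, aeval_C]
  · rw [eval_one, one_mul, evalEval_C]

theorem SPE_Rel.one : SPE_Rel θ β t 1 1 := by
  have := SPE_Rel.base (θ := θ) (β := β) (t := t) (1 : W[X])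
  simpa using this

theorem SPE_Rel.eq_zero (hθ : IsIntegral W[X] θ) (ht : evalEval β t (minpoly W[X] θ) = 0) {c : W}
    (h : SPE_Rel θ β t 0 c) : c = 0 := by
  obtain ⟨D, A, h1, h2, h3⟩ := h
  rw [mul_zero] at h2
  haveI := SPE_nzsmd (W := W)
  have h4 : minpoly W[X] θ ∣ A := minpoly.isIntegrallyClosed_dvd hθ h2.symm
  obtain ⟨B, rfl⟩ := h4
  rw [evalEval_mul, ht, zero_mul, mul_eq_zero] at h3
  exact h3.resolve_left h1

theorem SPE_Rel.unique (hθ : IsIntegral W[X] θ) (ht : evalEval β t (minpoly W[X] θ) = 0)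
    {z : EE W} {c c' : W} (h : SPE_Rel θ β t z c) (h' : SPE_Rel θ β t z c') : c = c' := by
  have h1 := h.sub h'
  rw [sub_self] at h1
  exact sub_eq_zero.1 (h1.eq_zero hθ ht)

theorem SPE_Rel.twist (φ : W ≃+* W) (ψ : EE W ≃+* EE W)
    (hψ : ∀ g : W[X], ψ (algebraMap W[X] (EE W) g) = algebraMap W[X] (EE W) (g.map φ.toRingHom))
    (hψθ : ψ θ = θ) (hβ : φ β = β) (ht : φ t = t) {z : EE W} {c : W} (h : SPE_Rel θ β t z c) :
    SPE_Rel θ β t (ψ z) (φ c) := by
  obtain ⟨D, A, h1, h2, h3⟩ := h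
  have e1 : (D.map φ.toRingHom).eval β = φ (D.eval β) := by
    have := eval_map_apply φ.toRingHom β (p := D)
    have e : φ.toRingHom β = β := hβ
    rw [e] at this
    exact this
  have e2 : evalEval β t (A.map (mapRingHom φ.toRingHom)) = φ (evalEval β t A) := by
    have := map_mapRingHom_evalEval φ.toRingHom A β t
    have e : φ.toRingHom β = β := hβ
    have e' : φ.toRingHom t = t := ht
    rw [e, e'] at this
    exact this
  refine ⟨D.map φ.toRingHom, A.map (mapRingHom φ.toRingHom), ?_, ?_, ?_⟩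
  · rw [e1]
    exact (map_ne_zero φ).2 h1
  · rw [← hψ, ← map_mul, h2, SPE_twist φ ψ hψ, hψθ]
  · rw [e1, e2, ← map_mul, h3]

theorem SPE_Rel.prod (T : Finset (EE W)) (a : EE W → EE W) (c : EE W → W)
    (h : ∀ y ∈ T, SPE_Rel θ β t (a y) (c y)) :
    SPE_Rel θ β t (∏ y ∈ T, a y) (∏ y ∈ T, c y) := by
  classical
  induction T using Finset.induction_on with
  | empty => simpa using SPE_Rel.one
  | insert y T hy ih =>
    rw [Finset.prod_insert hy, Finset.prod_insert hy]
    exact (h y (Finset.mem_insert_self y T)).mul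
      (ih fun y' hy' => h y' (Finset.mem_insert_of_mem hy'))

theorem SPE_Rel.of_frac {z : EE W} {D : W[X]} {A : W[X][X]} (hD : D.eval β ≠ 0)
    (h : algebraMap W[X] (EE W) D * z = aeval θ A) : ∃ c, SPE_Rel θ β t z c :=
  ⟨evalEval β t A / D.eval β, D, A, hD, h, mul_div_cancel₀ _ hD⟩

end rel

/-- main result of the file -/
theorem specialize (φ : W ≃+* W) (ψ : EE W ≃+* EE W)
    (hψ : ∀ g : W[X], ψ (algebraMap W[X] (EE W) g) = algebraMap W[X] (EE W) (g.map φ.toRingHom))
    (θ : EE W) (hθ : IsIntegral W[X] θ) (hψθ : ψ θ = θ) (S : Finset (EE W))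
    (hS : ∀ y ∈ S, y ∈ IntermediateField.adjoin (KK W) {θ}) (hψS : ∀ y ∈ S, ψ y ∈ S)
    (hfix : ∀ y ∈ S, ψ y ≠ y) :
    ∃ (P : W[X][X]) (D : W[X]), P.Monic ∧ 0 < P.natDegree ∧ Irreducible P ∧
      P.map (mapRingHom φ.toRingHom) = P ∧ D ≠ 0 ∧
      ∀ β t : W, φ β = β → φ t = t → evalEval β t P = 0 → D.eval β ≠ 0 →
        ∀ (T : Finset (EE W)) (f : W[X][X]), T ⊆ S →
          f.map (algebraMap W[X] (EE W)) = ∏ y ∈ T, (X - C y) →
          ∀ x : W, φ x = x → (f.map (evalRingHom β)).eval x ≠ 0 := by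
  classical
  have hfr : ∀ z : EE W, ∃ (D : W[X]) (A : W[X][X]), D ≠ 0 ∧
      (z ∈ IntermediateField.adjoin (KK W) {θ} →
        algebraMap W[X] (EE W) D * z = aeval θ A) := by
    intro z
    by_cases hz : z ∈ IntermediateField.adjoin (KK W) {θ}
    · obtain ⟨D, A, h1, h2⟩ := SPE_frac θ z hz
      exact ⟨D, A, h1, fun _ => h2⟩
    · exact ⟨1, 0, one_ne_zero, fun h => absurd h hz⟩
  choose Dz Az hDz hAz using hfr
  have hmon := minpoly.monic hθ
  refine ⟨minpoly W[X] θ, ∏ y ∈ S, (Dz y * Dz ((y - ψ y)⁻¹)), hmon, minpoly.natDegree_pos hθ,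
    minpoly.irreducible hθ, ?_, ?_, ?_⟩
  · have h1 : aeval θ ((minpoly W[X] θ).map (mapRingHom φ.toRingHom)) = 0 := by
      have := SPE_twist φ ψ hψ θ (minpoly W[X] θ)
      rw [hψθ, minpoly.aeval, map_zero] at this
      exact this.symm
    haveI := SPE_nzsmd (W := W)
    have h2 := minpoly.isIntegrallyClosed_dvd hθ h1
    exact eq_of_monic_of_dvd_of_natDegree_le hmon (hmon.map _) h2 natDegree_map_le
  · rw [Finset.prod_ne_zero_iff]
    intro y _
    exact mul_ne_zero (hDz _) (hDz _)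
  · intro β t hβ ht hP hD T f hTS hf x hx hzero
    rw [eval_prod, Finset.prod_ne_zero_iff] at hD
    have hc : ∀ y : EE W, ∃ c : W, y ∈ S → SPE_Rel θ β t y c := by
      intro y
      by_cases hy : y ∈ S
      · have h1 := hD y hy
        rw [eval_mul] at h1
        obtain ⟨c, hc⟩ := SPE_Rel.of_frac (t := t) (left_ne_zero_of_mul h1) (hAz y (hS y hy))
        exact ⟨c, fun _ => hc⟩
      · exact ⟨0, fun h => absurd h hy⟩
    choose c hc using hc
    have hne : ∀ y ∈ S, φ (c y) ≠ c y := by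
      intro y hy heq
      have h1 := hD y hy
      rw [eval_mul] at h1
      have h2 := (hc y hy).twist φ ψ hψ hψθ hβ ht
      rw [heq] at h2
      have h3 := (hc y hy).sub h2
      rw [sub_self] at h3
      have hsub : y - ψ y ≠ 0 := sub_ne_zero.2 (hfix y hy).symm
      obtain ⟨c', hc'⟩ := SPE_Rel.of_frac (t := t) (right_ne_zero_of_mul h1)
        (hAz ((y - ψ y)⁻¹) (inv_mem (sub_mem (hS y hy) (hS _ (hψS y hy)))))
      have h4 := h3.mul hc'
      rw [mul_inv_cancel₀ hsub, zero_mul] at h4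
      exact one_ne_zero (SPE_Rel.one.unique hθ hP h4)
    have h1 : SPE_Rel θ β t (algebraMap W[X] (EE W) (f.eval (C x))) ((f.eval (C x)).eval β) :=
      SPE_Rel.base _
    have h2 : algebraMap W[X] (EE W) (f.eval (C x)) =
        ∏ y ∈ T, (algebraMap W[X] (EE W) (C x) - y) := by
      have h3 := congrArg (eval (algebraMap W[X] (EE W) (C x))) hf
      rw [eval_map_apply, eval_prod] at h3
      rw [h3]
      refine Finset.prod_congr rfl fun y _ => ?_
      simp
    have h3 : SPE_Rel θ β t (∏ y ∈ T, (algebraMap W[X] (EE W) (C x) - y)) (∏ y ∈ T, (x - c y)) := by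
      refine SPE_Rel.prod T _ _ fun y hy => ?_
      have := SPE_Rel.base (θ := θ) (β := β) (t := t) (C x)
      rw [eval_C] at this
      exact this.sub (hc y (hTS hy))
    rw [← h2] at h3
    have h4 := h1.unique hθ hP h3
    rw [map_evalRingHom_eval] at hzero
    change (f.eval (C x)).eval β = 0 at hzero
    rw [hzero] at h4
    obtain ⟨y, hy, hxy⟩ := Finset.prod_eq_zero_iff.1 h4.symm
    have h5 : x = c y := sub_eq_zero.1 hxy
    exact hne y (hTS hy) (by rw [← h5]; exact hx)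

end Pool.Agent.Helper897.BS
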