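import Pool.Agent.Helper897_BS.Defs

/-! A fixed primitive element. -/

set_option autoImplicit false
set_option linter.all false

namespace Pool.Agent.Helper897.BS

open Polynomial

variable {W : Type} [Field W] [IsAlgClosed W] [CharZero W]

section Fixed

omit [IsAlgClosed W] [CharZero W]

/-- The ring of the polynomials with coefficients fixed by `φ`. -/
noncomputable def R1 (φ : W ≃+* W) : Subring W[X] :=
  RingHom.eqLocus (mapRingHom φ.toRingHom) (RingHom.id W[X])

theorem mem_R1 (φ : W ≃+* W) (g : W[X]) : g ∈ R1 φ ↔ g.map φ.toRingHom = g := Iff.rfl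

theorem algebraMap_EE_injective : Function.Injective (algebraMap W[X] (EE W)) := by
  rw [IsScalarTower.algebraMap_eq W[X] (KK W) (EE W)]
  exact (algebraMap (KK W) (EE W)).injective.comp (IsFractionRing.injective W[X] (KK W))

theorem isIntegral_R1 (φ : W ≃+* W) (ψ : EE W ≃+* EE W)
    (hψ : ∀ g : W[X], ψ (algebraMap W[X] (EE W) g) =
      algebraMap W[X] (EE W) (g.map φ.toRingHom)) (z : EE W) (hz : IsIntegral W[X] z)
    (hfix : ψ z = z) : IsIntegral (R1 φ) z := by
  have htf : Module.IsTorsionFree W[X] (EE W) :=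
    Module.isTorsionFree_iff_algebraMap_injective.2 algebraMap_EE_injective
  set P := minpoly W[X] z with hP
  have hPm : P.Monic := minpoly.monic hz
  set Φ : W[X] →+* W[X] := mapRingHom φ.toRingHom with hΦ
  have hroot : aeval z (P.map Φ) = 0 := by
    have h1 : ψ (aeval z P) = aeval (ψ z) (P.map Φ) := by
      rw [aeval_def, aeval_def, eval₂_map]
      have h2 := Polynomial.hom_eval₂ P (algebraMap W[X] (EE W)) (ψ : EE W →+* EE W) z
      have h3 : (ψ : EE W →+* EE W).comp (algebraMap W[X] (EE W)) =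
          (algebraMap W[X] (EE W)).comp Φ := RingHom.ext fun g => hψ g
      rw [h3] at h2
      exact h2
    rw [hfix] at h1
    rw [← h1, minpoly.aeval, map_zero]
  have hdvd : P ∣ P.map Φ := minpoly.isIntegrallyClosed_dvd hz hroot
  have hEq : P.map Φ = P := eq_of_monic_of_dvd_of_natDegree_le hPm (hPm.map Φ) hdvd
    (natDegree_map_le)
  have hco : (P.coeffs : Set W[X]) ⊆ (R1 φ : Subring W[X]) := by
    intro c hc
    obtain ⟨n, -, rfl⟩ := mem_coeffs_iff.1 hc
    change (P.coeff n).map φ.toRingHom = P.coeff n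
    have h1 : (P.map Φ).coeff n = P.coeff n := by rw [hEq]
    rw [coeff_map] at h1
    exact h1
  refine ⟨P.toSubring (R1 φ) hco, (monic_toSubring _ _ _).2 hPm, ?_⟩
  have h1 : (P.toSubring (R1 φ) hco).map (R1 φ).subtype = P := map_toSubring _ _ _
  have h2 : algebraMap (R1 φ) (EE W) = (algebraMap W[X] (EE W)).comp (R1 φ).subtype := rfl
  rw [h2, ← eval₂_map, h1]
  exact minpoly.aeval W[X] z

end Fixed

section Prim

omit [IsAlgClosed W]

theorem prim (φ : W ≃+* W) (ψ : EE W ≃+* EE W)
    (hψ : ∀ g : W[X], ψ (algebraMap W[X] (EE W) g) =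
      algebraMap W[X] (EE W) (g.map φ.toRingHom)) (T : Finset (EE W))
    (hT : ∀ z ∈ T, IsIntegral W[X] z) (hTf : ∀ z ∈ T, ψ z = z) :
    ∃ θ : EE W, IsIntegral W[X] θ ∧ ψ θ = θ ∧
      ∀ y ∈ T, y ∈ IntermediateField.adjoin (KK W) {θ} := by
  have hinj : Function.Injective (algebraMap (R1 φ) (EE W)) :=
    algebraMap_EE_injective.comp Subtype.val_injective
  let F := FractionRing (R1 φ)
  let _ : Algebra F (EE W) := (IsFractionRing.lift hinj : F →+* EE W).toAlgebra
  have : IsScalarTower (R1 φ) F (EE W) :=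
    IsScalarTower.of_algebraMap_eq fun x => (IsFractionRing.lift_algebraMap hinj x).symm
  have : CharZero F := by
    have h1 : Function.Injective (algebraMap (R1 φ) F) := IsFractionRing.injective _ _
    have : CharZero (R1 φ) := by
      refine ⟨fun a b hab => ?_⟩
      have h2 : ((a : R1 φ) : W[X]) = ((b : R1 φ) : W[X]) := congrArg Subtype.val hab
      have h3 : ((a : ℕ) : W[X]) = ((b : ℕ) : W[X]) := by simpa using h2
      exact Nat.cast_injective h3
    exact charZero_of_injective_algebraMap h1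
  -- elements of `F` are quotients of fixed polynomials
  have hF : ∀ c : F, ∃ a b : R1 φ, (b : W[X]) ≠ 0 ∧ algebraMap F (EE W) c =
      algebraMap W[X] (EE W) a / algebraMap W[X] (EE W) b := by
    intro c
    obtain ⟨a, b, hb, rfl⟩ := IsFractionRing.div_surjective (R1 φ) c
    refine ⟨a, b, ?_, ?_⟩
    · intro h
      exact nonZeroDivisors.ne_zero hb (Subtype.ext h)
    · rw [map_div₀, ← IsScalarTower.algebraMap_apply (R1 φ) F (EE W),
        ← IsScalarTower.algebraMap_apply (R1 φ) F (EE W)]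
      rfl
  have hfixR : ∀ a : R1 φ, ψ (algebraMap W[X] (EE W) a) = algebraMap W[X] (EE W) a := by
    intro a
    rw [hψ, (mem_R1 φ a).1 a.2]
  have hfixF : ∀ c : F, ψ (algebraMap F (EE W) c) = algebraMap F (EE W) c := by
    intro c
    obtain ⟨a, b, -, h⟩ := hF c
    rw [h, map_div₀, hfixR, hfixR]
  have hKF : ∀ (θ : EE W) (c : F), algebraMap F (EE W) c ∈
      IntermediateField.adjoin (KK W) {θ} := by
    intro θ c
    obtain ⟨a, b, -, h⟩ := hF c
    rw [h]
    refine div_mem ?_ ?_
    · rw [IsScalarTower.algebraMap_apply W[X] (KK W) (EE W)]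
      exact IntermediateField.algebraMap_mem _ _
    · rw [IsScalarTower.algebraMap_apply W[X] (KK W) (EE W)]
      exact IntermediateField.algebraMap_mem _ _
  have hTF : ∀ x ∈ (T : Set (EE W)), IsIntegral F x := fun x hx =>
    (isIntegral_R1 φ ψ hψ x (hT x hx) (hTf x hx)).tower_top
  have : Finite (T : Set (EE W)) := T.finite_toSet
  have : FiniteDimensional F (IntermediateField.adjoin F (T : Set (EE W))) :=
    IntermediateField.finiteDimensional_adjoin hTF
  obtain ⟨α, hα⟩ := Field.exists_primitive_element F (IntermediateField.adjoin F (T : Set (EE W)))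
  -- all elements of the field generated by `T` are fixed
  have hLfix : ∀ x ∈ IntermediateField.adjoin F (T : Set (EE W)), ψ x = x := by
    intro x hx
    induction hx using IntermediateField.adjoin_induction with
    | mem x hx => exact hTf x hx
    | algebraMap c => exact hfixF c
    | add x y _ _ h1 h2 => rw [map_add, h1, h2]
    | inv x _ h => rw [map_inv₀, h]
    | mul x y _ _ h1 h2 => rw [map_mul, h1, h2]
  have hαint : IsIntegral F (α : EE W) :=
    (IntermediateField.isIntegral_iff).1 (Algebra.IsIntegral.isIntegral α)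
  have hαalg : IsAlgebraic (R1 φ) (α : EE W) := by
    have h1 : IsAlgebraic F (α : EE W) := hαint.isAlgebraic
    exact (IsFractionRing.isAlgebraic_iff (R1 φ) F (EE W)).2 h1
  obtain ⟨r, hr, hrint⟩ := hαalg.exists_integral_multiple
  have hr0 : algebraMap W[X] (EE W) (r : W[X]) ≠ 0 := by
    intro h
    apply hr
    apply Subtype.ext
    exact algebraMap_EE_injective (by rw [h]; simp)
  have hsm : r • (α : EE W) = algebraMap W[X] (EE W) (r : W[X]) * (α : EE W) := by
    rw [Algebra.smul_def]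
    rfl
  refine ⟨r • (α : EE W), ?_, ?_, ?_⟩
  · exact hrint.tower_top
  · rw [hsm, map_mul, hfixR, hLfix _ α.2]
  · intro y hy
    have hαK : (α : EE W) ∈ IntermediateField.adjoin (KK W) {r • (α : EE W)} := by
      have h1 : (α : EE W) = (r • (α : EE W)) / algebraMap W[X] (EE W) (r : W[X]) := by
        rw [hsm, mul_div_cancel_left₀ _ hr0]
      have h2 : (r • (α : EE W)) / algebraMap W[X] (EE W) (r : W[X]) ∈
          IntermediateField.adjoin (KK W) {r • (α : EE W)} := by
        refine div_mem (IntermediateField.mem_adjoin_simple_self _ _) ?_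
        rw [IsScalarTower.algebraMap_apply W[X] (KK W) (EE W)]
        exact IntermediateField.algebraMap_mem _ _
      rwa [← h1] at h2
    have hyL : y ∈ IntermediateField.adjoin F (T : Set (EE W)) :=
      IntermediateField.subset_adjoin F _ hy
    have hyα : (⟨y, hyL⟩ : IntermediateField.adjoin F (T : Set (EE W))) ∈
        IntermediateField.adjoin F {α} := by
      rw [hα]
      trivial
    have key : ∀ x : IntermediateField.adjoin F (T : Set (EE W)),
        x ∈ IntermediateField.adjoin F {α} →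
        (x : EE W) ∈ IntermediateField.adjoin (KK W) {r • (α : EE W)} := by
      intro x hx
      induction hx using IntermediateField.adjoin_induction with
      | mem x hx =>
        rw [Set.mem_singleton_iff] at hx
        rw [hx]
        exact hαK
      | algebraMap c => exact hKF _ c
      | add x y _ _ h1 h2 => exact add_mem h1 h2
      | inv x _ h => exact inv_mem h
      | mul x y _ _ h1 h2 => exact mul_mem h1 h2
    exact key _ hyα

end Prim

section Vdm

omit [IsAlgClosed W] [CharZero W]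

theorem vdm (φ : W ≃+* W)
    (hper : ∀ l, 0 < l → ∃ a, (⇑φ)^[l] a = a ∧ ∀ i, 0 < i → i < l → (⇑φ)^[i] a ≠ a)
    (ψ : EE W ≃+* EE W) (hψ : ∀ g : W[X], ψ (algebraMap W[X] (EE W) g) =
      algebraMap W[X] (EE W) (g.map φ.toRingHom))
    (y : EE W) (l : ℕ) (hl : 0 < l) (hy : (⇑ψ)^[l] y = y)
    (hint : ∀ i, IsIntegral W[X] ((⇑ψ)^[i] y)) :
    ∃ z : Fin l → EE W, (∀ j, IsIntegral W[X] (z j)) ∧ (∀ j, ψ (z j) = z j) ∧
      ∃ c : Fin l → W, y = ∑ j, algebraMap W[X] (EE W) (C (c j)) * z j := by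
  obtain ⟨a, ha, hane⟩ := hper l hl
  set ι : W →+* EE W := (algebraMap W[X] (EE W)).comp C with hι
  have hψι : ∀ w : W, ψ (ι w) = ι (φ w) := by
    intro w
    change ψ (algebraMap W[X] (EE W) (C w)) = algebraMap W[X] (EE W) (C (φ w))
    rw [hψ, map_C]
    rfl
  let v : Fin l → W := fun i => (⇑φ)^[i] a
  have hv : Function.Injective v := by
    have key : ∀ i j : ℕ, i < j → j < l → (⇑φ)^[i] a ≠ (⇑φ)^[j] a := by
      intro i j hij hjl h
      have h1 : (⇑φ)^[i] ((⇑φ)^[j - i] a) = (⇑φ)^[i] a := by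
        rw [← Function.iterate_add_apply, Nat.add_sub_cancel' hij.le, h]
      exact hane (j - i) (Nat.sub_pos_of_lt hij) (lt_of_le_of_lt (Nat.sub_le _ _) hjl)
        (φ.injective.iterate i h1)
    intro i j hij
    by_contra hne
    rcases lt_or_gt_of_ne (fun h => hne (Fin.ext h)) with h | h
    · exact key i j h j.2 hij
    · exact key j i h i.2 hij.symm
  let z : Fin l → EE W := fun j => ∑ i ∈ Finset.range l, ι ((⇑φ)^[i] a) ^ (j : ℕ) * (⇑ψ)^[i] y
  refine ⟨z, fun j => ?_, fun j => ?_, ?_⟩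
  · refine IsIntegral.sum _ fun i _ => IsIntegral.mul (IsIntegral.pow ?_ _) (hint i)
    exact isIntegral_algebraMap
  · let f : ℕ → EE W := fun i => ι ((⇑φ)^[i] a) ^ (j : ℕ) * (⇑ψ)^[i] y
    have h1 : ψ (∑ i ∈ Finset.range l, f i) = ∑ i ∈ Finset.range l, f (i + 1) := by
      rw [map_sum]
      refine Finset.sum_congr rfl fun i _ => ?_
      change ψ (ι ((⇑φ)^[i] a) ^ (j : ℕ) * (⇑ψ)^[i] y) =
        ι ((⇑φ)^[i + 1] a) ^ (j : ℕ) * (⇑ψ)^[i + 1] y
      rw [map_mul, map_pow, hψι, Function.iterate_succ_apply' (⇑φ), Function.iterate_succ_apply' (⇑ψ)]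
    have h2 : ∑ i ∈ Finset.range l, f (i + 1) = ∑ i ∈ Finset.range l, f i := by
      have h3 := Finset.sum_range_succ f l
      have h4 := Finset.sum_range_succ' f l
      have h5 : f l = f 0 := by
        change ι ((⇑φ)^[l] a) ^ (j : ℕ) * (⇑ψ)^[l] y = ι ((⇑φ)^[0] a) ^ (j : ℕ) * (⇑ψ)^[0] y
        rw [ha, hy]
        rfl
      rw [h3, h5] at h4
      exact (add_right_cancel h4).symm
    exact h1.trans h2
  · let M : Matrix (Fin l) (Fin l) W := (Matrix.vandermonde v).transpose
    have hdet : IsUnit M.det := by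
      rw [Matrix.det_transpose]
      exact isUnit_iff_ne_zero.2 (Matrix.det_vandermonde_ne_zero_iff.2 hv)
    let N : Matrix (Fin l) (Fin l) W := M⁻¹
    have hNM : N * M = 1 := Matrix.nonsing_inv_mul M hdet
    let i0 : Fin l := ⟨0, hl⟩
    refine ⟨fun j => N i0 j, ?_⟩
    have hz : ∀ j, z j = ∑ i : Fin l, ι (M j i) * (⇑ψ)^[(i : ℕ)] y := by
      intro j
      change ∑ i ∈ Finset.range l, ι ((⇑φ)^[i] a) ^ (j : ℕ) * (⇑ψ)^[i] y = _
      rw [Finset.sum_range]
      refine Finset.sum_congr rfl fun i _ => ?_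
      congr 1
      rw [← map_pow]
      rfl
    change y = ∑ j, ι (N i0 j) * z j
    have h1 : ∑ j, ι (N i0 j) * z j =
        ∑ i : Fin l, ι ((N * M) i0 i) * (⇑ψ)^[(i : ℕ)] y := by
      simp_rw [hz, Finset.mul_sum]
      rw [Finset.sum_comm]
      refine Finset.sum_congr rfl fun i _ => ?_
      rw [Matrix.mul_apply, map_sum, Finset.sum_mul]
      refine Finset.sum_congr rfl fun j _ => ?_
      rw [map_mul, mul_assoc]
    rw [h1, hNM, Finset.sum_eq_single i0]
    · rw [Matrix.one_apply_eq, map_one, one_mul]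
      rfl
    · intro i _ hi
      rw [Matrix.one_apply_ne (Ne.symm hi), map_zero, zero_mul]
    · intro h
      exact absurd (Finset.mem_univ _) h

end Vdm

/-- main result of the file -/
theorem theta (φ : W ≃+* W)
    (hper : ∀ l, 0 < l → ∃ a, (⇑φ)^[l] a = a ∧ ∀ i, 0 < i → i < l → (⇑φ)^[i] a ≠ a)
    (ψ : EE W ≃+* EE W) (hψ : ∀ g : W[X], ψ (algebraMap W[X] (EE W) g) =
      algebraMap W[X] (EE W) (g.map φ.toRingHom))
    (S : Finset (EE W)) (hSψ : ∀ y ∈ S, ψ y ∈ S) (hint : ∀ y ∈ S, IsIntegral W[X] y) :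
    ∃ θ : EE W, IsIntegral W[X] θ ∧ ψ θ = θ ∧
      ∀ y ∈ S, y ∈ IntermediateField.adjoin (KK W) {θ} := by
  classical
  have hit : ∀ y ∈ S, ∀ i, (⇑ψ)^[i] y ∈ S := by
    intro y hy i
    induction i with
    | zero => exact hy
    | succ i ih =>
      rw [Function.iterate_succ_apply']
      exact hSψ _ ih
  have hperiod : ∀ y ∈ S, ∃ l, 0 < l ∧ (⇑ψ)^[l] y = y := by
    intro y hy
    obtain ⟨i, j, hij, h⟩ := Finite.exists_ne_map_eq_of_infinite
      (fun i : ℕ => (⟨(⇑ψ)^[i] y, hit y hy i⟩ : S))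
    have h' : (⇑ψ)^[i] y = (⇑ψ)^[j] y := congrArg Subtype.val h
    have key : ∀ i j : ℕ, i < j → (⇑ψ)^[i] y = (⇑ψ)^[j] y → ∃ l, 0 < l ∧ (⇑ψ)^[l] y = y := by
      intro i j hij h
      refine ⟨j - i, Nat.sub_pos_of_lt hij, ψ.injective.iterate i ?_⟩
      rw [← Function.iterate_add_apply, Nat.add_sub_cancel' hij.le, h]
    rcases lt_or_gt_of_ne hij with h1 | h1
    · exact key i j h1 h'
    · exact key j i h1 h'.symm
  choose! l hl hly using hperiod
  have hv : ∀ y ∈ S, ∃ T : Finset (EE W), (∀ z ∈ T, IsIntegral W[X] z) ∧ (∀ z ∈ T, ψ z = z) ∧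
      ∀ θ : EE W, (∀ z ∈ T, z ∈ IntermediateField.adjoin (KK W) {θ}) →
        y ∈ IntermediateField.adjoin (KK W) {θ} := by
    intro y hy
    obtain ⟨z, hz1, hz2, c, hc⟩ := vdm φ hper ψ hψ y (l y) (hl y hy) (hly y hy)
      (fun i => hint _ (hit y hy i))
    refine ⟨Finset.univ.image z, ?_, ?_, ?_⟩
    · intro x hx
      obtain ⟨j, -, rfl⟩ := Finset.mem_image.1 hx
      exact hz1 j
    · intro x hx
      obtain ⟨j, -, rfl⟩ := Finset.mem_image.1 hx
      exact hz2 j
    · intro θ hθ
      rw [hc]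
      refine sum_mem fun j _ => mul_mem ?_ (hθ _ (Finset.mem_image_of_mem _ (Finset.mem_univ j)))
      rw [IsScalarTower.algebraMap_apply W[X] (KK W) (EE W)]
      exact IntermediateField.algebraMap_mem _ _
  choose! T hT1 hT2 hT3 using hv
  obtain ⟨θ, h1, h2, h3⟩ := prim φ ψ hψ (S.biUnion T)
    (by
      intro z hz
      obtain ⟨y, hy, hzy⟩ := Finset.mem_biUnion.1 hz
      exact hT1 y hy z hzy)
    (by
      intro z hz
      obtain ⟨y, hy, hzy⟩ := Finset.mem_biUnion.1 hz
      exact hT2 y hy z hzy)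
  exact ⟨θ, h1, h2, fun y hy => hT3 y hy θ fun z hz => h3 z (Finset.mem_biUnion.2 ⟨y, hy, hz⟩)⟩

end Pool.Agent.Helper897.BS
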