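import Pool.Agent.Helper897_BS.Defs

/-! Twists and elements without fixed points. -/

set_option autoImplicit false
namespace Pool.Agent.Helper897.BS
open Polynomial

/-- An automorphism of `W` extends to the algebraic closure of `W(b)`, fixing `b`. -/
theorem exists_twist {W : Type} [Field W] (φ : W ≃+* W) :
    ∃ ψ : EE W ≃+* EE W, ∀ g : W[X], ψ (algebraMap W[X] (EE W) g) =
      algebraMap W[X] (EE W) (g.map φ.toRingHom) := by
  let φ1 : W[X] ≃+* W[X] := Polynomial.mapEquiv φ
  let φ2 : KK W ≃+* KK W := IsFractionRing.ringEquivOfRingEquiv φ1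
  refine ⟨IsAlgClosure.equivOfEquiv (EE W) (EE W) φ2, fun g => ?_⟩
  rw [IsScalarTower.algebraMap_apply W[X] (KK W) (EE W), IsAlgClosure.equivOfEquiv_algebraMap]
  rw [IsScalarTower.algebraMap_apply W[X] (KK W) (EE W)]
  congr 1
  have : φ2 (algebraMap W[X] (KK W) g) = algebraMap W[X] (KK W) (φ1 g) := by
    exact IsFractionRing.ringEquivOfRingEquiv_algebraMap _ _
  rw [this]
  rfl

/-- Every coset contains an element without fixed points on `S`, if the swaps are available. -/
theorem exists_fixfree {E : Type} [Field E] (S : Finset E) (N : Set (E ≃+* E))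
    (hN1 : (1 : E ≃+* E) ∈ N)
    (hN : ∀ σ ∈ N, ∀ τ ∈ N, σ * τ ∈ N)
    (hs : ∀ y ∈ S, ∃ y' ∈ S, y' ≠ y ∧ ∃ σ ∈ N, σ y = y' ∧ σ y' = y ∧
      ∀ z ∈ S, z ≠ y → z ≠ y' → σ z = z)
    (ψ : E ≃+* E) : ∃ σ ∈ N, ∀ y ∈ S, ψ (σ y) ≠ y := by
  classical
  -- induction on the number of fixed points
  have key : ∀ n : ℕ, ∀ σ ∈ N, (S.filter fun y => ψ (σ y) = y).card ≤ n →
      ∃ σ ∈ N, ∀ y ∈ S, ψ (σ y) ≠ y := by
    intro n
    induction n with
    | zero =>
      intro σ hσ h
      refine ⟨σ, hσ, fun y hy h1 => ?_⟩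
      rw [Nat.le_zero, Finset.card_eq_zero] at h
      have : y ∈ S.filter fun y => ψ (σ y) = y := Finset.mem_filter.2 ⟨hy, h1⟩
      rw [h] at this
      simp at this
    | succ n ih =>
      intro σ hσ h
      by_cases h0 : ∀ y ∈ S, ψ (σ y) ≠ y
      · exact ⟨σ, hσ, h0⟩
      push Not at h0
      obtain ⟨y, hy, hyf⟩ := h0
      obtain ⟨y', hy', hne, τ, hτ, h1, h2, h3⟩ := hs y hy
      refine ih (σ * τ) (hN σ hσ τ hτ) ?_
      have hlt : (S.filter fun z => ψ ((σ * τ) z) = z) ⊂ (S.filter fun z => ψ (σ z) = z) := by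
        rw [Finset.ssubset_iff_subset_ne]
        constructor
        · intro z hz
          rw [Finset.mem_filter] at hz ⊢
          refine ⟨hz.1, ?_⟩
          have hz2 : ψ (σ (τ z)) = z := hz.2
          by_cases hzy : z = y
          · subst hzy
            exact hyf
          by_cases hzy' : z = y'
          · subst hzy'
            rw [h2, hyf] at hz2
            exact absurd hz2.symm hne
          rw [h3 z hz.1 hzy hzy'] at hz2
          exact hz2
        · intro he
          have h4 : y ∈ S.filter fun z => ψ (σ z) = z := Finset.mem_filter.2 ⟨hy, hyf⟩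
          rw [← he, Finset.mem_filter] at h4
          have h5 : ψ (σ (τ y)) = y := h4.2
          rw [h1] at h5
          have h6 : ψ (σ y') = ψ (σ y) := by rw [h5, hyf]
          exact hne (σ.injective (ψ.injective h6))
      have := Finset.card_lt_card hlt
      omega
  exact key _ 1 hN1 le_rfl

end Pool.Agent.Helper897.BS
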