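import Pool.Agent.Helper897_BS.TAN2
import Pool.Agent.Helper897_BS.HEN
import Pool.Agent.Helper897_BS.DER
import Pool.Agent.Helper897_BS.THE
import Pool.Agent.Helper897_BS.SPE
import Pool.Agent.Helper897_BS.FAC
import Pool.Agent.Helper897_BS.LIN
import Pool.Agent.Helper897_BS.TWI

/-! The geometric theorem: a twisted splitting curve without rational points of the plane curve. -/

set_option autoImplicit false
set_option linter.all false

namespace Pool.Agent.Helper897.BS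

open Polynomial

section basics

variable {W : Type} [Field W]

/-- the value of the derivative with respect to the inner variable -/
noncomputable def dsum (b₀ x₀ : W) (f : W[X][X]) : W :=
  f.sum fun i a => (derivative a).eval b₀ * x₀ ^ i

theorem dsum_C_mul (b₀ x₀ u : W) (hu : u ≠ 0) (f : W[X][X]) :
    dsum b₀ x₀ (C (C u) * f) = u * dsum b₀ x₀ f := by
  unfold dsum
  rw [← Polynomial.smul_eq_C_mul, Polynomial.sum_smul_index, Polynomial.sum, Polynomial.sum,
    Finset.mul_sum]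
  · apply Finset.sum_congr rfl
    intro i _
    rw [derivative_C_mul, eval_mul, eval_C]
    ring
  · intro i
    simp

theorem lineP_phi {k W : Type} [Field k] [Field W] [Algebra k W] (φ₀ : k ≃+* k) (φ : W ≃+* W)
    (hφ : ∀ c, φ (algebraMap k W c) = algebraMap k W (φ₀ c)) (m : W)
    (H : MvPolynomial (Fin 2) k) :
    (lineP m H).map (mapRingHom φ.toRingHom) = lineP (φ m) (MvPolynomial.map φ₀.toRingHom H) := by
  induction H using MvPolynomial.induction_on with
  | C a =>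
    rw [MvPolynomial.map_C]
    have h1 : lineP m (MvPolynomial.C a) = (C (C (algebraMap k W a)) : W[X][X]) :=
      MvPolynomial.aeval_C _ _
    have h2 : lineP (φ m) (MvPolynomial.C (φ₀.toRingHom a)) =
        (C (C (algebraMap k W (φ₀ a))) : W[X][X]) := MvPolynomial.aeval_C _ _
    rw [h1, h2, ← hφ]
    simp
  | add p q hp hq => rw [map_add, Polynomial.map_add, hp, hq, map_add, map_add]
  | mul_X p i hp =>
    rw [map_mul, Polynomial.map_mul, hp, map_mul, map_mul]
    congr 1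
    fin_cases i
    · simp [lineP]
    · simp [lineP]

theorem normal_phi (φ : W ≃+* W) (u : W) (hu : u ≠ 0) (f : W[X][X]) (hf : f.Monic)
    (h : (C (C u) * f).map (mapRingHom φ.toRingHom) = C (C u) * f) :
    f.map (mapRingHom φ.toRingHom) = f := by
  rw [Polynomial.map_mul, Polynomial.map_C] at h
  have h1 := congrArg leadingCoeff h
  have e1 : mapRingHom φ.toRingHom (C u) = C (φ u) := by simp
  rw [e1, leadingCoeff_mul, leadingCoeff_mul, leadingCoeff_C, leadingCoeff_C, hf.leadingCoeff,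
    (hf.map _).leadingCoeff, mul_one, mul_one] at h1
  have h2 : φ u = u := C_injective h1
  rw [e1, h2] at h
  have h3 : (C (C u) : W[X][X]) ≠ 0 := by
    rw [Ne, C_eq_zero, C_eq_zero]
    exact hu
  exact mul_left_cancel₀ h3 h

end basics

section roots

variable {W : Type} [Field W] [IsAlgClosed W] [CharZero W]

open Classical in
/-- the roots of `f` in the algebraic closure of `W(b)` -/
noncomputable def rts (f : W[X][X]) : Finset (EE W) :=
  (f.map (algebraMap W[X] (EE W))).roots.toFinset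

theorem mem_rts {f : W[X][X]} (hf : f.Monic) {y : EE W} : y ∈ rts f ↔ aeval y f = 0 := by
  classical
  unfold rts
  rw [Multiset.mem_toFinset, mem_roots (hf.map _).ne_zero, IsRoot.def, eval_map, ← aeval_def]

theorem map_KK {f : W[X][X]} :
    (f.map (algebraMap W[X] (KK W))).map (algebraMap (KK W) (EE W)) =
      f.map (algebraMap W[X] (EE W)) := by
  rw [Polynomial.map_map, ← IsScalarTower.algebraMap_eq]

theorem irr_KK {f : W[X][X]} (hf : f.Monic) (hi : Irreducible f) :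
    Irreducible (f.map (algebraMap W[X] (KK W))) :=
  (hf.irreducible_iff_irreducible_map_fraction_map (K := KK W)).1 hi

theorem prod_rts {f : W[X][X]} (hf : f.Monic) (hi : Irreducible f) :
    f.map (algebraMap W[X] (EE W)) = ∏ y ∈ rts f, (X - C y) := by
  classical
  have hsep : (f.map (algebraMap W[X] (EE W))).Separable := by
    rw [← map_KK]
    exact (irr_KK hf hi).separable.map
  have h1 : (f.map (algebraMap W[X] (EE W))).roots.Nodup := nodup_roots hsep
  have h2 := (IsAlgClosed.splits (f.map (algebraMap W[X] (EE W)))).eq_prod_roots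
  rw [(hf.map _).leadingCoeff, C_1, one_mul] at h2
  conv_lhs => rw [h2]
  unfold rts
  rw [Finset.prod_eq_multiset_prod, Multiset.toFinset_val, Multiset.dedup_eq_self.2 h1]

theorem minpoly_rts {f : W[X][X]} (hf : f.Monic) (hi : Irreducible f) {y : EE W}
    (hy : aeval y f = 0) : minpoly (KK W) y = f.map (algebraMap W[X] (KK W)) := by
  symm
  apply minpoly.eq_of_irreducible_of_monic (irr_KK hf hi) _ (hf.map _)
  rw [aeval_map_algebraMap]
  exact hy

theorem conj_rts {f : W[X][X]} (hf : f.Monic) (hi : Irreducible f) {y y' : EE W}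
    (hy : aeval y f = 0) (hy' : aeval y' f = 0) : ∃ σ : EE W ≃ₐ[KK W] EE W, σ y = y' := by
  have h : IsConjRoot (KK W) y' y := by
    rw [isConjRoot_def, minpoly_rts hf hi hy, minpoly_rts hf hi hy']
  obtain ⟨σ, hσ⟩ := h.exists_algEquiv
  exact ⟨σ, hσ⟩

theorem aeval_algEquiv {f : W[X][X]} (σ : EE W ≃ₐ[KK W] EE W) (y : EE W) :
    aeval (σ y) f = σ (aeval y f) := by
  have h : ∀ z : EE W, aeval z f = aeval z (f.map (algebraMap W[X] (KK W))) := fun z => by
    rw [aeval_map_algebraMap]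
  rw [h, h]
  exact Polynomial.aeval_algHom_apply σ.toAlgHom y _

theorem alg_fix (σ : EE W ≃ₐ[KK W] EE W) (g : W[X]) :
    σ (algebraMap W[X] (EE W) g) = algebraMap W[X] (EE W) g := by
  rw [IsScalarTower.algebraMap_apply W[X] (KK W) (EE W)]
  exact σ.commutes _

theorem aeval_twist {f : W[X][X]} (φ : W ≃+* W) (ψ : EE W ≃+* EE W)
    (hψ : ∀ g : W[X], ψ (algebraMap W[X] (EE W) g) = algebraMap W[X] (EE W) (g.map φ.toRingHom))
    (hf : f.map (mapRingHom φ.toRingHom) = f) (y : EE W) : aeval (ψ y) f = ψ (aeval y f) := by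
  have h1 : ψ (aeval y f) = f.eval₂ (ψ.toRingHom.comp (algebraMap W[X] (EE W))) (ψ y) := by
    rw [aeval_def]
    exact Polynomial.hom_eval₂ f (algebraMap W[X] (EE W)) ψ.toRingHom y
  have h2 : ψ.toRingHom.comp (algebraMap W[X] (EE W)) =
      (algebraMap W[X] (EE W)).comp (mapRingHom φ.toRingHom) := by
    ext g
    · simpa using hψ (C g)
    · simpa using hψ X
  rw [h1, h2, ← Polynomial.eval₂_map, hf, aeval_def]

theorem swap_exists {k : Type} [Field k] [IsAlgClosed k] [CharZero k] [Algebra k W] (m : W)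
    (hm : Transcendental k m) (s : Finset (MvPolynomial (Fin 2) k))
    (hs : ∀ H ∈ s, Irreducible H ∧ 2 ≤ H.totalDegree) (hsq : Squarefree (∏ H ∈ s, H))
    (fs : MvPolynomial (Fin 2) k → W[X][X]) (us : MvPolynomial (Fin 2) k → W)
    (hu : ∀ H ∈ s, us H ≠ 0) (hfm : ∀ H ∈ s, (fs H).Monic) (hfi : ∀ H ∈ s, Irreducible (fs H))
    (hf : ∀ H ∈ s, lineP m H = C (C (us H)) * fs H) :
    ∀ H ∈ s, ∀ y, aeval y (fs H) = 0 → ∃ y', y' ≠ y ∧ aeval y' (fs H) = 0 ∧
      ∃ σ : EE W ≃ₐ[KK W] EE W, σ y = y' ∧ σ y' = y ∧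
        ∀ z, (∃ H' ∈ s, aeval z (fs H') = 0) → z ≠ y → z ≠ y' → σ z = z := by
  classical
  intro H hH y hy
  obtain ⟨D, hD⟩ := exists_derivation m hm
  set G := ∏ H' ∈ s.erase H, H' with hG
  have hHG : H * G = ∏ H ∈ s, H := Finset.mul_prod_erase s (fun H => H) hH
  obtain ⟨b₀, x₀, h0, h4, h1, h1', h2, h3⟩ := tangent_exists D m hD H G (hs H hH).1 (hs H hH).2
    (by rw [hHG]; exact hsq)
  -- translation to `fs H`
  have tr : ∀ H' ∈ s, rl m b₀ H' = C (us H') * (fs H').map (evalRingHom b₀) := by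
    intro H' hH'
    rw [← lineP_map_eval, hf H' hH', Polynomial.map_mul, Polynomial.map_C, coe_evalRingHom, eval_C]
  have trH := tr H hH
  have huH := hu H hH
  set g := ∏ H' ∈ s.erase H, fs H' with hg
  have trG : rl m b₀ G = C (∏ H' ∈ s.erase H, us H') * g.map (evalRingHom b₀) := by
    rw [hG, map_prod, hg, Polynomial.map_prod, map_prod C, ← Finset.prod_mul_distrib]
    exact Finset.prod_congr rfl fun H' hH' => tr H' (Finset.mem_of_mem_erase hH')
  have huG : ∏ H' ∈ s.erase H, us H' ≠ 0 :=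
    Finset.prod_ne_zero_iff.2 fun H' hH' => hu H' (Finset.mem_of_mem_erase hH')
  have hgm : g.Monic := monic_prod_of_monic _ _ fun H' hH' => hfm H' (Finset.mem_of_mem_erase hH')
  rw [trH] at h0 h1 h1' h2
  rw [trG] at h3
  simp only [derivative_C_mul, eval_mul, eval_C, mul_eq_zero, huH, false_or, ne_eq] at h0 h1 h1' h2
  simp only [derivative_C_mul, eval_mul, eval_C, mul_eq_zero, huG, false_or, ne_eq] at h3
  have h4' : dsum b₀ x₀ (fs H) ≠ 0 := by
    have e1 := lineP_dsum m b₀ x₀ H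
    change dsum b₀ x₀ (lineP m H) = _ at e1
    rw [hf H hH, dsum_C_mul _ _ _ huH] at e1
    rw [← e1] at h4
    exact right_ne_zero_of_mul h4
  obtain ⟨σ, y₁, y₂, hne, hy₁, hy₂, hσ1, hσ2, hσ3⟩ :=
    transposition (fs H) g (hfm H hH) hgm b₀ x₀ h0 h1 h1' h2 h3 h4'
  obtain ⟨τ, hτ⟩ := conj_rts (hfm H hH) (hfi H hH) hy₁ hy
  refine ⟨τ y₂, ?_, ?_, τ * σ * τ⁻¹, ?_, ?_, ?_⟩
  · intro h
    rw [← hτ] at h
    exact hne (τ.injective h).symm
  · rw [aeval_algEquiv, hy₂, map_zero]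
  · have : τ⁻¹ y = y₁ := by rw [← hτ]; exact τ.symm_apply_apply y₁
    rw [AlgEquiv.mul_apply, AlgEquiv.mul_apply, this, hσ1]
  · have : τ⁻¹ (τ y₂) = y₂ := τ.symm_apply_apply y₂
    rw [AlgEquiv.mul_apply, AlgEquiv.mul_apply, this, hσ2, hτ]
  · rintro z ⟨H', hH', hz⟩ hz1 hz2
    have e0 : τ (τ⁻¹ z) = z := τ.apply_symm_apply z
    have e1 : τ⁻¹ z ≠ y₁ := by
      intro h
      rw [h] at e0
      exact hz1 (by rw [← e0, hτ])
    have e2 : τ⁻¹ z ≠ y₂ := by
      intro h
      rw [h] at e0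
      exact hz2 e0.symm
    have e3 : aeval (τ⁻¹ z) (fs H') = 0 := by
      rw [aeval_algEquiv, hz, map_zero]
    have e4 : σ (τ⁻¹ z) = τ⁻¹ z := by
      apply hσ3 _ e1 e2
      by_cases hHH : H' = H
      · left
        rw [← hHH]
        exact e3
      · right
        rw [hg, map_prod]
        exact Finset.prod_eq_zero (Finset.mem_erase.2 ⟨hHH, hH'⟩) e3
    rw [AlgEquiv.mul_apply, AlgEquiv.mul_apply, e4, e0]

end roots

/-- **The geometric theorem.** -/
theorem geom {k W : Type} [Field k] [IsAlgClosed k] [CharZero k] [Field W] [IsAlgClosed W]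
    [CharZero W] [Algebra k W] (φ₀ : k ≃+* k) (φ : W ≃+* W)
    (hφ : ∀ c, φ (algebraMap k W c) = algebraMap k W (φ₀ c))
    (hper : ∀ l, 0 < l → ∃ a, (⇑φ)^[l] a = a ∧ ∀ i, 0 < i → i < l → (⇑φ)^[i] a ≠ a)
    (F : MvPolynomial (Fin 2) k) (hF : F ≠ 0) (hFφ : MvPolynomial.map φ₀.toRingHom F = F)
    (hlin : ∀ L : MvPolynomial (Fin 2) k, MvPolynomial.map φ₀.toRingHom L = L →
      L.totalDegree = 1 → ¬ L ∣ F)
    (m : W) (hm : Transcendental k m) (hmφ : φ m = m) :
    ∃ (P : W[X][X]) (D : W[X]), P.Monic ∧ 0 < P.natDegree ∧ Irreducible P ∧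
      P.map (mapRingHom φ.toRingHom) = P ∧ D ≠ 0 ∧
      ∀ β t : W, φ β = β → φ t = t → evalEval β t P = 0 → D.eval β ≠ 0 →
        ∀ x : W, φ x = x → MvPolynomial.aeval ![x, m * x + β] F ≠ 0 := by
  classical
  obtain ⟨s, Z, hs, hsq, hZ⟩ := factors_exist φ₀ φ hφ F hF hFφ hlin
  have hnf : ∀ H ∈ s, ∃ (u : W) (f : W[X][X]), u ≠ 0 ∧ f.Monic ∧ Irreducible f ∧
      lineP m H = C (C u) * f := by
    intro H hH
    obtain ⟨u, f, h1, h2, -, h4, h5⟩ := lineP_normal m hm H (hs H hH).1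
    exact ⟨u, f, h1, h2, h4, h5⟩
  choose! us fs hu hfm hfi hf using hnf
  have hfφ : ∀ H ∈ s, (fs H).map (mapRingHom φ.toRingHom) = fs H := by
    intro H hH
    apply normal_phi φ (us H) (hu H hH) _ (hfm H hH)
    rw [← hf H hH, lineP_phi φ₀ φ hφ, hmφ, (hs H hH).2.2]
  have hsw := swap_exists m hm s (fun H hH => ⟨(hs H hH).1, (hs H hH).2.1⟩) hsq fs us hu hfm hfi hf
  set S : Finset (EE W) := s.biUnion fun H => rts (fs H) with hS
  have memS : ∀ y, y ∈ S ↔ ∃ H ∈ s, aeval y (fs H) = 0 := by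
    intro y
    rw [hS, Finset.mem_biUnion]
    constructor
    · rintro ⟨H, hH, h⟩
      exact ⟨H, hH, (mem_rts (hfm H hH)).1 h⟩
    · rintro ⟨H, hH, h⟩
      exact ⟨H, hH, (mem_rts (hfm H hH)).2 h⟩
  obtain ⟨ψ₀, hψ₀⟩ := exists_twist φ
  set N : Set (EE W ≃+* EE W) := {σ | ∃ τ : EE W ≃ₐ[KK W] EE W, σ = τ.toRingEquiv} with hN
  obtain ⟨σ, ⟨τ, rfl⟩, hfix⟩ := exists_fixfree S N ⟨1, rfl⟩
    (by
      rintro _ ⟨τ, rfl⟩ _ ⟨τ', rfl⟩
      exact ⟨τ * τ', rfl⟩)
    (by
      intro y hy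
      obtain ⟨H, hH, hyH⟩ := (memS y).1 hy
      obtain ⟨y', hne, hy', τ, h1, h2, h3⟩ := hsw H hH y hyH
      exact ⟨y', (memS y').2 ⟨H, hH, hy'⟩, hne, τ.toRingEquiv, ⟨τ, rfl⟩, h1, h2,
        fun z hz => h3 z ((memS z).1 hz)⟩)
    ψ₀
  set ψ : EE W ≃+* EE W := τ.toRingEquiv.trans ψ₀ with hψdef
  have hψ : ∀ g : W[X], ψ (algebraMap W[X] (EE W) g) =
      algebraMap W[X] (EE W) (g.map φ.toRingHom) := by
    intro g
    change ψ₀ (τ (algebraMap W[X] (EE W) g)) = _
    rw [alg_fix, hψ₀]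
  have hψS : ∀ y ∈ S, ψ y ∈ S := by
    intro y hy
    obtain ⟨H, hH, hyH⟩ := (memS y).1 hy
    refine (memS _).2 ⟨H, hH, ?_⟩
    rw [aeval_twist φ ψ hψ (hfφ H hH), hyH, map_zero]
  have hint : ∀ y ∈ S, IsIntegral W[X] y := by
    intro y hy
    obtain ⟨H, hH, hyH⟩ := (memS y).1 hy
    exact ⟨fs H, hfm H hH, hyH⟩
  obtain ⟨θ, hθ1, hθ2, hθ3⟩ := theta φ hper ψ hψ S hψS hint
  obtain ⟨P, D, hP1, hP2, hP3, hP4, hD, hspec⟩ :=
    specialize φ ψ hψ θ hθ1 hθ2 S hθ3 hψS (fun y hy => hfix y hy)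
  refine ⟨P, D * ∏ z ∈ Z, (X - C (z.2 - m * z.1)), hP1, hP2, hP3, hP4, ?_, ?_⟩
  · apply mul_ne_zero hD
    exact Finset.prod_ne_zero_iff.2 fun z _ => X_sub_C_ne_zero _
  · intro β t hβ ht hPt hDβ x hx hFx
    rw [eval_mul, eval_prod] at hDβ
    have hD1 := left_ne_zero_of_mul hDβ
    have hD2 := Finset.prod_ne_zero_iff.1 (right_ne_zero_of_mul hDβ)
    have hy : φ (m * x + β) = m * x + β := by rw [map_add, map_mul, hmφ, hx, hβ]
    rcases hZ x (m * x + β) hx hy hFx with hz | ⟨H, hH, hHx⟩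
    · apply hD2 _ hz
      rw [eval_sub, eval_X, eval_C]
      ring
    · refine hspec β t hβ ht hPt hD1 (rts (fs H)) (fs H) ?_ (prod_rts (hfm H hH) (hfi H hH)) x hx ?_
      · intro y hy
        exact Finset.mem_biUnion.2 ⟨H, hH, hy⟩
      · have e1 : rl m β H = C (us H) * (fs H).map (evalRingHom β) := by
          rw [← lineP_map_eval, hf H hH, Polynomial.map_mul, Polynomial.map_C, coe_evalRingHom,
            eval_C]
        have e2 := rl_eval m β x H
        rw [hHx, e1, eval_mul, eval_C] at e2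
        exact (mul_eq_zero.1 e2).resolve_left (hu H hH)

end Pool.Agent.Helper897.BS
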