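import Mathlib

/-! Vanishing moments from the sums over the lines of many directions. -/

set_option autoImplicit false
set_option linter.all false

namespace Pool.Agent.Helper897.BS

open MvPolynomial

theorem zmod_poly_sum (p : ℕ) [Fact p.Prime] {k : Type} [Field k] [Algebra (ZMod p) k]
    (f : Polynomial k) (hf : f.natDegree + 2 ≤ p) :
    ∑ t : ZMod p, f.eval (algebraMap (ZMod p) k t) = 0 := by
  simp_rw [Polynomial.eval_eq_sum_range]
  rw [Finset.sum_comm]
  apply Finset.sum_eq_zero
  intro e he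
  rw [← Finset.mul_sum]
  have h1 : ∑ t : ZMod p, (algebraMap (ZMod p) k t) ^ e = 0 := by
    have h2 : ∑ t : ZMod p, t ^ e = 0 := by
      apply FiniteField.sum_pow_lt_card_sub_one
      rw [ZMod.card]
      have := Finset.mem_range.1 he
      omega
    have h3 := congrArg (algebraMap (ZMod p) k) h2
    rw [map_sum, map_zero] at h3
    simpa using h3
  rw [h1, mul_zero]

/-- the monomial moments vanish -/
theorem mono_moment (p : ℕ) [Fact p.Prime] {k : Type} [Field k] [Algebra (ZMod p) k]
    (w : ZMod p × ZMod p → k) (r : ℕ) (I : Finset (ZMod p)) (hI : r < I.card)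
    (h : ∀ m ∈ I, ∃ s : Polynomial k, s.natDegree + r + 2 ≤ p ∧
      ∀ t : ZMod p, ∑ x : ZMod p, w (x, m * x + t) = s.eval (algebraMap (ZMod p) k t))
    (i j : ℕ) (hij : i ≤ j) (hj : j ≤ r) :
    ∑ P : ZMod p × ZMod p, w P * (algebraMap (ZMod p) k P.1 ^ i *
      algebraMap (ZMod p) k P.2 ^ (j - i)) = 0 := by
  classical
  set φ := algebraMap (ZMod p) k with hφ
  have hinj : Function.Injective φ := (algebraMap (ZMod p) k).injective
  let Q : Polynomial k := ∑ P : ZMod p × ZMod p, Polynomial.C (w P) *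
    ((Polynomial.X + Polynomial.C (φ P.2)) ^ j).comp (Polynomial.C (-φ P.1) * Polynomial.X)
  have hQdeg : Q.natDegree ≤ j := by
    apply Polynomial.natDegree_sum_le_of_forall_le
    intro P _
    refine (Polynomial.natDegree_C_mul_le _ _).trans ?_
    refine Polynomial.natDegree_comp_le.trans ?_
    have h1 : (Polynomial.C (-φ P.1) * Polynomial.X : Polynomial k).natDegree ≤ 1 :=
      (Polynomial.natDegree_C_mul_le _ _).trans Polynomial.natDegree_X_le
    have h2 : ((Polynomial.X + Polynomial.C (φ P.2) : Polynomial k) ^ j).natDegree ≤ j := by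
      refine Polynomial.natDegree_pow_le.trans ?_
      rw [Polynomial.natDegree_X_add_C, mul_one]
    calc _ ≤ j * 1 := Nat.mul_le_mul h2 h1
      _ = j := mul_one j
  have hQev : ∀ m ∈ I, Q.eval (φ m) = 0 := by
    intro m hm
    obtain ⟨s, hs, hs2⟩ := h m hm
    have h1 : Q.eval (φ m) = ∑ P : ZMod p × ZMod p, w P * (φ P.2 - φ m * φ P.1) ^ j := by
      simp only [Q]
      rw [Polynomial.eval_finsetSum]
      apply Finset.sum_congr rfl
      intro P _
      rw [Polynomial.eval_mul, Polynomial.eval_C, Polynomial.eval_comp, Polynomial.eval_pow]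
      congr 2
      simp only [Polynomial.eval_add, Polynomial.eval_mul, Polynomial.eval_C, Polynomial.eval_X]
      ring
    rw [h1, Fintype.sum_prod_type]
    have h2 : ∀ x : ZMod p, ∑ y : ZMod p, w (x, y) * (φ y - φ m * φ x) ^ j =
        ∑ t : ZMod p, w (x, m * x + t) * φ t ^ j := by
      intro x
      rw [← Equiv.sum_comp (Equiv.addLeft (m * x))]
      apply Finset.sum_congr rfl
      intro t _
      simp only [Equiv.coe_addLeft, map_add, map_mul]
      congr 2
      ring
    simp only
    rw [Finset.sum_congr rfl (fun x _ => h2 x), Finset.sum_comm]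
    have h3 : ∀ t : ZMod p, ∑ x : ZMod p, w (x, m * x + t) * φ t ^ j =
        (s * Polynomial.X ^ j).eval (φ t) := by
      intro t
      rw [← Finset.sum_mul, hs2 t, Polynomial.eval_mul, Polynomial.eval_pow, Polynomial.eval_X]
    rw [Finset.sum_congr rfl (fun t _ => h3 t)]
    apply zmod_poly_sum p
    have h4 : (s * Polynomial.X ^ j).natDegree ≤ s.natDegree + j := by
      refine Polynomial.natDegree_mul_le.trans ?_
      rw [Polynomial.natDegree_X_pow]
    omega
  have hQ0 : Q = 0 := by
    apply Polynomial.eq_zero_of_natDegree_lt_card_of_eval_eq_zero' Q (I.image φ)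
    · intro x hx
      obtain ⟨m, hm, rfl⟩ := Finset.mem_image.1 hx
      exact hQev m hm
    · rw [Finset.card_image_of_injective _ hinj]
      omega
  have hcoef : Q.coeff i = ((j.choose i : ℕ) : k) * (-1) ^ i *
      ∑ P : ZMod p × ZMod p, w P * (φ P.1 ^ i * φ P.2 ^ (j - i)) := by
    simp only [Q]
    rw [Polynomial.finsetSum_coeff, Finset.mul_sum]
    apply Finset.sum_congr rfl
    intro P _
    rw [Polynomial.coeff_C_mul, Polynomial.comp_C_mul_X_coeff, Polynomial.coeff_X_add_C_pow,
      neg_pow]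
    ring
  rw [hQ0, Polynomial.coeff_zero] at hcoef
  have hcard : I.card ≤ p := by
    have := Finset.card_le_univ I
    rwa [ZMod.card] at this
  have hchar : CharP k p := charP_of_injective_algebraMap hinj p
  have hch : ((j.choose i : ℕ) : k) ≠ 0 := by
    intro h0
    rw [CharP.cast_eq_zero_iff k p] at h0
    have h1 : j.choose i ∣ j.factorial :=
      ⟨i.factorial * (j - i).factorial, by
        rw [← mul_assoc]
        exact (Nat.choose_mul_factorial_mul_factorial hij).symm⟩
    have h2 := (Nat.Prime.dvd_factorial (Fact.out : p.Prime)).1 (h0.trans h1)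
    omega
  have h5 : ((j.choose i : ℕ) : k) * (-1) ^ i ≠ 0 :=
    mul_ne_zero hch (pow_ne_zero _ (neg_ne_zero.2 one_ne_zero))
  exact (mul_eq_zero.1 hcoef.symm).resolve_left h5

/-- main result 1 -/
theorem moments (p : ℕ) [Fact p.Prime] {k : Type} [Field k] [Algebra (ZMod p) k]
    (w : ZMod p × ZMod p → k) (r : ℕ) (I : Finset (ZMod p)) (hI : r < I.card)
    (h : ∀ m ∈ I, ∃ s : Polynomial k, s.natDegree + r + 2 ≤ p ∧
      ∀ t : ZMod p, ∑ x : ZMod p, w (x, m * x + t) = s.eval (algebraMap (ZMod p) k t)) :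
    ∀ g : MvPolynomial (Fin 2) k, g.totalDegree ≤ r →
      ∑ P : ZMod p × ZMod p,
        w P * eval ![algebraMap (ZMod p) k P.1, algebraMap (ZMod p) k P.2] g = 0 := by
  intro g hg
  simp_rw [MvPolynomial.eval_eq', Finset.mul_sum]
  rw [Finset.sum_comm]
  apply Finset.sum_eq_zero
  intro d hd
  have h1 := MvPolynomial.le_totalDegree hd
  have h2 : (d.sum fun _ e => e) = d 0 + d 1 := by
    rw [Finsupp.sum_fintype _ _ (fun _ => rfl), Fin.sum_univ_two]
  have h3 := mono_moment p w r I hI h (d 0) (d 0 + d 1) (Nat.le_add_right _ _) (by omega)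
  rw [Nat.add_sub_cancel_left] at h3
  have h4 : ∀ P : ZMod p × ZMod p, w P * (coeff d g * ∏ i : Fin 2,
      (![algebraMap (ZMod p) k P.1, algebraMap (ZMod p) k P.2] : Fin 2 → k) i ^ d i) =
      coeff d g * (w P * (algebraMap (ZMod p) k P.1 ^ d 0 * algebraMap (ZMod p) k P.2 ^ d 1)) := by
    intro P
    rw [Fin.prod_univ_two]
    simp only [Matrix.cons_val_zero, Matrix.cons_val_one]
    ring
  rw [Finset.sum_congr rfl (fun P _ => h4 P), ← Finset.mul_sum, h3, mul_zero]

/-- main result 2 -/
theorem descend_curve {K L : Type} [Field K] [Field L] [Algebra K L] (Γ : Set (K × K))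
    (f : MvPolynomial (Fin 2) L) (hf : f ≠ 0)
    (h : ∀ P ∈ Γ, eval ![algebraMap K L P.1, algebraMap K L P.2] f = 0) :
    ∃ g : MvPolynomial (Fin 2) K, g ≠ 0 ∧ g.totalDegree ≤ f.totalDegree ∧
      ∀ P ∈ Γ, eval ![P.1, P.2] g = 0 := by
  classical
  obtain ⟨e₀, he₀⟩ := MvPolynomial.ne_zero_iff.1 hf
  have hφ : ∃ φ : Module.Dual K L, φ (coeff e₀ f) ≠ 0 := by
    by_contra hcon
    push Not at hcon
    exact he₀ ((Module.forall_dual_apply_eq_zero_iff K _).1 hcon)
  obtain ⟨φ, hφ⟩ := hφ
  let g : MvPolynomial (Fin 2) K := ∑ e ∈ f.support, monomial e (φ (coeff e f))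
  have hg : ∀ e, coeff e g = φ (coeff e f) := by
    intro e
    simp only [g]
    rw [MvPolynomial.coeff_sum]
    simp only [MvPolynomial.coeff_monomial]
    rw [Finset.sum_ite_eq']
    split_ifs with he
    · rfl
    · rw [MvPolynomial.notMem_support_iff.1 he, map_zero]
  have hsub : g.support ⊆ f.support := by
    intro e he
    rw [MvPolynomial.mem_support_iff, hg] at he
    rw [MvPolynomial.mem_support_iff]
    intro h0
    rw [h0, map_zero] at he
    exact he rfl
  refine ⟨g, ?_, ?_, ?_⟩
  · rw [MvPolynomial.ne_zero_iff]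
    exact ⟨e₀, by rw [hg]; exact hφ⟩
  · rw [MvPolynomial.totalDegree, MvPolynomial.totalDegree]
    exact Finset.sup_mono hsub
  · intro P hP
    have h1 := h P hP
    have h2 : eval ![P.1, P.2] g =
        φ (eval ![algebraMap K L P.1, algebraMap K L P.2] f) := by
      rw [MvPolynomial.eval_eq', MvPolynomial.eval_eq', map_sum]
      rw [Finset.sum_subset hsub (fun e _ he => by
        rw [MvPolynomial.notMem_support_iff.1 he, zero_mul])]
      apply Finset.sum_congr rfl
      intro e _
      rw [hg, Fin.prod_univ_two, Fin.prod_univ_two]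
      simp only [Matrix.cons_val_zero, Matrix.cons_val_one]
      have h3 : coeff e f * (algebraMap K L P.1 ^ e 0 * algebraMap K L P.2 ^ e 1) =
          (P.1 ^ e 0 * P.2 ^ e 1) • coeff e f := by
        rw [Algebra.smul_def, map_mul, map_pow, map_pow]
        ring
      rw [h3, map_smul, smul_eq_mul]
      ring
    rw [h2, h1, map_zero]

end Pool.Agent.Helper897.BS
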