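import Pool.Agent.H450R3.BH.KER
import Pool.Agent.H450R3.BH.TRP
import Pool.Agent.H450R3.BH.ABS

/-! A point of a plane curve with tangent of given transcendental slope. -/

set_option autoImplicit false
set_option linter.all false

namespace Pool.Agent.Helper897.BS

open MvPolynomial

/-- a generic point of the curve -/
theorem tan1_generic {k : Type} [Field k] (P : MvPolynomial (Fin 2) k) (hP : Irreducible P) :
    ∃ (K : Type) (_ : Field K) (_ : Algebra k K) (q : Fin 2 → K),
      (∀ G : MvPolynomial (Fin 2) k, aeval q G = 0 ↔ P ∣ G) ∧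
      (∀ z : K, ∃ A B : MvPolynomial (Fin 2) k, z = aeval q A / aeval q B) := by
  have hprime : (Ideal.span {P}).IsPrime := (Ideal.span_singleton_prime hP.ne_zero).2 hP.prime
  set R := MvPolynomial (Fin 2) k ⧸ Ideal.span {P} with hR
  let q : Fin 2 → FractionRing R := fun i => algebraMap R (FractionRing R) (Ideal.Quotient.mk _ (X i))
  have hq : ∀ G : MvPolynomial (Fin 2) k,
      aeval q G = algebraMap R (FractionRing R) (Ideal.Quotient.mk _ G) := by
    intro G
    have h : (aeval q : MvPolynomial (Fin 2) k →ₐ[k] FractionRing R) =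
        (IsScalarTower.toAlgHom k R (FractionRing R)).comp
          (Ideal.Quotient.mkₐ k (Ideal.span {P})) := by
      apply MvPolynomial.algHom_ext
      intro i
      rw [aeval_X]
      rfl
    rw [h]
    rfl
  refine ⟨FractionRing R, inferInstance, inferInstance, q, ?_, ?_⟩
  · intro G
    rw [hq, IsFractionRing.to_map_eq_zero_iff, Ideal.Quotient.eq_zero_iff_mem,
      Ideal.mem_span_singleton]
  · intro z
    obtain ⟨a, b, -, rfl⟩ := IsFractionRing.div_surjective (A := R) z
    obtain ⟨A, rfl⟩ := Ideal.Quotient.mk_surjective a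
    obtain ⟨B, rfl⟩ := Ideal.Quotient.mk_surjective b
    exact ⟨A, B, by rw [hq, hq]⟩

theorem tan1_mem {k K : Type} [Field k] [IsAlgClosed k] [Field K] [Algebra k K] (z : K)
    (h : IsAlgebraic k z) : ∃ c, algebraMap k K c = z :=
  minpoly.mem_range_of_degree_eq_one k z
    (IsAlgClosed.degree_eq_one_of_irreducible k (minpoly.irreducible h.isIntegral))

/-- an irreducible polynomial constant in the direction `(1, c)` is linear -/
theorem tan1_line {k : Type} [Field k] [IsAlgClosed k] [CharZero k]
    (P : MvPolynomial (Fin 2) k) (hP : Irreducible P) (c : k)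
    (hG : pderiv 0 P + C c * pderiv 1 P = 0) : P.totalDegree ≤ 1 := by
  obtain ⟨K, _, _, q, hker, -⟩ := tan1_generic P hP
  have : CharZero K := charZero_of_injective_algebraMap (algebraMap k K).injective
  have hgauss : ∀ G : MvPolynomial (Fin 2) k, aeval q G = 0 → P ∣ G := fun G h => (hker G).1 h
  have hq : aeval q P = 0 := (hker P).2 dvd_rfl
  have hq' : aeval ![q 0, q 1] P = 0 := by
    have : ![q 0, q 1] = q := by
      funext j
      fin_cases j <;> rfl
    rw [this]
    exact hq
  rw [H450BH.TRP_const P c hG] at hq'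
  -- the univariate polynomial
  set T : Polynomial k := aeval ![(0 : Polynomial k), Polynomial.X] P with hT
  have hTev : ∀ {A : Type} [CommRing A] [Algebra k A] (t : A),
      Polynomial.aeval t T = aeval ![0, t] P := by
    intro A _ _ t
    rw [hT]
    have h4 : (Polynomial.aeval t : Polynomial k →ₐ[k] A).comp
        (aeval ![(0 : Polynomial k), Polynomial.X]) = aeval ![0, t] := by
      apply MvPolynomial.algHom_ext
      intro i
      fin_cases i
      · simp
      · simp
    exact congrArg (fun φ : MvPolynomial (Fin 2) k →ₐ[k] A => φ P) h4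
  have hT0 : T ≠ 0 := by
    intro h0
    apply hP.ne_zero
    apply MvPolynomial.funext
    intro x
    have h1 := H450BH.TRP_const (A := k) P c hG (x 0) (x 1)
    rw [← hTev, h0, map_zero] at h1
    rw [map_zero, ← aeval_eq_eval]
    have : ![x 0, x 1] = x := by
      funext j
      fin_cases j <;> rfl
    rw [this] at h1
    exact h1
  have halg : IsAlgebraic k (q 1 - algebraMap k K c * q 0) := by
    refine ⟨T, hT0, ?_⟩
    rw [hTev]
    exact hq'
  obtain ⟨b0, hb0⟩ : q 1 - algebraMap k K c * q 0 ∈ Set.range (algebraMap k K) :=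
    tan1_mem _ halg
  have hL : P ∣ X 1 - C c * X 0 - C b0 := by
    apply hgauss
    rw [map_sub, map_sub, map_mul, aeval_C, aeval_C, aeval_X, aeval_X, hb0]
    ring
  have hL0 : (X 1 - C c * X 0 - C b0 : MvPolynomial (Fin 2) k) ≠ 0 := by
    intro h0
    have h1 := congrArg (coeff (Finsupp.single (1 : Fin 2) 1)) h0
    rw [coeff_sub, coeff_sub, coeff_X_same, coeff_C_mul, coeff_C] at h1
    have h2 : coeff (Finsupp.single (1 : Fin 2) 1) (X 0 : MvPolynomial (Fin 2) k) = 0 := by
      rw [coeff_X]
      rw [if_neg]
      intro h3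
      have := DFunLike.congr_fun h3 (1 : Fin 2)
      simp at this
    rw [h2, if_neg] at h1
    · simp at h1
    · intro h3
      have := DFunLike.congr_fun h3 (1 : Fin 2)
      simp at this
  have h1 := totalDegree_le_of_dvd_of_isDomain hL hL0
  have h2 : (X 1 - C c * X 0 - C b0 : MvPolynomial (Fin 2) k).totalDegree ≤ 1 := by
    refine (totalDegree_sub _ _).trans (max_le ?_ ?_)
    · refine (totalDegree_sub _ _).trans (max_le ?_ ?_)
      · rw [totalDegree_X]
      · refine (totalDegree_mul _ _).trans ?_
        rw [totalDegree_C, totalDegree_X]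
    · rw [totalDegree_C]
      exact Nat.zero_le _
  omega

theorem tan1_pderiv_one {k : Type} [Field k] [IsAlgClosed k] [CharZero k]
    (P : MvPolynomial (Fin 2) k) (hP : Irreducible P) (hdeg : 2 ≤ P.totalDegree) :
    pderiv 1 P ≠ 0 := by
  intro h0
  let e : Fin 2 ≃ Fin 2 := Equiv.swap 0 1
  have h1 : pderiv 0 (rename e P) = 0 := by
    have h2 := pderiv_rename (R := k) e.injective 1 P
    rw [h0, map_zero] at h2
    simpa [e] using h2
  have hirr : Irreducible (rename e P) :=
    (MulEquiv.irreducible_iff (renameEquiv k e)).2 hP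
  have h3 := tan1_line (rename e P) hirr 0 (by rw [h1]; simp)
  have h4 := totalDegree_renameEquiv (R := k) e P
  have h5 : renameEquiv k e P = rename e P := rfl
  rw [h5] at h4
  omega

/-- algebraicity of the function field -/
theorem tan1_alg {k F K : Type} [Field k] [Field F] [Field K] [Algebra k F] [Algebra k K]
    [Algebra F K] [IsScalarTower k F K] (q : Fin 2 → K) (hq : ∀ i, IsAlgebraic F (q i))
    (hfrac : ∀ z : K, ∃ A B : MvPolynomial (Fin 2) k, z = aeval q A / aeval q B) (z : K) :
    IsAlgebraic F z := by
  have key : ∀ G : MvPolynomial (Fin 2) k, IsAlgebraic F (aeval q G) := by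
    intro G
    induction G using MvPolynomial.induction_on with
    | C a =>
      rw [aeval_C, IsScalarTower.algebraMap_apply k F K]
      exact isAlgebraic_algebraMap _
    | add p r hp hr =>
      rw [map_add]
      exact hp.add hr
    | mul_X p i hp =>
      rw [map_mul, aeval_X]
      exact hp.mul (hq i)
  obtain ⟨A, B, rfl⟩ := hfrac z
  rw [div_eq_mul_inv]
  exact (key A).mul (key B).inv

theorem tan1_sum_deg {k : Type} [Field k] (P : MvPolynomial (Fin 2) k) (c : k) :
    (pderiv 0 P + C c * pderiv 1 P).totalDegree ≤ P.totalDegree - 1 := by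
  refine (totalDegree_add _ _).trans (max_le (H450BH.TRP_td_le 0 P) ?_)
  refine (totalDegree_mul _ _).trans ?_
  rw [totalDegree_C, zero_add]
  exact H450BH.TRP_td_le 1 P

/-- main result of the file -/
theorem tangent_point {k W : Type} [Field k] [IsAlgClosed k] [CharZero k] [Field W] [IsAlgClosed W]
    [Algebra k W] (m : W) (hm : Transcendental k m) (H : MvPolynomial (Fin 2) k)
    (hH : Irreducible H) (hdeg : 2 ≤ H.totalDegree) :
    ∃ q : Fin 2 → W, aeval q H = 0 ∧ aeval q (pderiv 0 H) + m * aeval q (pderiv 1 H) = 0 ∧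
      aeval q (pderiv 1 H) ≠ 0 ∧ ∃ i, Transcendental k (q i) := by
  obtain ⟨K, _, _, q, hker, hfrac⟩ := tan1_generic H hH
  have : CharZero K := charZero_of_injective_algebraMap (algebraMap k K).injective
  have hp1 : pderiv 1 H ≠ 0 := tan1_pderiv_one H hH hdeg
  have hdvd : ∀ G : MvPolynomial (Fin 2) k, G ≠ 0 → G.totalDegree ≤ H.totalDegree - 1 →
      aeval q G ≠ 0 := by
    intro G hG hd h0
    have h1 := totalDegree_le_of_dvd_of_isDomain ((hker G).1 h0) hG
    omega
  have hb : aeval q (pderiv 1 H) ≠ 0 := hdvd _ hp1 (H450BH.TRP_td_le 1 H)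
  obtain ⟨γ, hγ⟩ : ∃ γ : K, aeval q (pderiv 0 H) + γ * aeval q (pderiv 1 H) = 0 :=
    ⟨- aeval q (pderiv 0 H) / aeval q (pderiv 1 H), by field_simp; ring⟩
  have hγt : Transcendental k γ := by
    intro halg
    obtain ⟨c, hc⟩ := tan1_mem γ halg
    have h1 : pderiv 0 H + C c * pderiv 1 H = 0 := by
      by_contra hne
      refine hdvd _ hne (tan1_sum_deg H c) ?_
      rw [map_add, map_mul, aeval_C, hc]
      exact hγ
    have := tan1_line H hH c h1
    omega
  -- the field `L = k(X)`, mapped to `K` by `X ↦ γ` and to `W` by `X ↦ m`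
  let L := FractionRing (Polynomial k)
  let φK : L →ₐ[k] K := IsFractionRing.liftAlgHom (g := Polynomial.aeval γ)
    (transcendental_iff_injective.1 hγt)
  let φW : L →ₐ[k] W := IsFractionRing.liftAlgHom (g := Polynomial.aeval m)
    (transcendental_iff_injective.1 hm)
  let : Algebra L K := φK.toRingHom.toAlgebra
  let : Algebra L W := φW.toRingHom.toAlgebra
  have : IsScalarTower k L K := IsScalarTower.of_algebraMap_eq fun x => (φK.commutes x).symm
  have : IsScalarTower k L W := IsScalarTower.of_algebraMap_eq fun x => (φW.commutes x).symm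
  let t : L := algebraMap (Polynomial k) L Polynomial.X
  have htK : algebraMap L K t = γ := by
    show φK (algebraMap (Polynomial k) L Polynomial.X) = γ
    rw [IsFractionRing.liftAlgHom_apply, IsFractionRing.lift_algebraMap]
    simp
  have htW : algebraMap L W t = m := by
    show φW (algebraMap (Polynomial k) L Polynomial.X) = m
    rw [IsFractionRing.liftAlgHom_apply, IsFractionRing.lift_algebraMap]
    simp
  -- the generic point is algebraic over `L`
  have halg : ∀ i, IsAlgebraic L (q i) := by
    by_contra hcon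
    push Not at hcon
    have hPirr : Irreducible (map (algebraMap k L) H) := H450BH.abs_irr H hH
    have hPq : aeval q (map (algebraMap k L) H) = 0 := by
      rw [aeval_map_algebraMap]
      exact (hker H).2 dvd_rfl
    have hG : aeval q (pderiv 0 (map (algebraMap k L) H) +
        C t * pderiv 1 (map (algebraMap k L) H)) = 0 := by
      rw [map_add, map_mul, aeval_C, htK, pderiv_map, pderiv_map, aeval_map_algebraMap,
        aeval_map_algebraMap]
      exact hγ
    have hdv := H450BH.ker_dvd (map (algebraMap k L) H) hPirr q hPq hcon _ hG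
    have h0 : pderiv 0 (map (algebraMap k L) H) +
        C t * pderiv 1 (map (algebraMap k L) H) = 0 := by
      by_contra hne
      have h1 := totalDegree_le_of_dvd_of_isDomain hdv hne
      have h2 := tan1_sum_deg (map (algebraMap k L) H) t
      have h3 := H450BH.abs_map_deg (L := L) H
      omega
    apply hp1
    ext s
    rw [coeff_zero]
    by_contra hbs
    have h1 := congrArg (coeff s) h0
    rw [coeff_add, coeff_C_mul, pderiv_map, pderiv_map, coeff_map, coeff_map, coeff_zero] at h1
    have h2 := congrArg (algebraMap L K) h1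
    rw [map_add, map_mul, htK, map_zero, ← IsScalarTower.algebraMap_apply k L K,
      ← IsScalarTower.algebraMap_apply k L K] at h2
    apply hγt
    have h3 : γ = algebraMap k K (-(coeff s (pderiv 0 H)) / coeff s (pderiv 1 H)) := by
      have hne : algebraMap k K (coeff s (pderiv 1 H)) ≠ 0 := by
        rw [Ne, map_eq_zero]
        exact hbs
      rw [map_div₀, map_neg, eq_div_iff hne]
      linear_combination h2
    rw [h3]
    exact isAlgebraic_algebraMap _
  have : Algebra.IsAlgebraic L K := ⟨fun z => tan1_alg q halg hfrac z⟩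
  let ψ : K →ₐ[L] W := IsAlgClosed.lift
  let ψk : K →ₐ[k] W := ψ.restrictScalars k
  have hψ : ∀ G : MvPolynomial (Fin 2) k, aeval (fun i => ψk (q i)) G = ψk (aeval q G) := by
    intro G
    have h := MvPolynomial.comp_aeval q ψk
    exact (congrArg (fun f : MvPolynomial (Fin 2) k →ₐ[k] W => f G) h).symm
  have hψγ : ψk γ = m := by
    show ψ γ = m
    rw [← htK, ψ.commutes, htW]
  refine ⟨fun i => ψk (q i), ?_, ?_, ?_, ?_⟩
  · rw [hψ, (hker H).2 dvd_rfl, map_zero]
  · rw [hψ, hψ, ← hψγ, ← map_mul, ← map_add, hγ, map_zero]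
  · rw [hψ]
    intro h
    exact hb (ψk.toRingHom.injective (by rw [map_zero]; exact h))
  · by_contra hcon
    push Not at hcon
    apply hγt
    refine tan1_alg (k := k) (F := k) q (fun i => ?_) hfrac γ
    have h1 : IsAlgebraic k (ψk (q i)) := by
      have := hcon i
      rwa [Transcendental, not_not] at this
    exact (isAlgebraic_algHom_iff ψk ψk.toRingHom.injective).1 h1

end Pool.Agent.Helper897.BS
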