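import Pool.Agent.Helper897_BS.Defs
import Pool.Agent.H450R3.BH.KER
import Pool.Agent.H450R3.BH.TRP
import Pool.Agent.Helper897_BS.TAN1

/-! A simple tangent line of given slope, transversal elsewhere. -/

set_option autoImplicit false
set_option linter.all false

namespace Pool.Agent.Helper897.BS

open MvPolynomial


/-- evaluation of the restriction to a line -/
theorem tan2_eval {k W : Type} [Field k] [Field W] [Algebra k W] (m b x : W)
    (A : MvPolynomial (Fin 2) k) : (rl m b A).eval x = aeval ![x, m * x + b] A := by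
  have h4 : ((Polynomial.aeval x : Polynomial W →ₐ[W] W).restrictScalars k).comp (rl m b) =
      aeval ![x, m * x + b] := by
    apply MvPolynomial.algHom_ext
    intro i
    fin_cases i
    · simp [rl]
    · simp [rl]
  have h5 := congrArg (fun φ : MvPolynomial (Fin 2) k →ₐ[k] W => φ A) h4
  simpa [Polynomial.aeval_def] using h5

/-- chain rule along the line -/
theorem tan2_chain {k W : Type} [Field k] [Field W] [Algebra k W] (m b : W)
    (A : MvPolynomial (Fin 2) k) : Polynomial.derivative (rl m b A) =
      rl m b (pderiv 0 A) + Polynomial.C m * rl m b (pderiv 1 A) := by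
  unfold rl
  rw [H450BH.TRP_chain]
  simp
  ring

/-- chain rule for a derivation -/
theorem tan2_D {k W : Type} [Field k] [Field W] [Algebra k W] (D : Derivation k W W)
    (q : Fin 2 → W) (A : MvPolynomial (Fin 2) k) :
    D (aeval q A) = aeval q (pderiv 0 A) * D (q 0) + aeval q (pderiv 1 A) * D (q 1) := by
  induction A using MvPolynomial.induction_on with
  | C a => simp
  | add p q hp hq =>
    simp only [map_add, hp, hq]
    ring
  | mul_X p i hp =>
    rw [map_mul, aeval_X, D.leibniz, hp]
    fin_cases i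
    · simp
      ring
    · simp
      ring

/-- algebraic elements are killed by the derivation -/
theorem tan2_alg {k W : Type} [Field k] [IsAlgClosed k] [Field W] [Algebra k W]
    (D : Derivation k W W) (x : W) (hx : IsAlgebraic k x) : D x = 0 := by
  have h1 : x ∈ (algebraMap k W).range := by
    apply minpoly.mem_range_of_degree_eq_one
    exact IsAlgClosed.degree_eq_one_of_irreducible k (minpoly.irreducible hx.isIntegral)
  obtain ⟨a, rfl⟩ := h1
  exact D.map_algebraMap a

/-- in characteristic zero a polynomial with zero gradient is constant -/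
theorem tan2_const {k : Type} [Field k] [CharZero k] (J : MvPolynomial (Fin 2) k)
    (h0 : pderiv 0 J = 0) (h1 : pderiv 1 J = 0) : J = C (coeff 0 J) := by
  ext n
  rw [coeff_C]
  split_ifs with h
  · rw [← h]
  · by_contra hne
    have hi : ∃ i, n i ≠ 0 := by
      by_contra hcon
      push Not at hcon
      apply h
      ext i
      exact (hcon i).symm
    obtain ⟨i, hi⟩ := hi
    have hp : pderiv i J = 0 := by
      fin_cases i
      · exact h0
      · exact h1
    have h2 := congrArg (coeff (n - Finsupp.single i 1)) hp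
    rw [coeff_pderiv, coeff_zero] at h2
    have h3 : n - Finsupp.single i 1 + Finsupp.single i 1 = n := by
      apply tsub_add_cancel_of_le
      rw [Finsupp.single_le_iff]
      omega
    rw [h3] at h2
    rcases mul_eq_zero.1 h2 with h4 | h4
    · exact hne h4
    · have h5 : (((n - Finsupp.single i 1 : Fin 2 →₀ ℕ) i + 1 : ℕ) : k) = 0 := by
        push_cast
        exact h4
      exact Nat.succ_ne_zero _ (Nat.cast_eq_zero.1 h5)

/-- an irreducible polynomial dividing both its partial derivatives does not exist -/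
theorem tan2_irr {k : Type} [Field k] [CharZero k] (J : MvPolynomial (Fin 2) k)
    (hJ : Irreducible J) (h0 : J ∣ pderiv 0 J) (h1 : J ∣ pderiv 1 J) : False := by
  have hz : ∀ i : Fin 2, J ∣ pderiv i J → pderiv i J = 0 := by
    intro i hi
    by_contra hne
    have h2 := totalDegree_le_of_dvd_of_isDomain hi hne
    have h3 := H450BH.TRP_td i J hne
    omega
  have h2 := tan2_const J (hz 0 h0) (hz 1 h1)
  by_cases hc : coeff 0 J = 0
  · rw [hc, C_0] at h2
    exact hJ.ne_zero h2
  · apply hJ.not_isUnit
    rw [h2]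
    exact (isUnit_iff_ne_zero.2 hc).map C

/-- a common zero of a squarefree polynomial and its gradient is not generic on a curve -/
theorem tan2_sing {k W : Type} [Field k] [CharZero k] [Field W] [Algebra k W]
    (F : MvPolynomial (Fin 2) k) (hF : Squarefree F) (r : Fin 2 → W)
    (ht : ∃ i, Transcendental k (r i)) (h : aeval r F = 0) (h0 : aeval r (pderiv 0 F) = 0)
    (h1 : aeval r (pderiv 1 F) = 0) : False := by
  have hF0 : F ≠ 0 := hF.ne_zero
  obtain ⟨f, hf, u, hu⟩ := WfDvdMonoid.exists_factors F hF0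
  have h2 : aeval r f.prod = 0 := by
    have h3 : aeval r (f.prod * (u : MvPolynomial (Fin 2) k)) = 0 := by rw [hu]; exact h
    rw [map_mul] at h3
    rcases mul_eq_zero.1 h3 with h4 | h4
    · exact h4
    · exfalso
      have h5 : IsUnit (aeval r (u : MvPolynomial (Fin 2) k)) := u.isUnit.map (aeval r)
      exact h5.ne_zero h4
  rw [map_multiset_prod, Multiset.prod_eq_zero_iff, Multiset.mem_map] at h2
  obtain ⟨J, hJf, hJ0⟩ := h2
  have hJ : Irreducible J := hf J hJf
  have hJF : J ∣ F := (Multiset.dvd_prod hJf).trans ⟨(u : MvPolynomial (Fin 2) k), hu.symm⟩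
  obtain ⟨R, hR⟩ := hJF
  have hJR : ¬ J ∣ R := by
    rintro ⟨S, hS⟩
    apply hJ.not_isUnit
    apply hF J
    exact ⟨S, by rw [hR, hS]; ring⟩
  have hp : Prime J := hJ.prime
  have key : ∀ i : Fin 2, aeval r (pderiv i F) = 0 → J ∣ pderiv i J := by
    intro i hi
    have h3 : J ∣ pderiv i F := H450BH.ker_dvd J hJ r hJ0 ht _ hi
    rw [hR, Derivation.leibniz, smul_eq_mul, smul_eq_mul] at h3
    have h4 : J ∣ R * pderiv i J := (dvd_add_right (Dvd.intro _ rfl)).1 h3
    rcases hp.dvd_or_dvd h4 with h5 | h5
    · exact absurd h5 hJR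
    · exact h5
  exact tan2_irr J hJ (key 0 h0) (key 1 h1)

/-- main result of the file -/
theorem tangent_exists {k W : Type} [Field k] [IsAlgClosed k] [CharZero k] [Field W] [IsAlgClosed W]
    [Algebra k W] (D : Derivation k W W) (m : W) (hm : D m ≠ 0) (H G : MvPolynomial (Fin 2) k)
    (hH : Irreducible H) (hdeg : 2 ≤ H.totalDegree) (hsq : Squarefree (H * G)) :
    ∃ b₀ x₀ : W, (rl m b₀ H).eval x₀ = 0 ∧
      aeval ![x₀, m * x₀ + b₀] (pderiv 1 H) ≠ 0 ∧
      (Polynomial.derivative (rl m b₀ H)).eval x₀ = 0 ∧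
      (Polynomial.derivative (Polynomial.derivative (rl m b₀ H))).eval x₀ ≠ 0 ∧
      (∀ x, x ≠ x₀ → (rl m b₀ H).eval x = 0 → (Polynomial.derivative (rl m b₀ H)).eval x ≠ 0) ∧
      ∀ x, (rl m b₀ G).eval x = 0 → (Polynomial.derivative (rl m b₀ G)).eval x ≠ 0 := by
  have hmt : Transcendental k m := fun h => hm (tan2_alg D m h)
  obtain ⟨q, hq, hq1, hq2, hqt⟩ := tangent_point m hmt H hH hdeg
  obtain ⟨x₀, hx₀⟩ : ∃ x₀, x₀ = q 0 := ⟨_, rfl⟩
  obtain ⟨b₀, hb₀⟩ : ∃ b₀, b₀ = q 1 - m * q 0 := ⟨_, rfl⟩
  have hqe : ![x₀, m * x₀ + b₀] = q := by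
    funext i
    fin_cases i
    · simp [hx₀]
    · simp [hx₀, hb₀]
  -- (a)
  have hD1 : D (q 1) = m * D (q 0) := by
    have h1 := tan2_D D q H
    rw [hq, map_zero] at h1
    have h2 : aeval q (pderiv 1 H) * (D (q 1) - m * D (q 0)) = 0 := by
      linear_combination (-1 : W) * h1 - D (q 0) * hq1
    rcases mul_eq_zero.1 h2 with h3 | h3
    · exact absurd h3 hq2
    · exact sub_eq_zero.1 h3
  have hDb : D b₀ = - x₀ * D m := by
    rw [hb₀, map_sub, D.leibniz, hD1, hx₀, smul_eq_mul, smul_eq_mul]
    ring
  -- (b)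
  have hsec : (aeval q (pderiv 0 (pderiv 0 H)) + m * aeval q (pderiv 1 (pderiv 0 H)) +
      m * (aeval q (pderiv 0 (pderiv 1 H)) + m * aeval q (pderiv 1 (pderiv 1 H)))) * D (q 0) =
      - (aeval q (pderiv 1 H) * D m) := by
    have h1 := congrArg D hq1
    rw [map_add, map_zero, D.leibniz, tan2_D, tan2_D, smul_eq_mul, smul_eq_mul, hD1] at h1
    linear_combination h1
  have hsec' : aeval q (pderiv 0 (pderiv 0 H)) + m * aeval q (pderiv 1 (pderiv 0 H)) +
      m * (aeval q (pderiv 0 (pderiv 1 H)) + m * aeval q (pderiv 1 (pderiv 1 H))) ≠ 0 := by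
    intro h
    rw [h, zero_mul] at hsec
    exact mul_ne_zero hq2 hm (neg_eq_zero.1 hsec.symm)
  -- (c)
  have hc : ∀ x, (rl m b₀ (H * G)).eval x = 0 →
      (Polynomial.derivative (rl m b₀ (H * G))).eval x = 0 → x = x₀ := by
    intro x h1 h2
    by_contra hne
    rw [tan2_eval] at h1
    rw [tan2_chain, Polynomial.eval_add, Polynomial.eval_mul, Polynomial.eval_C, tan2_eval,
      tan2_eval] at h2
    set rr : Fin 2 → W := ![x, m * x + b₀] with hrr
    have hr0 : rr 0 = x := by simp [hrr]
    have hr1 : rr 1 = m * x + b₀ := by simp [hrr]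
    have hDr1 : D (rr 1) = m * D x + x * D m + D b₀ := by
      rw [hr1, map_add, D.leibniz, smul_eq_mul, smul_eq_mul]
    have h3 := tan2_D D rr (H * G)
    rw [h1, map_zero, hr0, hDr1, hDb] at h3
    have h4 : aeval rr (pderiv 1 (H * G)) * ((x - x₀) * D m) = 0 := by
      linear_combination (-1 : W) * h3 - D x * h2
    have h5 : aeval rr (pderiv 1 (H * G)) = 0 := by
      rcases mul_eq_zero.1 h4 with h6 | h6
      · exact h6
      · exact absurd h6 (mul_ne_zero (sub_ne_zero.2 hne) hm)
    have h6 : aeval rr (pderiv 0 (H * G)) = 0 := by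
      linear_combination h2 - m * h5
    by_cases ht : ∃ i, Transcendental k (rr i)
    · exact tan2_sing (H * G) hsq rr ht h1 h6 h5
    · push Not at ht
      have a0 : D x = 0 := by
        have := tan2_alg D (rr 0) (by
          have := ht 0
          rw [Transcendental, not_not] at this
          exact this)
        rwa [hr0] at this
      have a1 : D (rr 1) = 0 := tan2_alg D (rr 1) (by
          have := ht 1
          rw [Transcendental, not_not] at this
          exact this)
      rw [hDr1, a0, hDb] at a1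
      have h7 : (x - x₀) * D m = 0 := by linear_combination a1
      exact mul_ne_zero (sub_ne_zero.2 hne) hm h7
  -- (d)
  have hd : aeval q G ≠ 0 := by
    intro h
    obtain ⟨S, hS⟩ := H450BH.ker_dvd H hH q hq hqt G h
    apply hH.not_isUnit
    apply hsq H
    exact ⟨S, by rw [hS]; ring⟩
  refine ⟨b₀, x₀, ?_, ?_, ?_, ?_, ?_, ?_⟩
  · rw [tan2_eval, hqe, hq]
  · rw [hqe]; exact hq2
  · rw [tan2_chain, Polynomial.eval_add, Polynomial.eval_mul, Polynomial.eval_C, tan2_eval,
      tan2_eval, hqe]
    exact hq1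
  · rw [tan2_chain, Polynomial.derivative_add, Polynomial.derivative_mul, Polynomial.derivative_C,
      zero_mul, zero_add, tan2_chain, tan2_chain]
    simp only [Polynomial.eval_add, Polynomial.eval_mul, Polynomial.eval_C, tan2_eval, hqe]
    exact hsec'
  · intro x hx h1 h2
    apply hx
    apply hc
    · rw [map_mul, Polynomial.eval_mul, h1, zero_mul]
    · rw [map_mul, Polynomial.derivative_mul, Polynomial.eval_add, Polynomial.eval_mul,
        Polynomial.eval_mul, h1, h2, zero_mul, zero_mul, add_zero]
  · intro x h1 h2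
    have hx : x = x₀ := by
      apply hc
      · rw [map_mul, Polynomial.eval_mul, h1, mul_zero]
      · rw [map_mul, Polynomial.derivative_mul, Polynomial.eval_add, Polynomial.eval_mul,
          Polynomial.eval_mul, h1, h2, mul_zero, mul_zero, add_zero]
    rw [hx, tan2_eval, hqe] at h1
    exact hd h1

end Pool.Agent.Helper897.BS
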