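import Mathlib

/-!
Ultraproducts of fields (the first part follows `Pool/Agent/H946R3/D/Ultra.lean`), and the
ultraproducts of the fields `ZMod (p n)` and of their algebraic closures.
-/

set_option autoImplicit false

namespace Pool.Agent.Helper897.BS

section Ultra

variable {ι : Type} (U : Ultrafilter ι) (κ : ι → Type) [∀ i, Field (κ i)]

/-- families which vanish almost everywhere -/
def nul : Ideal (∀ i, κ i) where
  carrier := {f | ∀ᶠ i in (U : Filter ι), f i = 0}
  zero_mem' := Filter.Eventually.of_forall fun i => rfl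
  add_mem' := by
    intro a b ha hb
    filter_upwards [ha, hb] with i h1 h2
    simp [h1, h2]
  smul_mem' := by
    intro c a ha
    filter_upwards [ha] with i h
    simp [h]

theorem mem_nul {f : ∀ i, κ i} : f ∈ nul U κ ↔ ∀ᶠ i in (U : Filter ι), f i = 0 := Iff.rfl

instance nul_isMaximal : (nul U κ).IsMaximal := by
  classical
  rw [Ideal.isMaximal_iff]
  constructor
  · intro h
    rw [mem_nul] at h
    obtain ⟨i, hi⟩ := h.exists
    exact one_ne_zero hi
  · intro J x hJ hx hxJ
    rw [mem_nul] at hx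
    have hx' : ∀ᶠ i in (U : Filter ι), x i ≠ 0 := Ultrafilter.eventually_not.2 hx
    have h1 : (1 - (fun i => (x i)⁻¹) * x : ∀ i, κ i) ∈ nul U κ := by
      rw [mem_nul]
      filter_upwards [hx'] with i hi
      simp [inv_mul_cancel₀ hi]
    have h2 : (fun i => (x i)⁻¹ : ∀ i, κ i) * x ∈ J := J.mul_mem_left _ hxJ
    have h3 := J.add_mem (hJ h1) h2
    simpa using h3

/-- the ultraproduct of the fields `κ i` -/
def KU : Type := (∀ i, κ i) ⧸ nul U κ

noncomputable instance : Field (KU U κ) := Ideal.Quotient.field (nul U κ)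

/-- the class of a family -/
noncomputable def st : (∀ i, κ i) →+* KU U κ := Ideal.Quotient.mk (nul U κ)

theorem st_surjective : Function.Surjective (st U κ) := Ideal.Quotient.mk_surjective

theorem st_eq_zero_iff {f : ∀ i, κ i} : st U κ f = 0 ↔ ∀ᶠ i in (U : Filter ι), f i = 0 :=
  Ideal.Quotient.eq_zero_iff_mem

theorem st_ne_zero_iff {f : ∀ i, κ i} : st U κ f ≠ 0 ↔ ∀ᶠ i in (U : Filter ι), f i ≠ 0 := by
  rw [Ne, st_eq_zero_iff]
  exact Ultrafilter.eventually_not.symm

theorem st_eq_iff {f g : ∀ i, κ i} : st U κ f = st U κ g ↔ ∀ᶠ i in (U : Filter ι), f i = g i := by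
  rw [← sub_eq_zero, ← map_sub, st_eq_zero_iff]
  refine Filter.eventually_congr (Filter.Eventually.of_forall fun i => ?_)
  rw [Pi.sub_apply, sub_eq_zero]

/-- evaluation at an index -/
abbrev ev (i : ι) : (∀ i, κ i) →+* κ i := Pi.evalRingHom κ i

instance [∀ i, IsAlgClosed (κ i)] : IsAlgClosed (KU U κ) := by
  refine IsAlgClosed.of_exists_root _ ?_
  intro p hp hirr
  have hsurj := st_surjective U κ
  obtain ⟨q, hq, hdeg, hmon⟩ := Polynomial.lifts_and_natDegree_eq_and_monic
    (Polynomial.map_surjective (st U κ) hsurj p : p ∈ Polynomial.lifts (st U κ)) hp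
  have hn : p.natDegree ≠ 0 := by
    intro h
    have := Polynomial.natDegree_eq_zero.1 h
    obtain ⟨c, hc⟩ := this
    have h1 := hp
    rw [← hc] at h1
    have : c = 1 := by simpa [Polynomial.Monic] using h1
    rw [this] at hc
    rw [← hc] at hirr
    exact hirr.not_isUnit (by simp)
  have hroot : ∀ i, ∃ x : κ i, (q.map (ev κ i)).eval x = 0 := by
    intro i
    refine IsAlgClosed.exists_root _ ?_
    rw [Polynomial.degree_eq_natDegree (hmon.map (ev κ i)).ne_zero, hmon.natDegree_map, hdeg]
    exact_mod_cast hn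
  choose x hx using hroot
  refine ⟨st U κ x, ?_⟩
  have h0 : q.eval x = 0 := by
    funext i
    have h1 : ev κ i (q.eval x) = (q.map (ev κ i)).eval (ev κ i x) :=
      (Polynomial.eval_map_apply ..).symm
    have h2 := hx i
    show ev κ i (q.eval x) = 0
    rw [h1]; exact h2
  rw [← hq, Polynomial.eval_map_apply, h0, map_zero]

theorem KU_charZero (h : ∀ n : ℕ, n ≠ 0 → ∀ᶠ i in (U : Filter ι), (n : κ i) ≠ 0) :
    CharZero (KU U κ) := by
  refine charZero_of_inj_zero ?_
  intro n hn
  by_contra h0
  have h1 := h n h0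
  have h2 : st U κ (n : ∀ i, κ i) ≠ 0 := by
    rw [st_ne_zero_iff]
    filter_upwards [h1] with i hi
    simpa using hi
  rw [map_natCast] at h2
  exact h2 hn

end Ultra

section Primes

/-- the ultrafilter -/
noncomputable abbrev UF : Ultrafilter ℕ := Filter.hyperfilter ℕ

variable (p : ℕ → ℕ) [hp : ∀ n, Fact (p n).Prime]

/-- the prime fields -/
abbrev Fp (n : ℕ) : Type := ZMod (p n)

/-- their algebraic closures -/
abbrev Kp (n : ℕ) : Type := AlgebraicClosure (ZMod (p n))

/-- the ultraproduct of the prime fields -/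
abbrev FF : Type := KU UF (Fp p)

/-- the ultraproduct of the algebraic closures -/
abbrev WW : Type := KU UF (Kp p)

/-- the inclusion of the product of the prime fields -/
noncomputable def pinc : (∀ n, Fp p n) →+* (∀ n, Kp p n) :=
  RingHom.pi fun n => (algebraMap (ZMod (p n)) (AlgebraicClosure (ZMod (p n)))).comp
    (Pi.evalRingHom (Fp p) n)

theorem pinc_apply (x : ∀ n, Fp p n) (n : ℕ) :
    pinc p x n = algebraMap (ZMod (p n)) (AlgebraicClosure (ZMod (p n))) (x n) := rfl

/-- the inclusion of the ultraproduct of the prime fields -/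
noncomputable def inc : FF p →+* WW p :=
  Ideal.quotientMap (nul UF (Kp p)) (pinc p) (by
    intro x hx
    rw [Ideal.mem_comap, mem_nul]
    rw [mem_nul] at hx
    filter_upwards [hx] with n hn
    rw [pinc_apply, hn, map_zero])

theorem inc_st (x : ∀ n, Fp p n) :
    inc p (st UF (Fp p) x) =
      st UF (Kp p) (fun n => algebraMap (ZMod (p n)) (AlgebraicClosure (ZMod (p n))) (x n)) :=
  Ideal.quotientMap_mk

/-- the Frobenius map of the product -/
noncomputable def pfrob : (∀ n, Kp p n) ≃+* (∀ n, Kp p n) :=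
  RingEquiv.piCongrRight fun n => frobeniusEquiv (Kp p n) (p n)

theorem pfrob_apply (x : ∀ n, Kp p n) (n : ℕ) : pfrob p x n = x n ^ p n := by
  simp [pfrob, frobenius_def]

theorem pfrob_symm_apply (x : ∀ n, Kp p n) (n : ℕ) : (pfrob p).symm x n ^ p n = x n := by
  rw [← pfrob_apply, RingEquiv.apply_symm_apply]

/-- the Frobenius map of the ultraproduct, as a ring homomorphism -/
noncomputable def phi1 : WW p →+* WW p :=
  Ideal.quotientMap (nul UF (Kp p)) (pfrob p).toRingHom (by
    intro x hx
    rw [Ideal.mem_comap, mem_nul]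
    rw [mem_nul] at hx
    filter_upwards [hx] with n hn
    have h1 := pfrob_apply p x n
    rw [hn, zero_pow (hp n).out.ne_zero] at h1
    exact h1)

/-- its inverse -/
noncomputable def phi2 : WW p →+* WW p :=
  Ideal.quotientMap (nul UF (Kp p)) (pfrob p).symm.toRingHom (by
    intro x hx
    rw [Ideal.mem_comap, mem_nul]
    rw [mem_nul] at hx
    filter_upwards [hx] with n hn
    have h1 := pfrob_symm_apply p x n
    rw [hn] at h1
    exact pow_eq_zero_iff (hp n).out.ne_zero |>.1 h1)

theorem phi1_st (x : ∀ n, Kp p n) : phi1 p (st UF (Kp p) x) = st UF (Kp p) (pfrob p x) :=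
  Ideal.quotientMap_mk (I := nul UF (Kp p)) (f := (pfrob p).toRingHom)

theorem phi2_st (x : ∀ n, Kp p n) : phi2 p (st UF (Kp p) x) = st UF (Kp p) ((pfrob p).symm x) :=
  Ideal.quotientMap_mk (I := nul UF (Kp p)) (f := (pfrob p).symm.toRingHom)

/-- the Frobenius map of the ultraproduct -/
noncomputable def phi : WW p ≃+* WW p :=
  RingEquiv.ofRingHom (phi1 p) (phi2 p)
    (by
      ext x
      obtain ⟨x, rfl⟩ := st_surjective UF (Kp p) x
      rw [RingHom.comp_apply, phi2_st, phi1_st, RingEquiv.apply_symm_apply, RingHom.id_apply])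
    (by
      ext x
      obtain ⟨x, rfl⟩ := st_surjective UF (Kp p) x
      rw [RingHom.comp_apply, phi1_st, phi2_st, RingEquiv.symm_apply_apply, RingHom.id_apply])

theorem phi_st (x : ∀ n, Kp p n) :
    phi p (st UF (Kp p) x) = st UF (Kp p) (fun n => x n ^ p n) := by
  have h : phi p (st UF (Kp p) x) = st UF (Kp p) (pfrob p x) := phi1_st p x
  rw [h]
  congr 1

end Primes

end Pool.Agent.Helper897.BS
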