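import Mathlib
import Pool.Agent.Helper897_BS.CORE
import Pool.Agent.Helper897_BS.LFR
import Pool.Agent.Helper897_BS.CIM
import Pool.Agent.Helper897_BS.MOM

/-! Weightings of bounded-line sets whose line sums are uniform in a positive proportion of the directions. -/

set_option autoImplicit false
set_option linter.all false

namespace Pool.Agent.Helper897.BS

open MvPolynomial







/-- at most `K` points of `B` on every line of the affine plane -/
def AffThin (p : ℕ) [Fact p.Prime] (K : ℕ) (B : Set (ZMod p × ZMod p)) : Prop :=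
  ∀ a b c : ZMod p, (a ≠ 0 ∨ b ≠ 0) → {P | P ∈ B ∧ a * P.1 + b * P.2 + c = 0}.ncard ≤ K

theorem wts_card (p K : ℕ) [Fact p.Prime] (B : Set (ZMod p × ZMod p)) (hB : AffThin p K B)
    (Γ : Finset (ZMod p × ZMod p)) (hΓ : ∀ P ∈ Γ, P ∈ B) : Γ.card ≤ K * p := by
  classical
  have h1 := Finset.card_le_mul_card_image (f := Prod.fst) Γ K (by
    intro c _
    have h2 := hB 1 0 (-c) (Or.inl one_ne_zero)
    refine le_trans ?_ h2
    rw [← Set.ncard_coe_finset]
    apply Set.ncard_le_ncard _ (Set.toFinite _)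
    intro P hP
    rw [Finset.mem_coe, Finset.mem_filter] at hP
    refine ⟨hΓ P hP.1, ?_⟩
    rw [← hP.2]
    ring)
  refine h1.trans (Nat.mul_le_mul_left K ?_)
  exact (Finset.card_le_univ _).trans (ZMod.card p).le

theorem wts_num (K α r c p : ℕ) (ε : ℝ) (hε : 0 < ε) (hp : 32 * (K : ℝ) ≤ ε ^ 2 * p)
    (hp0 : 0 < p) (hr : ε * p ≤ r + 3) (hc : c ≤ K * p) (h1 : α * (α + 1) ≤ 2 * c)
    (h2 : α * (r + 3 - 2 * α) ≤ 2 * c) : (α : ℝ) * ε ≤ 4 * K := by
  have hp0' : (0 : ℝ) < p := by exact_mod_cast hp0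
  have hc' : (c : ℝ) ≤ K * p := by exact_mod_cast hc
  have h1' : (α : ℝ) * (α + 1) ≤ 2 * c := by exact_mod_cast h1
  have hα0 : (0 : ℝ) ≤ α := Nat.cast_nonneg α
  have hsq : (α : ℝ) ^ 2 ≤ (ε * p / 4) ^ 2 := by
    have e1 : 32 * (K : ℝ) * p ≤ ε ^ 2 * p * p := mul_le_mul_of_nonneg_right hp hp0'.le
    nlinarith
  have hle : (α : ℝ) ≤ ε * p / 4 := by
    have e2 : 0 ≤ ε * p / 4 := by positivity
    exact (pow_le_pow_iff_left₀ hα0 e2 two_ne_zero).1 hsq
  have hs : ((r + 3 : ℕ) : ℝ) ≤ ((r + 3 - 2 * α : ℕ) : ℝ) + 2 * α := by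
    have e3 : r + 3 ≤ (r + 3 - 2 * α) + 2 * α := by omega
    exact_mod_cast e3
  push_cast at hs
  have hs2 : ε * p / 2 ≤ ((r + 3 - 2 * α : ℕ) : ℝ) := by linarith
  have h2' : (α : ℝ) * ((r + 3 - 2 * α : ℕ) : ℝ) ≤ 2 * c := by exact_mod_cast h2
  have h3 : (α : ℝ) * (ε * p / 2) ≤ 2 * (K * p) :=
    (mul_le_mul_of_nonneg_left hs2 hα0).trans (h2'.trans (by linarith))
  have h4 : ((α : ℝ) * ε) * p ≤ (4 * K) * p := by nlinarith
  exact le_of_mul_le_mul_right h4 hp0'

/-- main result 1 -/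
theorem weights_curve (K : ℕ) (ε : ℝ) (hε : 0 < ε) : ∃ D : ℕ, ∀ (p : ℕ) [Fact p.Prime], D < p →
    ∀ B : Set (ZMod p × ZMod p), AffThin p K B →
    ∀ (k : Type) [Field k] [Algebra (ZMod p) k] (w : ZMod p × ZMod p → k),
      (∀ P, w P ≠ 0 → P ∈ B) → (∃ P, w P ≠ 0) →
      ε * (p : ℝ) ≤ ({m : ZMod p | ∃ s : Polynomial k, (s.natDegree : ℝ) ≤ (1 - ε) * p ∧
        ∀ t : ZMod p, ∑ x : ZMod p, w (x, m * x + t) =
          s.eval (algebraMap (ZMod p) k t)}.ncard : ℝ) →
      ∃ g : MvPolynomial (Fin 2) (ZMod p), g ≠ 0 ∧ g.totalDegree ≤ D ∧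
        ∀ P, w P ≠ 0 → eval ![P.1, P.2] g = 0 := by
  refine ⟨⌈4 * (K : ℝ) / ε⌉₊ + ⌈32 * (K : ℝ) / ε ^ 2⌉₊ + ⌈3 / ε⌉₊, ?_⟩
  intro p _ hp B hB k _ _ w hwB hne hI
  classical
  have hp0 : 0 < p := by omega
  have hp1 : 3 < ε * p := by
    have e1 : ⌈3 / ε⌉₊ < p := by omega
    have e2 : 3 / ε < p := (Nat.le_ceil _).trans_lt (by exact_mod_cast e1)
    rw [div_lt_iff₀ hε] at e2
    linarith
  have hp2 : 32 * (K : ℝ) ≤ ε ^ 2 * p := by
    have e1 : ⌈32 * (K : ℝ) / ε ^ 2⌉₊ < p := by omega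
    have e2 : 32 * (K : ℝ) / ε ^ 2 < p := (Nat.le_ceil _).trans_lt (by exact_mod_cast e1)
    rw [div_lt_iff₀ (by positivity)] at e2
    linarith
  obtain ⟨r, hr⟩ : ∃ r : ℕ, ⌊ε * p⌋₊ = r + 2 := by
    have : 3 ≤ ⌊ε * p⌋₊ := Nat.le_floor (by push_cast; linarith)
    exact ⟨⌊ε * p⌋₊ - 2, by omega⟩
  have hr1 : (r : ℝ) + 2 ≤ ε * p := by
    have := Nat.floor_le (show 0 ≤ ε * p by linarith)
    rw [hr] at this
    push_cast at this
    exact this
  have hr2 : ε * p ≤ r + 3 := by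
    have := Nat.lt_floor_add_one (ε * p)
    rw [hr] at this
    push_cast at this
    linarith
  let L := AlgebraicClosure k
  let φ : ZMod p × ZMod p → L × L := fun P =>
    (algebraMap (ZMod p) L P.1, algebraMap (ZMod p) L P.2)
  have hφ : Function.Injective φ := by
    intro P Q h
    have h1 : algebraMap (ZMod p) L P.1 = algebraMap (ZMod p) L Q.1 := congrArg Prod.fst h
    have h2 : algebraMap (ZMod p) L P.2 = algebraMap (ZMod p) L Q.2 := congrArg Prod.snd h
    exact Prod.ext ((algebraMap (ZMod p) L).injective h1) ((algebraMap (ZMod p) L).injective h2)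
  let w' : ZMod p × ZMod p → L := fun P => algebraMap k L (w P)
  have hw' : ∀ P, w' P ≠ 0 ↔ w P ≠ 0 := fun P => (_root_.map_ne_zero (algebraMap k L))
  have hmom : ∀ g : MvPolynomial (Fin 2) L, g.totalDegree ≤ r →
      ∑ P : ZMod p × ZMod p,
        w' P * eval ![algebraMap (ZMod p) L P.1, algebraMap (ZMod p) L P.2] g = 0 := by
    refine moments p w' r (Set.toFinite {m : ZMod p | ∃ s : Polynomial k,
      (s.natDegree : ℝ) ≤ (1 - ε) * p ∧ ∀ t : ZMod p, ∑ x : ZMod p, w (x, m * x + t) =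
          s.eval (algebraMap (ZMod p) k t)}).toFinset ?_ ?_
    · rw [Set.ncard_eq_toFinset_card] at hI
      have e1 : (r : ℝ) < ((Set.toFinite {m : ZMod p | ∃ s : Polynomial k,
        (s.natDegree : ℝ) ≤ (1 - ε) * p ∧ ∀ t : ZMod p, ∑ x : ZMod p, w (x, m * x + t) =
          s.eval (algebraMap (ZMod p) k t)}).toFinset.card : ℝ) :=
        lt_of_lt_of_le (by linarith) hI
      exact_mod_cast e1
    · intro m hm
      rw [Set.Finite.mem_toFinset] at hm
      obtain ⟨s, hs, hst⟩ := hm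
      refine ⟨s.map (algebraMap k L), ?_, fun t => ?_⟩
      · rw [Polynomial.natDegree_map]
        have e1 : ((s.natDegree + r + 2 : ℕ) : ℝ) ≤ p := by
          push_cast
          linarith
        exact_mod_cast e1
      · show ∑ x : ZMod p, algebraMap k L (w (x, m * x + t)) = _
        rw [← map_sum, hst t, IsScalarTower.algebraMap_apply (ZMod p) k L, Polynomial.eval_map,
          Polynomial.eval₂_at_apply]
  let Γ₀ : Finset (ZMod p × ZMod p) := Finset.univ.filter fun P => w P ≠ 0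
  have hΓ₀ : ∀ P, P ∈ Γ₀ ↔ w P ≠ 0 := fun P => by simp [Γ₀]
  have hcard : (Γ₀.image φ).card ≤ K * p := Finset.card_image_le.trans
    (wts_card p K B hB Γ₀ fun P hP => hwB P ((hΓ₀ P).1 hP))
  have hext : ∀ P, Function.extend φ w' 0 (φ P) = w' P := fun P => hφ.extend_apply w' 0 P
  obtain ⟨f, hf, hf0, hα1, hα2⟩ := exists_low_curve (Γ₀.image φ) (by
      obtain ⟨P, hP⟩ := hne
      exact ⟨φ P, Finset.mem_image_of_mem φ ((hΓ₀ P).2 hP)⟩) (Function.extend φ w' 0) (by
      intro Q hQ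
      obtain ⟨P, hP, rfl⟩ := Finset.mem_image.1 hQ
      rw [hext]
      exact (hw' P).2 ((hΓ₀ P).1 hP)) r (by
      intro g hg
      rw [Finset.sum_image fun a _ b _ h => hφ h]
      rw [← hmom g hg]
      refine Finset.sum_subset_zero_on_sdiff (Finset.subset_univ _) ?_ ?_
      · intro P hP
        rw [Finset.mem_sdiff, hΓ₀, not_not] at hP
        show algebraMap k L (w P) * _ = 0
        rw [hP.2, map_zero, zero_mul]
      · intro P _
        rw [hext])
  have hαD := wts_num K f.totalDegree r _ p ε hε hp2 hp0 hr2 hcard hα1 hα2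
  obtain ⟨g, hg, hgd, hgv⟩ := descend_curve (K := ZMod p) (L := L) {P | w P ≠ 0} f hf (by
    intro P hP
    exact hf0 (φ P) (Finset.mem_image_of_mem φ ((hΓ₀ P).2 hP)))
  refine ⟨g, hg, hgd.trans ?_, fun P hP => hgv P hP⟩
  have e1 : (f.totalDegree : ℝ) ≤ 4 * K / ε := by
    rw [le_div_iff₀ hε]
    exact hαD
  have e2 : f.totalDegree ≤ ⌈4 * (K : ℝ) / ε⌉₊ := by
    have := e1.trans (Nat.le_ceil _)
    exact_mod_cast this
  omega

theorem wts_line {p : ℕ} [Fact p.Prime] (K : ℕ) (B : Set (ZMod p × ZMod p)) (hB : AffThin p K B)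
    (l : List (MvPolynomial (Fin 2) (ZMod p))) (hl : ∀ L ∈ l, L.totalDegree = 1) :
    {P | P ∈ B ∧ eval ![P.1, P.2] l.prod = 0}.ncard ≤ l.length * K := by
  induction l with
  | nil =>
    have e : {P | P ∈ B ∧ eval ![P.1, P.2] ([] : List (MvPolynomial (Fin 2) (ZMod p))).prod = 0} =
        ∅ := by
      ext P
      constructor
      · rintro ⟨-, h⟩
        rw [List.prod_nil, map_one] at h
        exact absurd h one_ne_zero
      · intro h
        exact absurd h (Set.notMem_empty P)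
    rw [e, Set.ncard_empty]
    exact Nat.zero_le _
  | cons L l ih =>
    have h1 := ih fun L' hL' => hl L' (List.mem_cons_of_mem L hL')
    obtain ⟨a, b, c, hab, hL⟩ := deg_one_form L (hl L List.mem_cons_self)
    have h2 := hB a b c hab
    have hsub : {P | P ∈ B ∧ eval ![P.1, P.2] (L :: l).prod = 0} ⊆
        {P | P ∈ B ∧ a * P.1 + b * P.2 + c = 0} ∪ {P | P ∈ B ∧ eval ![P.1, P.2] l.prod = 0} := by
      rintro P ⟨hP, h⟩
      rw [List.prod_cons, map_mul, mul_eq_zero] at h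
      rcases h with h | h
      · refine Or.inl ⟨hP, ?_⟩
        rw [hL] at h
        simpa using h
      · exact Or.inr ⟨hP, h⟩
    refine (Set.ncard_le_ncard hsub (Set.toFinite _)).trans ((Set.ncard_union_le _ _).trans ?_)
    rw [List.length_cons, add_mul, one_mul]
    omega

/-- main result 2 -/
theorem weights (K : ℕ) (ε : ℝ) (hε : 0 < ε) : ∃ M : ℕ, ∀ (p : ℕ) [Fact p.Prime], M < p →
    ∀ B : Set (ZMod p × ZMod p), AffThin p K B →
    ∀ (k : Type) [Field k] [Algebra (ZMod p) k] (w : ZMod p × ZMod p → k),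
      (∀ P, w P ≠ 0 → P ∈ B) → (∃ P, w P ≠ 0) →
      ε * (p : ℝ) ≤ ({m : ZMod p | ∃ s : Polynomial k, (s.natDegree : ℝ) ≤ (1 - ε) * p ∧
        ∀ t : ZMod p, ∑ x : ZMod p, w (x, m * x + t) =
          s.eval (algebraMap (ZMod p) k t)}.ncard : ℝ) →
      {m : ZMod p | M * {t : ZMod p | ∀ x, w (x, m * x + t) = 0}.ncard < p}.ncard ≤ M := by
  obtain ⟨D, hD⟩ := weights_curve K ε hε
  obtain ⟨M0, hM0⟩ := core D
  refine ⟨2 * M0 + 2 * (M0 * (D * K)) + D, ?_⟩
  intro p _ hp B hB k _ _ w hwB hne hI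
  obtain ⟨g, hg0, hgd, hgv⟩ := hD p (by omega) B hB k w hwB hne hI
  obtain ⟨l, g', hgl, hg'0, hl1, hlen, hnd⟩ := split_linear g hg0
  have hcore := hM0 p (by omega) g' hg'0 (by omega) hnd
  have hX := wts_line K B hB l hl1
  have hX' : l.length * K ≤ D * K := Nat.mul_le_mul_right K (by omega)
  have hm : ∀ m : ZMod p, {b : ZMod p | ∀ x, MvPolynomial.eval ![x, m * x + b] g' ≠ 0}.ncard ≤
      {t : ZMod p | ∀ x, w (x, m * x + t) = 0}.ncard + D * K := by
    intro m
    have hsub : {b : ZMod p | ∀ x, MvPolynomial.eval ![x, m * x + b] g' ≠ 0} ⊆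
        {t : ZMod p | ∀ x, w (x, m * x + t) = 0} ∪
          (fun P : ZMod p × ZMod p => P.2 - m * P.1) ''
            {P | P ∈ B ∧ eval ![P.1, P.2] l.prod = 0} := by
      intro b hb
      by_cases hz : ∀ x, w (x, m * x + b) = 0
      · exact Or.inl hz
      · right
        rw [not_forall] at hz
        obtain ⟨x, hx⟩ := hz
        refine ⟨(x, m * x + b), ⟨hwB _ hx, ?_⟩, ?_⟩
        · have h1 := hgv _ hx
          rw [hgl, map_mul, mul_eq_zero] at h1
          rcases h1 with h1 | h1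
          · exact h1
          · exact absurd h1 (hb x)
        · show m * x + b - m * x = b
          ring
    refine (Set.ncard_le_ncard hsub (Set.toFinite _)).trans ((Set.ncard_union_le _ _).trans ?_)
    have h3 := Set.ncard_image_le (f := fun P : ZMod p × ZMod p => P.2 - m * P.1)
      (Set.toFinite {P | P ∈ B ∧ eval ![P.1, P.2] l.prod = 0})
    omega
  refine (Set.ncard_le_ncard ?_ (Set.toFinite _)).trans (hcore.trans (by omega))
  intro m hmm
  have h1 : (2 * M0 + 2 * (M0 * (D * K)) + D) *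
    {t : ZMod p | ∀ x, w (x, m * x + t) = 0}.ncard < p := hmm
  show M0 * {b : ZMod p | ∀ x, MvPolynomial.eval ![x, m * x + b] g' ≠ 0}.ncard < p
  have h2 := hm m
  generalize {b : ZMod p | ∀ x, MvPolynomial.eval ![x, m * x + b] g' ≠ 0}.ncard = S at *
  generalize {t : ZMod p | ∀ x, w (x, m * x + t) = 0}.ncard = Z at *
  have h3 : M0 * S ≤ M0 * Z + M0 * (D * K) := by
    rw [← mul_add]
    exact Nat.mul_le_mul_left M0 h2
  have h4 : 2 * (M0 * Z) ≤ (2 * M0 + 2 * (M0 * (D * K)) + D) * Z := by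
    rw [← mul_assoc]
    exact Nat.mul_le_mul_right Z (by omega)
  generalize (2 * M0 + 2 * (M0 * (D * K)) + D) * Z = W at *
  generalize M0 * Z = U at *
  generalize M0 * (D * K) = V at *
  generalize M0 * S = T at *
  omega

end Pool.Agent.Helper897.BS
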